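import Pool.Agent.H43AW.Stm
import Pool.Agent.R456.CL.Add

/-!
# Additivity of equivalence below a projection with a halving
-/

set_option autoImplicit false

namespace Pool.Agent.H43AW

open Pool.Agent.R456.CL

universe u

section

variable {A : Type u} [CStarAlgebra A]

/-- two partial isometries with initial projection `P` and orthogonal ranges below `P`. -/
lemma hv_isom {P : A} (hP : PJ P) (h : HV P) : ∃ v₁ v₂ : A, star v₁ * v₁ = P ∧
    star v₂ * v₂ = P ∧ star v₁ * v₂ = 0 ∧ P * v₁ = v₁ ∧ P * v₂ = v₂ := by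
  obtain ⟨g1, g2, h1, h2, h12, hl1, hl2, ⟨v₁, ha1, ha2⟩, ⟨v₂, hb1, hb2⟩⟩ := h
  have k1 : g1 * v₁ = v₁ := pi_left hP ha1 ha2
  have k2 : g2 * v₂ = v₂ := pi_left hP hb1 hb2
  refine ⟨v₁, v₂, ha1, hb1, ?_, ?_, ?_⟩
  · rw [← star_absorb_left h1 k1, ← k2, mul_assoc, ← mul_assoc g1, h12, zero_mul, mul_zero]
  · rw [← k1, ← mul_assoc, Le.rev h1 hP hl1]
  · rw [← k2, ← mul_assoc, Le.rev h2 hP hl2]

lemma pj_conjR {P v p : A} (hv : star v * v = P) (hp : PJ p) (hPp : P * p = p) :
    PJ (v * p * star v) := by
  refine pj_mk ?_ ?_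
  · calc v * p * star v * (v * p * star v) = v * p * ((star v * v) * p) * star v := by
          simp only [mul_assoc]
      _ = v * p * star v := by rw [hv, hPp, mul_assoc v p p, PJ.mul_self hp]
  · rw [star_mul, star_mul, star_star, PJ.star hp, mul_assoc]

lemma conj_mulR {P v p q : A} (hv : star v * v = P) (hPq : P * q = q) :
    v * p * star v * (v * q * star v) = v * (p * q) * star v := by
  calc v * p * star v * (v * q * star v) = v * (p * ((star v * v) * q)) * star v := by
        simp only [mul_assoc]
    _ = v * (p * q) * star v := by rw [hv, hPq]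

lemma pj_symm {P p : A} (hP : PJ P) (hp : PJ p) (h : P * p = p) : p * P = p := by
  have := congrArg star h
  rwa [star_mul, PJ.star hp, PJ.star hP] at this

lemma isSup_conjR {ι : Type*} {P v : A} (hP : PJ P) (hv : star v * v = P) {e : ι → A} {E : A}
    (he : ∀ i, PJ (e i)) (h : IsSup e E) (hPe : ∀ i, P * e i = e i) (hPE : P * E = E) :
    IsSup (fun i => v * e i * star v) (v * E * star v) := by
  obtain ⟨h1, h2, h3⟩ := h
  refine ⟨pj_conjR hv h1 hPE, fun i => ?_, fun x hx => ?_⟩
  · show v * e i * star v * (v * E * star v) = v * e i * star v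
    rw [conj_mulR hv hPE, h2 i]
  · have h4 : (x * v) * E = 0 := by
      apply h3
      intro i
      have h5 : x * (v * e i * star v) * v = 0 := by rw [hx i, zero_mul]
      calc x * v * e i = x * v * (e i * P) := by rw [pj_symm hP (he i) (hPe i)]
        _ = x * (v * e i * star v) * v := by rw [← hv]; simp only [mul_assoc]
        _ = 0 := h5
    calc x * (v * E * star v) = ((x * v) * E) * star v := by simp only [mul_assoc]
      _ = 0 := by rw [h4, zero_mul]

lemma sup_leP {ι : Type*} {P : A} {e : ι → A} {E : A} (h : IsSup e E)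
    (hPe : ∀ i, P * e i = e i) : P * E = E := by
  have := h.2.2 (1 - P) (fun i => by rw [sub_mul, one_mul, hPe, sub_self])
  rw [sub_mul, one_mul, sub_eq_zero] at this
  exact this.symm

end

theorem addR_ok : St_AddR.{u} := by
  intro A _ hAO P hP hPhv ι w E F hPw hwP hpj ho1 ho2 hE hF
  obtain ⟨v₁, v₂, h1, h2, h12, hP1, hP2⟩ := hv_isom hP hPhv
  have h1P : v₁ * P = v₁ := pi_right hP h1
  have h2P : v₂ * P = v₂ := pi_right hP h2
  have hPsw : ∀ i, P * star (w i) = star (w i) := fun i => star_absorb_right hP (hwP i)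
  have hPi : ∀ i, P * (star (w i) * w i) = star (w i) * w i := fun i => by
    rw [← mul_assoc, hPsw]
  have hPf : ∀ i, P * (w i * star (w i)) = w i * star (w i) := fun i => by
    rw [← mul_assoc, hPw]
  have hPE : P * E = E := sup_leP hE hPi
  have hPF : P * F = F := sup_leP hF hPf
  have hEP : E * P = E := pj_symm hP hE.1 hPE
  have hFP : F * P = F := pj_symm hP hF.1 hPF
  have hfin : ∀ i, PJ (w i * star (w i)) := fun i => pi_final (hpj i) rfl
  have hi : ∀ i, star (v₂ * w i * star v₁) * (v₂ * w i * star v₁)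
      = v₁ * (star (w i) * w i) * star v₁ := by
    intro i
    calc star (v₂ * w i * star v₁) * (v₂ * w i * star v₁)
        = v₁ * (star (w i) * ((star v₂ * v₂) * w i)) * star v₁ := by
          rw [star_mul, star_mul, star_star]; simp only [mul_assoc]
      _ = _ := by rw [h2, hPw]
  have hf : ∀ i, (v₂ * w i * star v₁) * star (v₂ * w i * star v₁)
      = v₂ * (w i * star (w i)) * star v₂ := by
    intro i
    calc (v₂ * w i * star v₁) * star (v₂ * w i * star v₁)
        = v₂ * (w i * ((star v₁ * v₁) * star (w i))) * star v₂ := by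
          rw [star_mul, star_mul, star_star]; simp only [mul_assoc]
      _ = _ := by rw [h1, hPsw]
  obtain ⟨v, hv1, hv2, hv3⟩ := hAO ι (fun i => v₂ * w i * star v₁) (v₁ * E * star v₁)
    (v₂ * F * star v₂)
    (fun i => by
      change PJ (star (v₂ * w i * star v₁) * (v₂ * w i * star v₁))
      rw [hi]; exact pj_conjR h1 (hpj i) (hPi i))
    (fun i j hij => by
      change star (v₂ * w i * star v₁) * (v₂ * w i * star v₁) *
        (star (v₂ * w j * star v₁) * (v₂ * w j * star v₁)) = 0
      rw [hi, hi, conj_mulR h1 (hPi j), ho1 i j hij, mul_zero, zero_mul])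
    (fun i j hij => by
      change (v₂ * w i * star v₁) * star (v₂ * w i * star v₁) *
        ((v₂ * w j * star v₁) * star (v₂ * w j * star v₁)) = 0
      rw [hf, hf, conj_mulR h2 (hPf j), ho2 i j hij, mul_zero, zero_mul])
    (by
      have := isSup_conjR hP h1 hpj hE hPi hPE
      have e : (fun i => star ((fun i => v₂ * w i * star v₁) i) * (fun i => v₂ * w i * star v₁) i)
          = fun i => v₁ * (star (w i) * w i) * star v₁ := funext hi
      rw [e]; exact this)
    (by
      have := isSup_conjR hP h2 hfin hF hPf hPF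
      have e : (fun i => (fun i => v₂ * w i * star v₁) i * star ((fun i => v₂ * w i * star v₁) i))
          = fun i => v₂ * (w i * star (w i)) * star v₂ := funext hf
      rw [e]; exact this)
    (by
      calc v₁ * E * star v₁ * (v₂ * F * star v₂)
          = v₁ * E * (star v₁ * v₂) * F * star v₂ := by simp only [mul_assoc]
        _ = 0 := by rw [h12]; simp)
  have hpv : PJ (star v * v) := by rw [hv1]; exact pj_conjR h1 hE.1 hPE
  have hvi : v * (star v * v) = v := pi_right hpv rfl
  have hfv : (v * star v) * v = v := by rw [mul_assoc, hvi]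
  have hv4 : v₂ * star v₂ * v = v := by
    calc v₂ * star v₂ * v = v₂ * star v₂ * ((v * star v) * v) := by rw [hfv]
      _ = v₂ * star v₂ * (v₂ * F * star v₂ * v) := by rw [hv2]
      _ = v₂ * ((star v₂ * v₂) * F) * star v₂ * v := by simp only [mul_assoc]
      _ = v := by rw [h2, hPF, ← hv2, hfv]
  have hv5 : v * (v₁ * star v₁) = v := by
    calc v * (v₁ * star v₁) = (v * (star v * v)) * (v₁ * star v₁) := by rw [hvi]
      _ = v * (v₁ * E * star v₁) * (v₁ * star v₁) := by rw [hv1]
      _ = v * (v₁ * (E * (star v₁ * v₁)) * star v₁) := by simp only [mul_assoc]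
      _ = v := by rw [h1, hEP, ← hv1, hvi]
  refine ⟨star v₂ * v * v₁, ?_, ?_, fun i => ?_⟩
  · calc star (star v₂ * v * v₁) * (star v₂ * v * v₁)
        = star v₁ * (star v * (v₂ * star v₂ * v)) * v₁ := by
          rw [star_mul, star_mul, star_star]; simp only [mul_assoc]
      _ = star v₁ * (v₁ * E * star v₁) * v₁ := by rw [hv4, hv1]
      _ = (star v₁ * v₁) * E * (star v₁ * v₁) := by simp only [mul_assoc]
      _ = E := by rw [h1, hPE, hEP]
  · calc star v₂ * v * v₁ * star (star v₂ * v * v₁)
        = star v₂ * ((v * (v₁ * star v₁)) * star v) * v₂ := by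
          rw [star_mul, star_mul, star_star]; simp only [mul_assoc]
      _ = star v₂ * (v₂ * F * star v₂) * v₂ := by rw [hv5, hv2]
      _ = (star v₂ * v₂) * F * (star v₂ * v₂) := by simp only [mul_assoc]
      _ = F := by rw [h2, hPF, hFP]
  · have h3 : v * (v₁ * (star (w i) * w i) * star v₁) = v₂ * w i * star v₁ := by
      have := hv3 i
      change v * (star (v₂ * w i * star v₁) * (v₂ * w i * star v₁)) = v₂ * w i * star v₁ at this
      rwa [hi] at this
    have hiP : star (w i) * w i * P = star (w i) * w i := by rw [mul_assoc, hwP]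
    calc star v₂ * v * v₁ * (star (w i) * w i)
        = star v₂ * v * v₁ * (star (w i) * w i * P) := by rw [hiP]
      _ = star v₂ * (v * (v₁ * (star (w i) * w i) * star v₁)) * v₁ := by
          rw [← h1]; simp only [mul_assoc]
      _ = star v₂ * (v₂ * w i * star v₁) * v₁ := by rw [h3]
      _ = ((star v₂ * v₂) * w i) * (star v₁ * v₁) := by simp only [mul_assoc]
      _ = w i := by rw [h1, h2, hPw, hwP]

end Pool.Agent.H43AW
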