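import Pool.Agent.H43AW.B2

/-!
# Everything is locally of type (B) when there is no projection of type (A)
-/

set_option autoImplicit false

namespace Pool.Agent.H43AW

open Pool.Agent.R456.CL

universe u

section

variable {A : Type u} [CStarAlgebra A]

lemma b_inv {q T : A} {c s : ℂ} (hq : PJ q) (hd : ‖q * (T - c • (1 : A)) * q‖ ≤ 1 / 8)
    (hcs : 1 / 2 ≤ ‖c - s‖) : ∃ y : A, q * y = y ∧ y * q = y ∧
      y * (q * (T - s • (1 : A)) * q) = q ∧ (q * (T - s • (1 : A)) * q) * y = q ∧ ‖y‖ ≤ 4 := by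
  have hqq := PJ.mul_self hq
  obtain ⟨d, hdd⟩ : ∃ d, d = q * (T - c • (1 : A)) * q := ⟨_, rfl⟩
  rw [← hdd] at hd
  have hd1 : q * d = d := by rw [hdd]; simp only [← mul_assoc, hqq]
  have hd2 : d * q = d := by rw [hdd, mul_assoc, hqq]
  have he : q * (T - s • (1 : A)) * q = (c - s) • q + d := by
    rw [hdd, mul_sub, mul_sub, sub_mul, sub_mul, mul_smul_comm, mul_smul_comm, mul_one,
      smul_mul_assoc, smul_mul_assoc, hqq, sub_smul]
    abel
  obtain ⟨-, -, y, h1, h2, h3, h4⟩ := iso_scalar hq hd1 hd2 (by linarith : ‖d‖ < ‖c - s‖)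
  refine ⟨y, h1, h2, by rw [he]; exact h3, by rw [he]; exact h4, ?_⟩
  have h5 : (c - s) • y = q - y * d := by
    rw [mul_add, mul_smul_comm, h2] at h3
    rw [← h3]; abel
  have h6 : ‖c - s‖ * ‖y‖ ≤ 1 + ‖y‖ * (1 / 8) := by
    rw [← norm_smul, h5]
    refine (norm_sub_le _ _).trans (add_le_add (pj_norm_le hq) ?_)
    exact (norm_mul_le _ _).trans (mul_le_mul_of_nonneg_left hd (norm_nonneg _))
  have h7 : 1 / 2 * ‖y‖ ≤ ‖c - s‖ * ‖y‖ := mul_le_mul_of_nonneg_right hcs (norm_nonneg _)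
  linarith [norm_nonneg y]

end

theorem b_ok : St_B.{u} := by
  intro A _ hsa hc hgc hhalf hfs hhull hsb g T hg hgT hTg hno z0 hz0 hz00
  by_cases hfin : ∃ c : A, CP c ∧ c * z0 = c ∧ c ≠ 0 ∧ ¬ Infin (c * g)
  · obtain ⟨c, hc', hcz, hc0, hcf⟩ := hfin
    refine ⟨c, hc', hcz, hc0, Or.inl ⟨hc', c * g, 0, pj_cmul hc' hg, PJ.mul_self (pj_cmul hc' hg),
      hcf, by simp, by simp, by simp, by simp, by simp⟩⟩
  · push Not at hfin
    have hinf : Infin (z0 * g) := hfin z0 hz0 hz0.idem hz00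
    obtain ⟨c, hcP, hcg, hhv⟩ := hhalf (z0 * g) (pj_cmul hz0 hg) hinf
    obtain ⟨z1, hz1d⟩ : ∃ z1, z1 = c * z0 := ⟨_, rfl⟩
    have hz1 : CP z1 := by rw [hz1d]; exact hcP.mul hz0
    have hz1z0 : z1 * z0 = z1 := by rw [hz1d, mul_assoc, hz0.idem]
    obtain ⟨P, hPd⟩ : ∃ P, P = z1 * g := ⟨_, rfl⟩
    rw [← mul_assoc, ← hz1d, ← hPd] at hhv hcg
    have hz10 : z1 ≠ 0 := by
      intro h
      apply hcg
      rw [hPd, h, zero_mul]
    have hP : PJ P := by rw [hPd]; exact pj_cmul hz1 hg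
    have hPg : Le P g := by rw [hPd]; exact le_cmul_left (PJ.mul_self hg)
    have hPT : P * T = T * P := by rw [hPd, mul_assoc, hgT, hz1.mid, hTg]
    have hnoP : NoA T P := by
      intro q hqP hA
      refine hno q ?_ hA
      show q * g = q
      rw [← show q * P = q from hqP, mul_assoc, show P * g = P from hPg]
    -- real and imaginary parts
    obtain ⟨a, ha⟩ : ∃ a : A, a = (1 / 2 : ℂ) • (T + star T) := ⟨_, rfl⟩
    obtain ⟨b, hb⟩ : ∃ b : A, b = (-(Complex.I / 2) : ℂ) • (T - star T) := ⟨_, rfl⟩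
    have hsc : star (1 / 2 : ℂ) = 1 / 2 := by simp
    have hsc' : star (-(Complex.I / 2) : ℂ) = Complex.I / 2 := by simp [neg_div]
    have has : star a = a := by
      rw [ha, star_smul, star_add, star_star, add_comm (star T), hsc]
    have hbs : star b = b := by
      rw [hb, star_smul, star_sub, star_star, ← neg_sub T, smul_neg, ← neg_smul, hsc']
    have hab : a + Complex.I • b = T := by
      rw [ha, hb, smul_smul]
      have : Complex.I * -(Complex.I / 2) = (1 / 2 : ℂ) := by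
        have := Complex.I_mul_I
        linear_combination (-(1 / 2 : ℂ)) * this
      rw [this]
      module
    have hn2 : ‖(1 / 2 : ℂ)‖ = 1 / 2 := by norm_num
    have hn3 : ‖(-(Complex.I / 2) : ℂ)‖ = 1 / 2 := by norm_num
    have hofa : ∀ Q : A, PJ Q → Le Q P → OffFin (Q * a * Q) Q := by
      intro Q hQ hQP e f he hf heQ hfQ hef
      have heP : Le e P := by
        show e * P = e
        rw [← show e * Q = e from heQ, mul_assoc, show Q * P = Q from hQP]
      have hfP : Le f P := by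
        show f * P = f
        rw [← show f * Q = f from hfQ, mul_assoc, show Q * P = Q from hQP]
      obtain ⟨k, hk, hke, hkf, h1, h2⟩ :=
        cut_both hc hhalf hhull hsb hfs hP hhv hPT hnoP he hf heP hfP hef
      refine ⟨k, hk, hke, hkf, ?_⟩
      have h3 : f * (Q * a * Q) * (e - k) =
          (1 / 2 : ℂ) • (f * T * (e - k) + f * star T * (e - k)) := by
        have h4 : Q * (e - k) = e - k := by
          have hQe : Q * e = e := Le.rev he hQ heQ
          have hek : e * k = k := Le.rev hk he hke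
          have hQk : Q * k = k := by rw [← hek, ← mul_assoc, hQe]
          rw [mul_sub, hQe, hQk]
        calc f * (Q * a * Q) * (e - k) = (f * Q) * a * (Q * (e - k)) := by simp only [mul_assoc]
          _ = f * a * (e - k) := by rw [show f * Q = f from hfQ, h4]
          _ = _ := by rw [ha, mul_smul_comm, smul_mul_assoc, mul_add, add_mul]
      rw [h3, norm_smul, hn2]
      have := norm_add_le (f * T * (e - k)) (f * star T * (e - k))
      linarith
    have hofb : ∀ Q : A, PJ Q → Le Q P → OffFin (Q * b * Q) Q := by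
      intro Q hQ hQP e f he hf heQ hfQ hef
      have heP : Le e P := by
        show e * P = e
        rw [← show e * Q = e from heQ, mul_assoc, show Q * P = Q from hQP]
      have hfP : Le f P := by
        show f * P = f
        rw [← show f * Q = f from hfQ, mul_assoc, show Q * P = Q from hQP]
      obtain ⟨k, hk, hke, hkf, h1, h2⟩ :=
        cut_both hc hhalf hhull hsb hfs hP hhv hPT hnoP he hf heP hfP hef
      refine ⟨k, hk, hke, hkf, ?_⟩
      have h3 : f * (Q * b * Q) * (e - k) =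
          (-(Complex.I / 2) : ℂ) • (f * T * (e - k) - f * star T * (e - k)) := by
        have h4 : Q * (e - k) = e - k := by
          have hQe : Q * e = e := Le.rev he hQ heQ
          have hek : e * k = k := Le.rev hk he hke
          have hQk : Q * k = k := by rw [← hek, ← mul_assoc, hQe]
          rw [mul_sub, hQe, hQk]
        calc f * (Q * b * Q) * (e - k) = (f * Q) * b * (Q * (e - k)) := by simp only [mul_assoc]
          _ = f * b * (e - k) := by rw [show f * Q = f from hfQ, h4]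
          _ = _ := by rw [hb, mul_smul_comm, smul_mul_assoc, mul_sub f T, sub_mul (f * T)]
      rw [h3, norm_smul, hn3]
      have := norm_sub_le (f * T * (e - k)) (f * star T * (e - k))
      linarith
    -- real part
    have hPP := PJ.mul_self hP
    obtain ⟨z2, k1, l1, hz2, hz21, hz20, hk1, hk1le, hk1f, hn1⟩ :=
      near_scalar hsa hgc hfs hP (a := P * a * P)
        (by rw [star_mul, star_mul, has, PJ.star hP, mul_assoc]) (by rw [mul_assoc, hPP])
        (hofa P hP hPP) z1 hz1 hz10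
    obtain ⟨Q, hQd⟩ : ∃ Q, Q = z2 * P - k1 := ⟨_, rfl⟩
    rw [← hQd] at hn1
    have hz2P : PJ (z2 * P) := pj_cmul hz2 hP
    have hQ : PJ Q := by rw [hQd]; exact pj_sub hk1 hz2P hk1le
    have hQQ := PJ.mul_self hQ
    have hk1P : k1 * P = k1 := by
      rw [← show k1 * (z2 * P) = k1 from hk1le, mul_assoc, mul_assoc, hPP]
    have hQP : Le Q P := by
      show Q * P = Q
      rw [hQd, sub_mul, mul_assoc, hPP, hk1P]
    -- imaginary part
    obtain ⟨z3, k2, l2, hz3, hz32, hz30, hk2, hk2le, hk2f, hn2'⟩ :=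
      near_scalar hsa hgc hfs hQ (a := Q * b * Q)
        (by rw [star_mul, star_mul, hbs, PJ.star hQ, mul_assoc]) (by rw [mul_assoc, hQQ])
        (hofb Q hQ hQP) z2 hz2 hz20
    obtain ⟨q, hqd⟩ : ∃ q, q = z3 * Q - k2 := ⟨_, rfl⟩
    rw [← hqd] at hn2'
    have hz3Q : PJ (z3 * Q) := pj_cmul hz3 hQ
    have hq : PJ q := by rw [hqd]; exact pj_sub hk2 hz3Q hk2le
    have hz31 : z3 * z1 = z3 := by rw [← hz32, mul_assoc, hz21]
    have hz3g : z3 * g = z3 * P := by rw [hPd, ← mul_assoc, hz31]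
    have hk2Q : k2 * Q = k2 := by
      rw [← show k2 * (z3 * Q) = k2 from hk2le, mul_assoc, mul_assoc, hQQ]
    have hqQ : q * Q = q := by rw [hqd, sub_mul, mul_assoc, hQQ, hk2Q]
    have hQq : Q * q = q := Le.rev hq hQ hqQ
    have hqP : q * P = q := by rw [← hqQ, mul_assoc, show Q * P = Q from hQP]
    have hPq : P * q = q := Le.rev hq hP hqP
    have hk1' : PJ (z3 * k1) := pj_cmul hz3 hk1
    have hk1Q : k1 * Q = 0 := by
      rw [hQd, mul_sub, show k1 * (z2 * P) = k1 from hk1le, PJ.mul_self hk1, sub_self]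
    have hk12 : z3 * k1 * k2 = 0 := by
      rw [← Le.rev hk2 hz3Q hk2le, mul_assoc, ← mul_assoc k1, hz3.mid k1 Q, hk1Q]; simp
    have hsub : z3 * g - (z3 * k1 + k2) = q := by
      rw [hz3g, hqd, hQd, mul_sub, ← mul_assoc z3 z2, hz32]; abel
    have hkle : Le (z3 * k1 + k2) (z3 * g) := by
      show (z3 * k1 + k2) * (z3 * g) = z3 * k1 + k2
      rw [hz3g, add_mul, hz3.two, hk1P]
      congr 1
      calc k2 * (z3 * P) = k2 * (z3 * Q) * (z3 * P) := by rw [show k2 * (z3 * Q) = k2 from hk2le]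
        _ = k2 * (z3 * (Q * P)) := by rw [mul_assoc, hz3.two]
        _ = k2 := by rw [show Q * P = Q from hQP]; exact hk2le
    have hkf : ¬ Infin (z3 * k1 + k2) :=
      hfs _ _ hk1' hk2 hk12 (not_infin_cmul hz3 hk1 hk1f) hk2f
    -- the scalar
    obtain ⟨s0, hs0⟩ : ∃ s0 : ℂ, s0 = (l1 : ℂ) + Complex.I * (l2 : ℂ) := ⟨_, rfl⟩
    have hqq := PJ.mul_self hq
    have hmain : ‖q * (T - s0 • (1 : A)) * q‖ ≤ 1 / 8 := by
      have e1 : q * (T - s0 • (1 : A)) * q =
          q * (Q * (P * a * P - (l1 : ℂ) • (1 : A)) * Q) * q +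
          Complex.I • (q * (Q * b * Q - (l2 : ℂ) • (1 : A)) * q) := by
        have e2 : q * (Q * (P * a * P - (l1 : ℂ) • (1 : A)) * Q) * q =
            q * a * q - (l1 : ℂ) • q := by
          calc q * (Q * (P * a * P - (l1 : ℂ) • (1 : A)) * Q) * q
              = (q * Q) * (P * a * P - (l1 : ℂ) • (1 : A)) * (Q * q) := by simp only [mul_assoc]
            _ = q * (P * a * P - (l1 : ℂ) • (1 : A)) * q := by rw [hqQ, hQq]
            _ = (q * P) * a * (P * q) - (l1 : ℂ) • q := by
                rw [mul_sub, sub_mul, mul_smul_comm, mul_one, smul_mul_assoc, hqq]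
                simp only [mul_assoc]
            _ = q * a * q - (l1 : ℂ) • q := by rw [hqP, hPq]
        have e3 : q * (Q * b * Q - (l2 : ℂ) • (1 : A)) * q = q * b * q - (l2 : ℂ) • q := by
          calc q * (Q * b * Q - (l2 : ℂ) • (1 : A)) * q
              = (q * Q) * b * (Q * q) - (l2 : ℂ) • q := by
                rw [mul_sub, sub_mul, mul_smul_comm, mul_one, smul_mul_assoc, hqq]
                simp only [mul_assoc]
            _ = q * b * q - (l2 : ℂ) • q := by rw [hqQ, hQq]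
        rw [e2, e3, ← hab, hs0]
        rw [mul_sub, sub_mul, mul_add, add_mul, mul_smul_comm, smul_mul_assoc, mul_smul_comm,
          mul_one, smul_mul_assoc, hqq]
        module
      rw [e1]
      have n1 : ‖q * (Q * (P * a * P - (l1 : ℂ) • (1 : A)) * Q) * q‖ ≤ 1 / 16 := by
        calc ‖q * (Q * (P * a * P - (l1 : ℂ) • (1 : A)) * Q) * q‖
            ≤ ‖q * (Q * (P * a * P - (l1 : ℂ) • (1 : A)) * Q)‖ * ‖q‖ := norm_mul_le _ _
          _ ≤ ‖q * (Q * (P * a * P - (l1 : ℂ) • (1 : A)) * Q)‖ :=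
              mul_le_of_le_one_right (norm_nonneg _) (pj_norm_le hq)
          _ ≤ ‖q‖ * ‖Q * (P * a * P - (l1 : ℂ) • (1 : A)) * Q‖ := norm_mul_le _ _
          _ ≤ ‖Q * (P * a * P - (l1 : ℂ) • (1 : A)) * Q‖ :=
              mul_le_of_le_one_left (norm_nonneg _) (pj_norm_le hq)
          _ ≤ 1 / 16 := hn1
      refine (norm_add_le _ _).trans ?_
      rw [norm_smul, Complex.norm_I, one_mul]
      linarith
    have hT : ∃ s : ℂ, (s = 0 ∨ s = 1) ∧ 1 / 2 ≤ ‖s0 - s‖ := by
      by_cases h : 1 / 2 ≤ ‖s0‖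
      · exact ⟨0, Or.inl rfl, by rw [sub_zero]; exact h⟩
      · refine ⟨1, Or.inr rfl, ?_⟩
        have : ‖(1 : ℂ)‖ ≤ ‖s0‖ + ‖s0 - 1‖ := by
          calc ‖(1 : ℂ)‖ = ‖s0 - (s0 - 1)‖ := by congr 1; ring
            _ ≤ _ := norm_sub_le _ _
        rw [norm_one] at this
        linarith
    obtain ⟨s, hs, hcs⟩ := hT
    obtain ⟨y, hy1, hy2, hy3, hy4, hy5⟩ := b_inv hq hmain hcs
    have hB : TypeB T g s z3 := by
      refine ⟨hz3, z3 * k1 + k2, y, pj_add hk1' hk2 hk12, hkle, hkf, ?_, ?_, ?_, ?_, hy5⟩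
      · rw [hsub]; exact hy1
      · rw [hsub]; exact hy2
      · rw [hsub]; exact hy3
      · rw [hsub]; exact hy4
    refine ⟨z3, hz3, by rw [← hz31, mul_assoc, hz1z0], hz30, ?_⟩
    rcases hs with rfl | rfl
    · exact Or.inl hB
    · exact Or.inr hB

end Pool.Agent.H43AW
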