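import Pool.Agent.H43AW.MaxA
import Pool.Agent.H43AW.B3
import Pool.Agent.R456.CL.CaseB

/-!
# Final assembly
-/

set_option autoImplicit false

namespace Pool.Agent.H43AW

open Pool.Agent.R456.CL

universe u

section

variable {A : Type u} [CStarAlgebra A]

lemma clean_add {a b S R : A} (ha : PJ a) (hb : PJ b) (hab : a * b = 0) (h1 : CleanIn a S)
    (h2 : CleanIn b R) : CleanIn (a + b) (S + R) := by
  have hba := orth_comm ha hb hab
  have haa := PJ.mul_self ha
  have hbb := PJ.mul_self hb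
  obtain ⟨P, p1, p2, p3, p4⟩ := h1
  obtain ⟨Q, q1, q2, q3, q4⟩ := h2
  have c1 : P * Q = 0 := by rw [← p2, ← q1, mul_assoc, ← mul_assoc a, hab, zero_mul, mul_zero]
  have c2 : Q * P = 0 := by rw [← q2, ← p1, mul_assoc, ← mul_assoc b, hba, zero_mul, mul_zero]
  have c3 : a * Q = 0 := by rw [← q1, ← mul_assoc, hab, zero_mul]
  have c4 : b * P = 0 := by rw [← p1, ← mul_assoc, hba, zero_mul]
  have c5 : P * b = 0 := by rw [← p2, mul_assoc, hab, mul_zero]
  have c6 : Q * a = 0 := by rw [← q2, mul_assoc, hba, mul_zero]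
  refine ⟨P + Q, ?_, ?_, ?_, ?_⟩
  · rw [add_mul, mul_add, mul_add, p1, q1, c3, c4, add_zero, zero_add]
  · rw [add_mul, mul_add, mul_add, p2, q2, c5, c6, add_zero, zero_add]
  · rw [add_mul, mul_add, mul_add, p3, q3, c1, c2, add_zero, zero_add]
  · have : S + R - (P + Q) = (S - P) + (R - Q) := by abel
    rw [this]
    exact iso_add haa hbb hab hba hab hba p4 q4

/-- suprema of central projections are central. -/
lemma cp_sup {ι : Type*} {z : ι → A} {Z : A} (hz : ∀ i, CP (z i)) (hZ : IsSup z Z) : CP Z :=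
  ⟨hZ.1, fun x => sup_comm (fun i => (hz i).1) hZ (fun i => (hz i).2 x)⟩

/-- gluing of type (B) pieces: the corner is clean. -/
lemma clean_typeB (hsup : PSupO A) (hgl : PGlue A) (hfin : PFin A) {ι : Type u} {z : ι → A}
    {Z g T s : A} {σ : ℂ} (hσ : (σ = 0 ∧ s = 0) ∨ (σ = 1 ∧ s = 1)) (hg : PJ g)
    (hgT : g * T = T) (hTg : T * g = T)
    (ho : ∀ i j, i ≠ j → z i * z j = 0) (hZ : IsSup z Z) (hB : ∀ i, TypeB T g σ (z i)) :
    CleanIn (Z * g) (Z * T) := by
  have hz : ∀ i, CP (z i) := fun i => (hB i).1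
  have hzP : ∀ i, PJ (z i) := fun i => (hz i).1
  have hZc : CP Z := cp_sup hz hZ
  choose k y hk hkg hkf h1 h2 h3 h4 h5 using fun i => (hB i).2
  have hgg := PJ.mul_self hg
  have hzg : ∀ i, PJ (z i * g) := fun i => pj_cmul (hz i) hg
  have hkz : ∀ i, Le (k i) (z i) := by
    intro i
    show k i * z i = k i
    rw [← show k i * (z i * g) = k i from hkg i, mul_assoc, mul_assoc, ← (hz i).comm g,
      ← mul_assoc (z i) (z i), (hz i).idem]
  obtain ⟨K, hK⟩ := hsup ι k hk (by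
    intro i j hij
    rw [← Le.rev (hk j) (hzP j) (hkz j), ← show k i * z i = k i from hkz i, mul_assoc,
      ← mul_assoc (z i), ho i j hij, zero_mul, mul_zero])
  obtain ⟨hK1, hK2, hK3, hK4⟩ := sup_below hzP ho hZ hk hkz hK
  have gK : Glu z k K := ⟨hK1, hK2⟩
  -- glue the inverses
  obtain ⟨q, hq⟩ : ∃ q : ι → A, q = fun i => z i * g - k i := ⟨_, rfl⟩
  have hqi : ∀ i, z i * g - k i = q i := fun i => by rw [hq]
  simp only [hqi] at h1 h2 h3 h4
  have hqP : ∀ i, PJ (q i) := fun i => by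
    rw [← hqi]; exact pj_sub (hk i) (hzg i) (hkg i)
  have hzq : ∀ i, z i * q i = q i := by
    intro i
    rw [← hqi, mul_sub, ← mul_assoc, (hz i).idem, Le.rev (hk i) (hzP i) (hkz i)]
  have hqz : ∀ i, q i * z i = q i := fun i => by rw [← (hz i).comm, hzq]
  obtain ⟨Y, hY1, hY2, hY3, hY4⟩ := hgl ι z y Z 4 hzP ho hZ
    (fun i => by rw [← h1, ← mul_assoc, hzq]) (fun i => by rw [← h2, mul_assoc, hqz]) h5
  have gY : Glu z y Y := ⟨hY3, hY4⟩
  obtain ⟨Q, hQ⟩ : ∃ Q, Q = Z * g - K := ⟨_, rfl⟩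
  have gZ : Glu z z Z := Glu.sup hzP hZ
  have gg : Glu z (fun i => z i * g) g := ⟨fun i => rfl, fun i => ((hz i).comm g).symm⟩
  have gQ : Glu z q Q := by
    rw [hQ]
    refine ((gZ.mul hzP gg).sub gK).congr (fun i => ?_)
    show z i * (z i * g) - k i = q i
    rw [← mul_assoc, (hz i).idem, hqi]
  have gT : Glu z (fun i => z i * T) T := ⟨fun i => rfl, fun i => ((hz i).comm T).symm⟩
  have hZg : PJ (Z * g) := pj_cmul hZc hg
  have hKle : Le K (Z * g) := by
    show K * (Z * g) = K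
    refine Glu.eq hzP hZ ((gK.mul hzP (gZ.mul hzP gg)).congr (fun i => ?_)) gK
      (by rw [← mul_assoc, hK3]) hK3
    show k i * (z i * (z i * g)) = k i
    rw [← mul_assoc (z i), (hz i).idem, hkg i]
  have hQP : PJ Q := by rw [hQ]; exact pj_sub hK.1 hZg hKle
  have hZQ : Z * Q = Q := by rw [hQ, mul_sub, ← mul_assoc, hZc.idem, hK3]
  have hQZ : Q * Z = Q := by rw [← hZc.comm, hZQ]
  -- finiteness of `K`
  have hKf : ¬ Infin K := by
    rintro ⟨v, hv1, hv2, hv3⟩
    apply hv3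
    have gv : ∀ i, z i * (v * star v) = k i := by
      intro i
      by_contra hne
      apply hkf i
      refine ⟨z i * v, ?_, ?_, ?_⟩
      · rw [star_cmul (hz i), (hz i).two, hv1, hK1]
      · rw [star_cmul (hz i), (hz i).two]
        calc z i * (v * star v) * k i = z i * (v * star v) * (z i * K) := by rw [hK1]
          _ = z i * (v * star v) := by rw [(hz i).two, hv2]
      · rw [star_cmul (hz i), (hz i).two]
        exact hne
    have h6 : Z * (v * star v - K) = 0 := IsSup.left hzP hZ (fun i => by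
      rw [mul_sub, gv, hK1, sub_self])
    have h7 : Z * (v * star v) = v * star v := by
      rw [← hv2, hZc.mid (v * star v) K |>.symm, hK3]
    rw [mul_sub, h7, hK3, sub_eq_zero] at h6
    exact h6
  -- the corner identities
  have gTσ : Glu z (fun i => z i * (T - σ • (1 : A))) (T - σ • (1 : A)) :=
    ⟨fun i => rfl, fun i => ((hz i).comm _).symm⟩
  have hcor : ∀ i, q i * (z i * (T - σ • (1 : A))) * q i = q i * (T - σ • (1 : A)) * q i := by
    intro i
    rw [← mul_assoc, hqz]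
  have gC : Glu z (fun i => q i * (T - σ • (1 : A)) * q i) (Q * (T - σ • (1 : A)) * Q) :=
    ((gQ.mul hzP gTσ).mul hzP gQ).congr hcor
  have e1 : Y * (Q * (T - σ • (1 : A)) * Q) = Q :=
    Glu.eq hzP hZ ((gY.mul hzP gC).congr h3) gQ (by rw [← mul_assoc, hY1]) hZQ
  have e2 : (Q * (T - σ • (1 : A)) * Q) * Y = Q :=
    Glu.eq hzP hZ ((gC.mul hzP gY).congr h4) gQ (by
      simp only [← mul_assoc]; rw [hZQ]) hZQ
  have e3 : Q * Y = Y := Glu.eq hzP hZ ((gQ.mul hzP gY).congr h1) gY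
    (by rw [← mul_assoc, hZQ]) hY1
  have e4 : Y * Q = Y := Glu.eq hzP hZ ((gY.mul hzP gQ).congr h2) gY
    (by rw [← mul_assoc, hY1]) hY1
  have hQQ := PJ.mul_self hQP
  have e5 : Q * (Z * T) * Q - s * Q = Q * (T - σ • (1 : A)) * Q := by
    rw [← mul_assoc Q, hQZ, mul_sub, sub_mul, mul_smul_comm, mul_one, smul_mul_assoc, hQQ]
    rcases hσ with ⟨h6, h7⟩ | ⟨h6, h7⟩
    · rw [h6, h7, zero_mul, zero_smul]
    · rw [h6, h7, one_mul, one_smul]
  have hsQ : Q * (s * Q) = s * Q ∧ (s * Q) * Q = s * Q ∧ (s * Q) * (s * Q) = s * Q := by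
    rcases hσ with ⟨h6, h7⟩ | ⟨h6, h7⟩
    · rw [h7]; simp
    · rw [h7]; simp [hQQ]
  refine clean_blocks (p := s * Q) (c := Y) hZg hK.1 hKle ?_ ?_ ?_ ?_ hsQ.2.2 ?_ ?_ ?_ ?_
    (fun T' h6 h7 => hfin K T' hK.1 hKf h6 h7)
  · rw [hZc.two, hgT]
  · rw [hZc.two, hTg]
  · rw [← hQ]; exact hsQ.1
  · rw [← hQ]; exact hsQ.2.1
  · rw [← hQ]; exact e3
  · rw [← hQ]; exact e4
  · rw [← hQ, e5]; exact e1
  · rw [← hQ, e5]; exact e2

/-- everything is clean, from the modules. -/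
theorem asm (hcut : PCut A) (hsup : PSupO A) (hgl : PGlue A) (hsb : PSB A) (hfin : PFin A)
    (hmax : PMaxA A) (hPB : PB A) (T : A) : CleanIn 1 T := by
  classical
  obtain ⟨p, K', hpA, hpmax⟩ := hmax 160 T (by norm_num)
  have hp : PJ p := hpA.1
  have hpT : p * T = T * p := hpA.2.1
  have hcl1 : CleanIn p (p * T) := cleanA_ok A hcut hsb K' T p hpA
  obtain ⟨g, hgd⟩ : ∃ g, g = 1 - p := ⟨_, rfl⟩
  have hg : PJ g := by rw [hgd]; exact pj_sub hp pj_one (mul_one p)
  have hgg := PJ.mul_self hg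
  have hgTc : g * T = T * g := by rw [hgd, sub_mul, mul_sub, one_mul, mul_one, hpT]
  obtain ⟨S, hS⟩ : ∃ S, S = g * T := ⟨_, rfl⟩
  have hgS : g * S = S := by rw [hS, ← mul_assoc, hgg]
  have hSg : S * g = S := by rw [hS, mul_assoc, ← hgTc, ← mul_assoc, hgg]
  have hpg : p * g = 0 := by rw [hgd, mul_sub, mul_one, PJ.mul_self hp, sub_self]
  have hno : ∀ q : A, Le q g → TypeA 160 S q → q = 0 := by
    intro q hqg hA
    obtain ⟨hq, hqS, e, f, y, he, hf, heq, hfq, hef, hqe, hqf, h1, h2, h3, h4, h5⟩ := hA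
    have hqg' : q * g = q := hqg
    have hgq : g * q = q := Le.rev hq hg hqg
    have hqT : q * T = T * q := by
      calc q * T = q * S := by rw [hS, ← mul_assoc, hqg']
        _ = S * q := hqS
        _ = T * q := by rw [hS, hgTc, mul_assoc, hgq]
    have hfg : f * g = f := by
      rw [← show f * q = f from hfq, mul_assoc, hqg']
    have hfS : f * S * e = f * T * e := by rw [hS, ← mul_assoc, hfg]
    rw [hfS] at h3 h4
    refine hpmax q ⟨hq, hqT, e, f, y, he, hf, heq, hfq, hef, hqe, hqf, h1, h2, h3, h4, h5⟩ ?_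
    have : g * p = 0 := orth_comm hp hg hpg
    rw [← hqg', mul_assoc, this, mul_zero]
  have hB := hPB g S hg hgS hSg hno
  -- maximal family of central projections of type (B)
  obtain ⟨F, hFmax⟩ := zorn_subset {F : Set A | (∀ z ∈ F, TypeB S g 0 z ∨ TypeB S g 1 z) ∧
      ∀ z ∈ F, ∀ w ∈ F, z ≠ w → z * w = 0} (by
    intro c hc hchain
    refine ⟨⋃₀ c, ⟨?_, ?_⟩, fun t ht => Set.subset_sUnion_of_mem ht⟩
    · rintro q ⟨t, ht, hq⟩
      exact (hc ht).1 q hq
    · rintro q ⟨t, ht, hq⟩ q' ⟨t', ht', hq'⟩ hne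
      rcases hchain.total ht ht' with h | h
      · exact (hc ht').2 q (h hq) q' hq' hne
      · exact (hc ht).2 q hq q' (h hq') hne)
  obtain ⟨hF1, hF2⟩ := hFmax.prop
  have hFc : ∀ z ∈ F, CP z := fun z hz => by
    rcases hF1 z hz with h | h
    · exact h.1
    · exact h.1
  let F0 : Set A := {z | z ∈ F ∧ TypeB S g 0 z}
  let F1 : Set A := {z | z ∈ F ∧ ¬ TypeB S g 0 z}
  have ho0 : ∀ i j : ↥F0, i ≠ j → (i : A) * j = 0 := fun i j hij =>
    hF2 _ i.2.1 _ j.2.1 (fun h => hij (Subtype.ext h))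
  have ho1 : ∀ i j : ↥F1, i ≠ j → (i : A) * j = 0 := fun i j hij =>
    hF2 _ i.2.1 _ j.2.1 (fun h => hij (Subtype.ext h))
  obtain ⟨Z0, hZ0⟩ := hsup ↥F0 (fun i => (i : A)) (fun i => (hFc _ i.2.1).1) ho0
  obtain ⟨Z1, hZ1⟩ := hsup ↥F1 (fun i => (i : A)) (fun i => (hFc _ i.2.1).1) ho1
  have hZ0c : CP Z0 := cp_sup (fun i : ↥F0 => hFc _ i.2.1) hZ0
  have hZ1c : CP Z1 := cp_sup (fun i : ↥F1 => hFc _ i.2.1) hZ1
  have hZ01 : Z0 * Z1 = 0 := by
    refine hZ1.2.2 _ (fun j => ?_)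
    refine IsSup.left (fun i : ↥F0 => (hFc _ i.2.1).1) hZ0 (fun i => ?_)
    refine hF2 _ i.2.1 _ j.2.1 (fun h => ?_)
    exact j.2.2 (by
      have h' : (i : A) = (j : A) := h
      rw [← h']; exact i.2.2)
  have hsum : Z0 + Z1 = 1 := by
    obtain ⟨z0, hz0⟩ : ∃ z0, z0 = (1 - Z0) * (1 - Z1) := ⟨_, rfl⟩
    have hz0c : CP z0 := by rw [hz0]; exact hZ0c.compl.mul hZ1c.compl
    have hexp : z0 = 1 - (Z0 + Z1) := by
      rw [hz0, sub_mul, mul_sub, mul_sub, hZ01]; simp only [one_mul, mul_one]; abel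
    by_contra hne
    have hz00 : z0 ≠ 0 := by
      intro h
      rw [hexp, sub_eq_zero] at h
      exact hne h.symm
    obtain ⟨z, hz, hzz0, hz1, hzB⟩ := hB z0 hz0c hz00
    have hzF : ∀ w ∈ F, z * w = 0 := by
      intro w hw
      have hw0 : z0 * w = 0 := by
        by_cases h : TypeB S g 0 w
        · have h1 : (w : A) * Z0 = w := hZ0.2.1 ⟨w, hw, h⟩
          have h2 : Z0 * w = w := Le.rev (hFc w hw).1 hZ0c.1 h1
          have h3 : (1 - Z0) * w = 0 := by rw [sub_mul, one_mul, h2, sub_self]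
          rw [hz0, hZ0c.compl.comm, mul_assoc, h3, mul_zero]
        · have h1 : (w : A) * Z1 = w := hZ1.2.1 ⟨w, hw, h⟩
          have h2 : Z1 * w = w := Le.rev (hFc w hw).1 hZ1c.1 h1
          have h3 : (1 - Z1) * w = 0 := by rw [sub_mul, one_mul, h2, sub_self]
          rw [hz0, mul_assoc, h3, mul_zero]
      rw [← hzz0, mul_assoc, hw0, mul_zero]
    have hins : insert z F ∈ {F : Set A | (∀ z ∈ F, TypeB S g 0 z ∨ TypeB S g 1 z) ∧
        ∀ z ∈ F, ∀ w ∈ F, z ≠ w → z * w = 0} := by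
      refine ⟨?_, ?_⟩
      · rintro r (rfl | hr)
        · exact hzB
        · exact hF1 r hr
      · rintro r (rfl | hr) r' (rfl | hr') hne
        · exact absurd rfl hne
        · exact hzF r' hr'
        · rw [← hz.comm]; exact hzF r hr
        · exact hF2 r hr r' hr' hne
    have hzF' : z ∈ F := hFmax.le_of_ge hins (Set.subset_insert _ _) (Set.mem_insert _ _)
    have := hzF z hzF'
    rw [hz.idem] at this
    exact hz1 this
  have hclB0 : CleanIn (Z0 * g) (Z0 * S) :=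
    clean_typeB (s := 0) (σ := 0) hsup hgl hfin (Or.inl ⟨rfl, rfl⟩) hg hgS hSg ho0 hZ0
      (fun i => i.2.2)
  have hclB1 : CleanIn (Z1 * g) (Z1 * S) :=
    clean_typeB (s := 1) (σ := 1) hsup hgl hfin (Or.inr ⟨rfl, rfl⟩) hg hgS hSg ho1 hZ1
      (fun i => by
        rcases hF1 _ i.2.1 with h | h
        · exact absurd h i.2.2
        · exact h)
  have hclg : CleanIn g S := by
    have h1 := clean_add (pj_cmul hZ0c hg) (pj_cmul hZ1c hg)
      (by rw [mul_assoc, hZ1c.mid, ← mul_assoc, hZ01, zero_mul]) hclB0 hclB1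
    rw [← add_mul, ← add_mul, hsum, one_mul, one_mul] at h1
    exact h1
  have h1 := clean_add hp hg hpg hcl1 hclg
  have h2 : p + g = 1 := by rw [hgd]; abel
  have h3 : p * T + S = T := by rw [hS, ← add_mul, h2, one_mul]
  rw [h2, h3] at h1
  exact h1

end

/-- Every AW*-algebra is clean, from the four remaining modules. -/
theorem all_clean (hhalf : St_Half.{u}) (hfs : St_FinSum.{u}) (haddR : St_AddR.{u})
    (hlrR : St_LRR.{u}) (hhull : St_Hull.{u}) (A : Type u) [CStarAlgebra A] (hAW : IsAWStar A)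
    (hsa : PSa A) (hsupO : PSupO A) (hsup : PSup A) (haddO : PAddO A) (hsb : PSB A)
    (T : A) : CleanIn 1 T := by
  have hcq : PCutQ A := cutQ_ok A hsa
  have hcut : PCut A := hcq.cut
  have hgl : PGlue A := glue_ok A hsa hcq hsupO
  have hgc : PGC A := gc_ok hcut hsup hsupO haddO
  have hH : PHalf A := hhalf A hcut hsup hsupO haddO hgc
  have hF : PFinSum A := hfs A hcq hgc hH
  have hR : PAddR A := haddR A haddO
  have hL : PLRR A := hlrR A hcut hsup hR
  have hHu : PHull A := hhull A hcut hsup hsupO hR hL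
  exact asm hcut hsupO hgl hsb (fin_ok' A hcut hgc) (maxA_ok A hsupO hgl)
    (b_ok A hsa hcq hgc hH hF hHu hsb) T

end Pool.Agent.H43AW
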