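import Pool.Agent.H43AW.CutQ
import Pool.Agent.H43AW.CleanA
import Pool.Agent.R456.CL.Dich

/-!
# The cuts of off-diagonal corners are finite when there is no projection of type (A)
-/

set_option autoImplicit false

namespace Pool.Agent.H43AW

open Pool.Agent.R456.CL

universe u

section

variable {A : Type u} [CStarAlgebra A]

/-- no nonzero projection of type (A) below `g`. -/
def NoA (T g : A) : Prop := ∀ q : A, Le q g → TypeA 160 T q → q = 0

lemma typeA_star {K : ℝ} {T q : A} (h : TypeA K T q) : TypeA K (star T) q := by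
  obtain ⟨hq, hqT, e, f, y, he, hf, hep, hfp, hef, hpe, hpf, h1, h2, h3, h4, h5⟩ := h
  refine ⟨hq, ?_, f, e, star y, hf, he, hfp, hep, orth_comm he hf hef, hpf, hpe, ?_, ?_, ?_, ?_,
    by rw [norm_star]; exact h5⟩
  · have := congrArg star hqT
    rw [star_mul, star_mul, PJ.star hq] at this
    exact this.symm
  · have := congrArg star h2
    rwa [star_mul, PJ.star hf] at this
  · have := congrArg star h1
    rwa [star_mul, PJ.star he] at this
  · have := congrArg star h4
    rw [star_mul, star_mul, star_mul, PJ.star hf, PJ.star he] at this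
    simpa only [mul_assoc] using this
  · have := congrArg star h3
    rw [star_mul, star_mul, star_mul, PJ.star hf, PJ.star he] at this
    simpa only [mul_assoc] using this

lemma noA_star {T g : A} (h : NoA T g) : NoA (star T) g := by
  intro q hq hA
  have := typeA_star hA
  rw [star_star] at this
  exact h q hq this

lemma sub_pj_final {p q : A} (hp : PJ p) (hq : PJ q) (h : Sub p q) :
    ∃ r : A, PJ r ∧ Le r q ∧ Eqv p r := by
  obtain ⟨v, hv1, hv2⟩ := h
  exact ⟨v * star v, pi_final hp hv1, hv2, v, hv1, rfl⟩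

lemma eqv_add {p p' q q' : A} (hp : PJ p) (hp' : PJ p') (hq : PJ q) (hq' : PJ q')
    (hpp : p * p' = 0) (hqq : q * q' = 0) (h : Eqv p q) (h' : Eqv p' q') :
    Eqv (p + p') (q + q') := by
  obtain ⟨v, a1, a2⟩ := h
  obtain ⟨w, b1, b2⟩ := h'
  have hqq' := orth_comm hq hq' hqq
  have hvp : v * p = v := pi_right hp a1
  have hwp : w * p' = w := pi_right hp' b1
  have hqv : q * v = v := pi_left hp a1 a2
  have hqw : q' * w = w := pi_left hp' b1 b2
  have c1 : star v * w = 0 := by
    rw [← star_absorb_left hq hqv, ← hqw, mul_assoc, ← mul_assoc q, hqq, zero_mul, mul_zero]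
  have c2 : star w * v = 0 := by
    have := congrArg star c1
    rwa [star_mul, star_star, star_zero] at this
  have c3 : v * star w = 0 := by
    rw [← hvp, ← star_absorb_right hp' hwp, mul_assoc, ← mul_assoc p, hpp, zero_mul, mul_zero]
  have c4 : w * star v = 0 := by
    have := congrArg star c3
    rwa [star_mul, star_star, star_zero] at this
  refine ⟨v + w, ?_, ?_⟩
  · rw [star_add, add_mul, mul_add, mul_add, a1, b1, c1, c2]; abel
  · rw [star_add, add_mul, mul_add, mul_add, a2, b2, c3, c4]; abel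

/-- if `a` has a halving and `a ~ b`, `a b = 0`, then `a + b` has a halving and `a + b ≲ a`. -/
lemma hv_double {a b : A} (ha : PJ a) (hb : PJ b) (hab : a * b = 0) (h : HV a) (he : Eqv a b) :
    HV (a + b) ∧ Sub (a + b) a := by
  have hh := h
  obtain ⟨a1, a2, h1, h2, h12, hl1, hl2, he1, he2⟩ := hh
  have hba : Eqv b a2 := eqv_trans hb ha (eqv_symm he) he2
  have hE : Eqv (a + b) (a1 + a2) := eqv_add ha hb h1 h2 hab h12 he1 hba
  have hP : PJ (a + b) := pj_add ha hb hab
  have hP' : PJ (a1 + a2) := pj_add h1 h2 h12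
  have hl : Le (a1 + a2) a := by
    show (a1 + a2) * a = a1 + a2
    rw [add_mul, hl1, hl2]
  have hS : Sub (a + b) a := sub_mono (sub_of_eqv hP' hE) hl
  refine ⟨?_, hS⟩
  -- `a + b ≥ a ⊇ ...`, `a + b ≥ b`
  obtain ⟨r, hr, hra, hr1⟩ := sub_pj_final hP ha hS
  have hSb : Sub (a + b) b := sub_trans' hP ha hb hS (sub_of_eqv hb he)
  obtain ⟨s, hs, hsb, hs1⟩ := sub_pj_final hP hb hSb
  refine ⟨r, s, hr, hs, ?_, ?_, ?_, hr1, hs1⟩
  · rw [← show r * a = r from hra, ← Le.rev hs hb hsb, mul_assoc, ← mul_assoc a, hab, zero_mul,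
      mul_zero]
  · show r * (a + b) = r
    have : r * b = 0 := by rw [← show r * a = r from hra, mul_assoc, hab, mul_zero]
    rw [mul_add, show r * a = r from hra, this, add_zero]
  · show s * (a + b) = s
    have : s * a = 0 := by
      rw [← show s * b = s from hsb, mul_assoc, orth_comm ha hb hab, mul_zero]
    rw [mul_add, show s * b = s from hsb, this, zero_add]

lemma cut_fin (hc : PCutQ A) (hhalf : PHalf A) (hhull : PHull A) (hsb : PSB A) {P T e f : A}
    (hP : PJ P) (hPhv : HV P) (hPT : P * T = T * P) (hno : NoA T P) (he : PJ e) (hf : PJ f)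
    (heP : Le e P) (hfP : Le f P) (hef : e * f = 0) :
    ∃ k : A, PJ k ∧ Le k e ∧ ¬ Infin k ∧ ‖f * T * (e - k)‖ ≤ 1 / 80 := by
  have hee := PJ.mul_self he
  have hff := PJ.mul_self hf
  obtain ⟨k, w, c, hk, hke, hw, hwf, hwx, hkc, hcw, hcx, hxc, hn, hcn⟩ :=
    cut_packQ hc (x := f * T * e) he hf (by rw [mul_assoc, hee])
      (by rw [← mul_assoc, ← mul_assoc, hff]) (ε := 1 / 80) (by norm_num)
  have hek : e * k = k := Le.rev hk he hke
  have hkk := PJ.mul_self hk
  refine ⟨k, hk, hke, ?_, ?_⟩
  · intro hinf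
    obtain ⟨z, hz, hzk, hhv⟩ := hhalf k hk hinf
    obtain ⟨h0, hh0⟩ : ∃ h0, h0 = w * star w := ⟨_, rfl⟩
    rw [← hh0] at hwf hwx hcw hxc
    have hhP : PJ h0 := by rw [hh0]; exact pi_final hk hw
    have hfh : f * h0 = h0 := Le.rev hhP hf hwf
    have hhf : h0 * f = h0 := hwf
    have hk' : PJ (z * k) := pj_cmul hz hk
    have hh' : PJ (z * h0) := pj_cmul hz hhP
    have hkh : k * h0 = 0 := by
      rw [← show k * e = k from hke, ← hfh, mul_assoc, ← mul_assoc e, hef, zero_mul, mul_zero]
    have hkh' : z * k * (z * h0) = 0 := by rw [hz.two, hkh, mul_zero]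
    have hEqv : Eqv (z * k) (z * h0) := eqv_cmul hz ⟨w, hw, hh0.symm⟩
    obtain ⟨hq0, hS0⟩ := hv_double hk' hh' hkh' hhv hEqv
    have hPq : PJ (z * k + z * h0) := pj_add hk' hh' hkh'
    have hkP : k * P = k := by rw [← show k * e = k from hke, mul_assoc, show e * P = e from heP]
    have hhP' : h0 * P = h0 := by
      rw [← show h0 * f = h0 from hwf, mul_assoc, show f * P = f from hfP]
    have hq0P : Le (z * k + z * h0) P := by
      show (z * k + z * h0) * P = z * k + z * h0
      rw [add_mul, mul_assoc, mul_assoc, hkP, hhP']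
    obtain ⟨q, hq, hq0q, hqP, hqT, hSq⟩ := hhull P (z * k + z * h0) (P * T) hP hPhv hPq hq0 hq0P
      (by rw [← mul_assoc, PJ.mul_self hP])
      (by rw [hPT, mul_assoc, PJ.mul_self hP])
    have hPq' : P * q = q := Le.rev hq hP hqP
    have hqT' : q * T = T * q := by
      calc q * T = q * P * T := by rw [show q * P = q from hqP]
        _ = q * (P * T) := by rw [mul_assoc]
        _ = P * T * q := hqT
        _ = T * (P * q) := by rw [hPT, mul_assoc]
        _ = T * q := by rw [hPq']
    have hkq : Le (z * k) q := by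
      show z * k * q = z * k
      have h1 : z * k * (z * k + z * h0) = z * k := by
        rw [mul_add, PJ.mul_self hk', hkh', add_zero]
      calc z * k * q = z * k * (z * k + z * h0) * q := by rw [h1]
        _ = z * k * ((z * k + z * h0) * q) := by rw [mul_assoc]
        _ = z * k := by rw [show (z * k + z * h0) * q = z * k + z * h0 from hq0q, h1]
    have hhq : Le (z * h0) q := by
      show z * h0 * q = z * h0
      have h1 : z * h0 * (z * k + z * h0) = z * h0 := by
        rw [mul_add, PJ.mul_self hh', orth_comm hk' hh' hkh', zero_add]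
      calc z * h0 * q = z * h0 * (z * k + z * h0) * q := by rw [h1]
        _ = z * h0 * ((z * k + z * h0) * q) := by rw [mul_assoc]
        _ = z * h0 := by rw [show (z * k + z * h0) * q = z * k + z * h0 from hq0q, h1]
    have hqk : Eqv q (z * k) :=
      hsb q (z * k) hq hk' (sub_trans' hq hPq hk' hSq hS0) (sub_of_le hk' hkq)
    have hqh : Eqv q (z * h0) := eqv_trans hq hk' hqk hEqv
    have hA : TypeA 160 T q := by
      refine ⟨hq, hqT', z * k, z * h0, z * c, hk', hh', hkq, hhq, hkh', hqk, hqh, ?_, ?_, ?_, ?_,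
        ?_⟩
      · rw [hz.two, hkc]
      · rw [hz.two, hcw]
      · have h1 : c * h0 * T * k = k := by
          have h2 : c * (f * T * e * k) = k := hcx
          have h3 : c * f = c := by rw [← hcw, mul_assoc, hhf]
          calc c * h0 * T * k = c * f * T * (e * k) := by rw [hcw, h3, hek]
            _ = c * (f * T * e * k) := by simp only [mul_assoc]
            _ = k := h2
        calc z * c * (z * h0 * T * (z * k)) = z * (c * (h0 * T * (z * k))) := by
              rw [mul_assoc z h0, mul_assoc z (h0 * T), hz.two]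
          _ = z * (z * (c * h0 * T * k)) := by
              rw [hz.mid (h0 * T) k, hz.mid c]; simp only [mul_assoc]
          _ = z * k := by rw [h1, ← mul_assoc, hz.idem]
      · have h1 : h0 * T * k * c = h0 := by
          have h2 : h0 * T * k = f * T * e * k := by
            calc h0 * T * k = h0 * (f * T * e) * k := by
                  simp only [← mul_assoc]
                  rw [hhf, mul_assoc (h0 * T), hek]
              _ = f * T * e * k * k := by rw [hwx]
              _ = _ := by rw [mul_assoc, hkk]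
          rw [h2, hxc]
        calc z * h0 * T * (z * k) * (z * c) = z * (z * (h0 * T * k) * (z * c)) := by
              rw [mul_assoc z h0, hz.two (h0 * T) k]
              simp only [mul_assoc]
              rw [← mul_assoc z z, hz.idem]
          _ = z * h0 := by rw [hz.two, h1, ← mul_assoc, hz.idem]
      · have h1 : ‖z * c‖ ≤ 1 * (2 / (1 / 80)) := (norm_mul_le _ _).trans
          (mul_le_mul (pj_norm_le hz.1) hcn (norm_nonneg _) (by norm_num))
        norm_num at h1
        exact h1
    have hq0' : q = 0 := hno q hqP hA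
    apply hzk
    have : z * k * q = z * k := hkq
    rw [← this, hq0', mul_zero]
  · have : f * T * e * (e - k) = f * T * (e - k) := by
      rw [mul_assoc (f * T), mul_sub e, hee, hek]
    rw [← this]; exact hn

/-- both cuts. -/
lemma cut_both (hc : PCutQ A) (hhalf : PHalf A) (hhull : PHull A) (hsb : PSB A)
    (hfs : PFinSum A) {P T e f : A}
    (hP : PJ P) (hPhv : HV P) (hPT : P * T = T * P) (hno : NoA T P) (he : PJ e) (hf : PJ f)
    (heP : Le e P) (hfP : Le f P) (hef : e * f = 0) :
    ∃ k : A, PJ k ∧ Le k e ∧ ¬ Infin k ∧ ‖f * T * (e - k)‖ ≤ 1 / 80 ∧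
      ‖f * star T * (e - k)‖ ≤ 1 / 80 := by
  obtain ⟨k1, hk1, hk1e, hk1f, hn1⟩ := cut_fin hc hhalf hhull hsb hP hPhv hPT hno he hf heP hfP hef
  have hee := PJ.mul_self he
  have he' : PJ (e - k1) := pj_sub hk1 he hk1e
  have hek1 : e * k1 = k1 := Le.rev hk1 he hk1e
  have he'e : Le (e - k1) e := by
    show (e - k1) * e = e - k1
    rw [sub_mul, hee, hk1e]
  have he'P : Le (e - k1) P := by
    show (e - k1) * P = e - k1
    have : k1 * P = k1 := by rw [← show k1 * e = k1 from hk1e, mul_assoc, show e * P = e from heP]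
    rw [sub_mul, show e * P = e from heP, this]
  have he'f : (e - k1) * f = 0 := by
    rw [← show (e - k1) * e = e - k1 from he'e, mul_assoc, hef, mul_zero]
  have hPT' : P * star T = star T * P := by
    have := congrArg star hPT
    rw [star_mul, star_mul, PJ.star hP] at this
    exact this.symm
  obtain ⟨k2, hk2, hk2e, hk2f, hn2⟩ :=
    cut_fin hc hhalf hhull hsb hP hPhv hPT' (noA_star hno) he' hf he'P hfP he'f
  have hk12 : k1 * k2 = 0 := by
    have h1 : (e - k1) * k2 = k2 := Le.rev hk2 he' hk2e
    have h2 : k1 * (e - k1) = 0 := by rw [mul_sub, show k1 * e = k1 from hk1e,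
      PJ.mul_self hk1, sub_self]
    rw [← h1, ← mul_assoc, h2, zero_mul]
  have hk2e' : k2 * e = k2 := by
    rw [← show k2 * (e - k1) = k2 from hk2e, mul_assoc, show (e - k1) * e = e - k1 from he'e]
  have hsub : e - (k1 + k2) = e - k1 - k2 := by abel
  refine ⟨k1 + k2, pj_add hk1 hk2 hk12, ?_, hfs k1 k2 hk1 hk2 hk12 hk1f hk2f, ?_, ?_⟩
  · show (k1 + k2) * e = k1 + k2
    rw [add_mul, show k1 * e = k1 from hk1e, hk2e']
  · have hP2 : PJ (e - k1 - k2) := pj_sub hk2 he' hk2e
    have h1 : (e - k1) * (e - k1 - k2) = e - k1 - k2 := by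
      rw [mul_sub (e - k1) (e - k1) k2, PJ.mul_self he', Le.rev hk2 he' hk2e]
    rw [hsub, ← h1, ← mul_assoc]
    calc ‖f * T * (e - k1) * (e - k1 - k2)‖ ≤ ‖f * T * (e - k1)‖ * ‖e - k1 - k2‖ :=
          norm_mul_le _ _
      _ ≤ ‖f * T * (e - k1)‖ := mul_le_of_le_one_right (norm_nonneg _) (pj_norm_le hP2)
      _ ≤ 1 / 80 := hn1
  · rw [hsub]; exact hn2

end

end Pool.Agent.H43AW
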