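import Pool.Agent.H43AW.B1
import Pool.Agent.H43AW.Fin
import Pool.Agent.R456.CL.Main3

/-!
# Near-scalar parts of self-adjoint elements
-/

set_option autoImplicit false

namespace Pool.Agent.H43AW

open Pool.Agent.R456.CL

universe u

section

variable {A : Type u} [CStarAlgebra A]

lemma pj_norm_one {p : A} (hp : PJ p) (h0 : p ≠ 0) : ‖p‖ = 1 := by
  have h := CStarRing.norm_star_mul_self (x := p)
  rw [PJ.star hp, PJ.mul_self hp] at h
  have h1 : ‖p‖ ≠ 0 := norm_ne_zero_iff.2 h0
  have h2 : ‖p‖ * (‖p‖ - 1) = 0 := by linarith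
  rcases mul_eq_zero.1 h2 with h3 | h3
  · exact absurd h3 h1
  · linarith

/-- the off-diagonal corners of `a` are small off finite projections. -/
def OffFin (a g : A) : Prop := ∀ e f : A, PJ e → PJ f → Le e g → Le f g → e * f = 0 →
  ∃ k : A, PJ k ∧ Le k e ∧ ¬ Infin k ∧ ‖f * a * (e - k)‖ ≤ 1 / 80

/-- the rotation argument. -/
lemma rot_bound {g a a0 p q : A} {l m : ℝ} (hoff : OffFin a g) (hp : PJ p) (hq : PJ q)
    (hpg : Le p g) (hqg : Le q g) (hg : PJ g) (hpq : p * q = 0) (hS : Sub q p) (hinf : Infin q)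
    (hap : a0 * p = (l : ℂ) • p) (haq : a0 * q = (m : ℂ) • q)
    (hn : ‖a - a0‖ ≤ 1 / 80) : |l - m| ≤ 1 / 20 := by
  obtain ⟨v, hv1, hv2⟩ := hS
  have hqp : q * p = 0 := orth_comm hp hq hpq
  have hpv : p * v = v := pi_le hq hp hv1 hv2
  have hvq : v * q = v := pi_right hq hv1
  have hqv : q * v = 0 := by rw [← hpv, ← mul_assoc, hqp, zero_mul]
  have hsvq : star v * q = 0 := by
    have := congrArg star hqv
    rwa [star_mul, PJ.star hq, star_zero] at this
  have hqsv : q * star v = star v := star_absorb_right hq hvq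
  have hqq := PJ.mul_self hq
  have hav : a0 * v = (l : ℂ) • v := by rw [← hpv, ← mul_assoc, hap, smul_mul_assoc]
  obtain ⟨w, hw⟩ : ∃ w, w = v + q := ⟨_, rfl⟩
  obtain ⟨w', hw'⟩ : ∃ w', w' = v - q := ⟨_, rfl⟩
  have hsw : star w = star v + q := by rw [hw, star_add, PJ.star hq]
  have hsw' : star w' = star v - q := by rw [hw', star_sub, PJ.star hq]
  have ww : star w * w = (2 : ℂ) • q := by
    rw [hsw, hw, add_mul, mul_add, mul_add, hv1, hsvq, hqv, hqq, two_smul]; abel
  have ww' : star w' * w' = (2 : ℂ) • q := by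
    rw [hsw', hw', sub_mul, mul_sub, mul_sub, hv1, hsvq, hqv, hqq, two_smul]; abel
  have w'w : star w' * w = 0 := by
    rw [hsw', hw, sub_mul, mul_add, mul_add, hv1, hsvq, hqv, hqq]; abel
  have hwq : w * q = w := by rw [hw, add_mul, hvq, hqq]
  have hw'q : w' * q = w' := by rw [hw', sub_mul, hvq, hqq]
  have hqsw : q * star w = star w := star_absorb_right hq hwq
  have hqsw' : q * star w' = star w' := star_absorb_right hq hw'q
  have haw : a0 * w = (l : ℂ) • v + (m : ℂ) • q := by rw [hw, mul_add, hav, haq]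
  have w'aw : star w' * (a0 * w) = ((l : ℂ) - m) • q := by
    rw [haw, hsw', sub_mul, mul_add, mul_add, mul_smul_comm, mul_smul_comm, mul_smul_comm,
      mul_smul_comm, hv1, hsvq, hqv, hqq, smul_zero, smul_zero]
    module
  obtain ⟨e, he⟩ : ∃ e : A, e = (1 / 2 : ℂ) • (w * star w) := ⟨_, rfl⟩
  obtain ⟨f, hf⟩ : ∃ f : A, f = (1 / 2 : ℂ) • (w' * star w') := ⟨_, rfl⟩
  have hsc : star (1 / 2 : ℂ) = 1 / 2 := by simp
  have key : ∀ u : A, star u * u = (2 : ℂ) • q → u * q = u →
      PJ ((1 / 2 : ℂ) • (u * star u)) := by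
    intro u hu huq
    refine pj_mk ?_ ?_
    · rw [smul_mul_smul_comm]
      have : u * star u * (u * star u) = (2 : ℂ) • (u * star u) := by
        calc u * star u * (u * star u) = u * (star u * u) * star u := by simp only [mul_assoc]
          _ = _ := by rw [hu, mul_smul_comm, smul_mul_assoc, huq]
      rw [this, smul_smul]
      norm_num
    · rw [star_smul, star_mul, star_star, hsc]
  have hePJ : PJ e := by rw [he]; exact key w ww hwq
  have hfPJ : PJ f := by rw [hf]; exact key w' ww' hw'q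
  have hgv : g * v = v := by rw [← hpv, ← mul_assoc, Le.rev hp hg hpg]
  have hgq : g * q = q := Le.rev hq hg hqg
  have hgw : g * w = w := by rw [hw, mul_add, hgv, hgq]
  have hgw' : g * w' = w' := by rw [hw', mul_sub, hgv, hgq]
  have heg : Le e g := by
    show e * g = e
    rw [he, smul_mul_assoc, mul_assoc, star_absorb_left hg hgw]
  have hfg : Le f g := by
    show f * g = f
    rw [hf, smul_mul_assoc, mul_assoc, star_absorb_left hg hgw']
  have hef : e * f = 0 := by
    have h1 : star w * w' = 0 := by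
      have := congrArg star w'w
      rwa [star_mul, star_star, star_zero] at this
    rw [he, hf, smul_mul_smul_comm]
    have : w * star w * (w' * star w') = w * (star w * w') * star w' := by simp only [mul_assoc]
    rw [this, h1]; simp
  obtain ⟨k, hk, hke, hkf, hkn⟩ := hoff e f hePJ hfPJ heg hfg hef
  have hek : PJ (e - k) := pj_sub hk hePJ hke
  have heek : e * (e - k) = e - k := by rw [mul_sub, PJ.mul_self hePJ, Le.rev hk hePJ hke]
  have heke : (e - k) * e = e - k := by rw [sub_mul, PJ.mul_self hePJ, hke]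
  -- `e` is infinite
  have hEq : Eqv q e := by
    have hsq : ((√2)⁻¹ : ℝ) * (√2)⁻¹ = 1 / 2 := by
      rw [← mul_inv, Real.mul_self_sqrt (by norm_num)]; norm_num
    have hsq' : (((√2)⁻¹ : ℝ) : ℂ) * (((√2)⁻¹ : ℝ) : ℂ) = 1 / 2 := by
      rw [← Complex.ofReal_mul, hsq]; norm_num
    have hst : star (((√2)⁻¹ : ℝ) : ℂ) = (((√2)⁻¹ : ℝ) : ℂ) := by
      exact Complex.conj_ofReal _
    have hst' : star ((((√2)⁻¹ : ℝ) : ℂ) • w) = (((√2)⁻¹ : ℝ) : ℂ) • star w := by
      rw [star_smul, hst]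
    refine ⟨(((√2)⁻¹ : ℝ) : ℂ) • w, ?_, ?_⟩
    · rw [hst', smul_mul_smul_comm, hsq', ww, smul_smul]; norm_num
    · rw [hst', smul_mul_smul_comm, hsq', ← he]
  have heinf : Infin e := infin_eqv hq hePJ hEq hinf
  have hek0 : e - k ≠ 0 := by
    intro h
    rw [sub_eq_zero] at h
    rw [h] at heinf
    exact hkf heinf
  have hn1 : ‖e - k‖ = 1 := pj_norm_one hek hek0
  -- the key norm
  obtain ⟨y, hy⟩ : ∃ y, y = w' * (star w * (e - k)) := ⟨_, rfl⟩
  have hyy : star y * y = (4 : ℂ) • (e - k) := by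
    have h1 : star y = (e - k) * w * star w' := by
      rw [hy, star_mul, star_mul, star_star, PJ.star hek]
    rw [h1, hy]
    calc (e - k) * w * star w' * (w' * (star w * (e - k)))
        = (e - k) * w * (star w' * w') * (star w * (e - k)) := by simp only [mul_assoc]
      _ = (2 : ℂ) • ((e - k) * (w * star w) * (e - k)) := by
          rw [ww', mul_smul_comm, smul_mul_assoc, mul_assoc (e - k) w q, hwq]
          simp only [mul_assoc]
      _ = (2 : ℂ) • ((e - k) * ((2 : ℂ) • e) * (e - k)) := by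
          rw [he, smul_smul]; norm_num
      _ = (4 : ℂ) • (e - k) := by
          rw [mul_smul_comm, smul_mul_assoc, heke, PJ.mul_self hek, smul_smul]; norm_num
  have hyn : ‖y‖ = 2 := by
    have h1 := CStarRing.norm_star_mul_self (x := y)
    rw [hyy, norm_smul, hn1] at h1
    have h2 : ‖(4 : ℂ)‖ = 4 := by norm_num
    rw [h2] at h1
    have h3 : (‖y‖ - 2) * (‖y‖ + 2) = 0 := by linarith
    rcases mul_eq_zero.1 h3 with h4 | h4
    · linarith
    · linarith [norm_nonneg y]
  have hfa0 : f * a0 * (e - k) = (((l - m) / 4 : ℝ) : ℂ) • y := by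
    calc f * a0 * (e - k) = f * a0 * (e * (e - k)) := by rw [heek]
      _ = (1 / 2 : ℂ) • (1 / 2 : ℂ) • (w' * (star w' * (a0 * w)) * (star w * (e - k))) := by
          rw [hf, smul_mul_assoc, smul_mul_assoc]
          congr 1
          nth_rewrite 1 [he]
          rw [smul_mul_assoc, mul_smul_comm]
          congr 1
          simp only [mul_assoc]
      _ = (((l - m) / 4 : ℝ) : ℂ) • y := by
          rw [w'aw, mul_smul_comm, smul_mul_assoc, hw'q, ← hy, smul_smul, smul_smul]
          congr 1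
          push_cast
          ring
  have hfin : ‖f * a0 * (e - k)‖ ≤ 1 / 40 := by
    have h1 : f * a0 * (e - k) = f * a * (e - k) - f * (a - a0) * (e - k) := by noncomm_ring
    have h2 : ‖f * (a - a0) * (e - k)‖ ≤ 1 / 80 := by
      calc ‖f * (a - a0) * (e - k)‖ ≤ ‖f * (a - a0)‖ * ‖e - k‖ := norm_mul_le _ _
        _ = ‖f * (a - a0)‖ := by rw [hn1, mul_one]
        _ ≤ ‖f‖ * ‖a - a0‖ := norm_mul_le _ _
        _ ≤ ‖a - a0‖ := mul_le_of_le_one_left (norm_nonneg _) (pj_norm_le hfPJ)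
        _ ≤ 1 / 80 := hn
    rw [h1]
    refine (norm_sub_le _ _).trans ?_
    linarith
  rw [hfa0, norm_smul, hyn, Complex.norm_real, Real.norm_eq_abs, abs_div] at hfin
  have : |(4 : ℝ)| = 4 := by norm_num
  rw [this] at hfin
  linarith

/-- deciding finitely many dense hereditary properties of central projections. -/
lemma shrink {ι : Type*} (t : Finset ι) (Q : ι → A → Prop)
    (her : ∀ i z z', CP z → CP z' → z' * z = z' → Q i z → Q i z')
    (dense : ∀ i z, CP z → z ≠ 0 → ∃ z', CP z' ∧ z' * z = z' ∧ z' ≠ 0 ∧ Q i z') :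
    ∀ z, CP z → z ≠ 0 → ∃ z', CP z' ∧ z' * z = z' ∧ z' ≠ 0 ∧ ∀ i ∈ t, Q i z' := by
  classical
  induction t using Finset.induction_on with
  | empty => exact fun z hz h0 => ⟨z, hz, hz.idem, h0, by simp⟩
  | insert i t _ ih =>
    intro z hz h0
    obtain ⟨z1, h1, h2, h3, h4⟩ := ih z hz h0
    obtain ⟨z2, k1, k2, k3, k4⟩ := dense i z1 h1 h3
    refine ⟨z2, k1, ?_, k3, ?_⟩
    · rw [← k2, mul_assoc, h2]
    · intro j hj
      rcases Finset.mem_insert.1 hj with rfl | hj
      · exact k4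
      · exact her j z1 z2 h1 k1 k2 (h4 j hj)

lemma finsum_fin (hfs : PFinSum A) {ι : Type*} (t : Finset ι) (p : ι → A) (hp : ∀ i, PJ (p i))
    (ho : ∀ i j, i ≠ j → p i * p j = 0) (hf : ∀ i ∈ t, ¬ Infin (p i)) :
    ¬ Infin (∑ i ∈ t, p i) := by
  classical
  induction t using Finset.induction_on with
  | empty =>
    rw [Finset.sum_empty]
    intro h
    exact Main3.infin_ne h rfl
  | insert i t hi ih =>
    rw [Finset.sum_insert hi]
    refine hfs _ _ (hp i) (Main3.sum_pj t p hp ho) ?_ (hf i (Finset.mem_insert_self i t))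
      (ih (fun j hj => hf j (Finset.mem_insert_of_mem hj)))
    rw [Finset.mul_sum]
    exact Finset.sum_eq_zero (fun j hj => ho i j (fun h => hi (h ▸ hj)))

/-- self-adjoint elements with small off-diagonal corners are locally near-scalar off a finite
projection. -/
lemma near_scalar (hsa : PSa A) (hgc : PGC A) (hfs : PFinSum A) {g a : A} (hg : PJ g)
    (ha : star a = a) (hag : a * g = a) (hoff : OffFin a g) (z : A) (hz : CP z) (h0 : z ≠ 0) :
    ∃ z' k : A, ∃ l : ℝ, CP z' ∧ z' * z = z' ∧ z' ≠ 0 ∧ PJ k ∧ Le k (z' * g) ∧ ¬ Infin k ∧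
      ‖(z' * g - k) * (a - (l : ℂ) • (1 : A)) * (z' * g - k)‖ ≤ 1 / 16 := by
  classical
  obtain ⟨ι, _, p, l, hp, ho, hsum, hcomm, hn⟩ := hsa g a hg ha hag (1 / 80) (by norm_num)
  obtain ⟨a0, ha0⟩ : ∃ a0 : A, a0 = ∑ i, (l i : ℂ) • p i := ⟨_, rfl⟩
  rw [← ha0] at hn
  have hpg : ∀ i, Le (p i) g := by
    intro i
    show p i * g = p i
    rw [← hsum, Finset.mul_sum, Finset.sum_eq_single i]
    · exact (hp i).isIdempotentElem
    · intro j _ hj
      exact ho i j (Ne.symm hj)
    · intro h; exact absurd (Finset.mem_univ i) h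
  have ha0p : ∀ i, a0 * p i = (l i : ℂ) • p i := by
    intro i
    rw [ha0, Finset.sum_mul, Finset.sum_eq_single i]
    · rw [smul_mul_assoc, PJ.mul_self (hp i)]
    · intro j _ hj
      rw [smul_mul_assoc, ho j i hj, smul_zero]
    · intro h; exact absurd (Finset.mem_univ i) h
  -- first decision: finite or everywhere infinite
  obtain ⟨z1, hz1, hz1z, hz10, hD1⟩ := shrink (Finset.univ : Finset ι)
    (fun i z => ¬ Infin (z * p i) ∨ ∀ c, CP c → c * z = c → c ≠ 0 → Infin (c * p i))
    (by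
      intro i z z' hz hz' hzz h
      rcases h with h | h
      · left
        have : z' * p i = z' * (z * p i) := by rw [← mul_assoc, hzz]
        rw [this]
        exact not_infin_cmul hz' (pj_cmul hz (hp i)) h
      · right
        intro c hc hcz hc0
        exact h c hc (by rw [← hcz, mul_assoc, hzz]) hc0)
    (by
      intro i z hz hz0
      by_cases h : ∃ c, CP c ∧ c * z = c ∧ c ≠ 0 ∧ ¬ Infin (c * p i)
      · obtain ⟨c, hc, hcz, hc0, hci⟩ := h
        exact ⟨c, hc, hcz, hc0, Or.inl hci⟩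
      · push Not at h
        exact ⟨z, hz, hz.idem, hz0, Or.inr h⟩) z hz h0
  -- second decision: pairs are comparable
  obtain ⟨z2, hz2, hz21, hz20, hD2⟩ := shrink (Finset.univ : Finset (ι × ι))
    (fun ij z => Sub (z * p ij.1) (z * p ij.2) ∨ Sub (z * p ij.2) (z * p ij.1))
    (by
      intro ij z z' hz hz' hzz h
      have e : ∀ x : A, z' * x = z' * (z * x) := fun x => by rw [← mul_assoc, hzz]
      rcases h with h | h
      · left
        rw [e, e (p ij.2)]
        exact sub_cmul hz' h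
      · right
        rw [e, e (p ij.1)]
        exact sub_cmul hz' h)
    (by
      intro ij z hz hz0
      obtain ⟨c, hc, h1, h2⟩ := hgc (p ij.1) (p ij.2) (hp _) (hp _)
      by_cases hcz : c * z = 0
      · refine ⟨(1 - c) * z, hc.compl.mul hz, by rw [mul_assoc, hz.idem], ?_, Or.inr ?_⟩
        · rw [sub_mul, hcz, one_mul, sub_zero]; exact hz0
        · rw [hc.compl.comm z, mul_assoc, mul_assoc]
          exact sub_cmul hz h2
      · refine ⟨c * z, hc.mul hz, by rw [mul_assoc, hz.idem], hcz, Or.inl ?_⟩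
        rw [hc.comm z, mul_assoc, mul_assoc]
        exact sub_cmul hz h1) z1 hz1 hz10
  have hz2z : z2 * z = z2 := by rw [← hz21, mul_assoc, hz1z]
  -- the projections below `z2`
  have hP : ∀ i, PJ (z2 * p i) := fun i => pj_cmul hz2 (hp i)
  have hO : ∀ i j, i ≠ j → z2 * p i * (z2 * p j) = 0 := fun i j hij => by
    rw [hz2.two, ho i j hij, mul_zero]
  have hPg : ∀ i, Le (z2 * p i) g := fun i => le_cmul_left (hpg i)
  have haP : ∀ i, a0 * (z2 * p i) = (l i : ℂ) • (z2 * p i) := fun i => by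
    rw [hz2.mid, ha0p, mul_smul_comm]
  have hpair : ∀ i j, Infin (z2 * p i) → Infin (z2 * p j) → |l i - l j| ≤ 1 / 20 := by
    intro i j hi hj
    by_cases hij : i = j
    · rw [hij, sub_self, abs_zero]; norm_num
    · rcases hD2 (i, j) (Finset.mem_univ _) with h | h
      · -- `p i ≲ p j`
        rw [abs_sub_comm]
        exact rot_bound hoff (hP j) (hP i) (hPg j) (hPg i) hg (hO j i (Ne.symm hij)) h hi
          (haP j) (haP i) hn
      · exact rot_bound hoff (hP i) (hP j) (hPg i) (hPg j) hg (hO i j hij) h hj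
          (haP i) (haP j) hn
  obtain ⟨L, hL⟩ : ∃ L : ℝ, ∀ i, Infin (z2 * p i) → |l i - L| ≤ 1 / 20 := by
    by_cases h : ∃ i, Infin (z2 * p i)
    · obtain ⟨i0, hi0⟩ := h
      exact ⟨l i0, fun i hi => hpair i i0 hi hi0⟩
    · exact ⟨0, fun i hi => absurd ⟨i, hi⟩ h⟩
  let t : Finset ι := Finset.univ.filter (fun i => Infin (z2 * p i))
  let t' : Finset ι := Finset.univ.filter (fun i => ¬ Infin (z2 * p i))
  have htt : ∑ i ∈ t, z2 * p i + ∑ i ∈ t', z2 * p i = z2 * g := by
    rw [← hsum, Finset.mul_sum]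
    exact Finset.sum_filter_add_sum_filter_not _ _ _
  obtain ⟨k, hk⟩ : ∃ k, k = ∑ i ∈ t', z2 * p i := ⟨_, rfl⟩
  obtain ⟨q, hq⟩ : ∃ q, q = ∑ i ∈ t, z2 * p i := ⟨_, rfl⟩
  rw [← hk, ← hq] at htt
  have hkP : PJ k := by rw [hk]; exact Main3.sum_pj t' _ hP hO
  have hqP : PJ q := by rw [hq]; exact Main3.sum_pj t _ hP hO
  have hqk : z2 * g - k = q := by rw [← htt]; abel
  have hzg : PJ (z2 * g) := pj_cmul hz2 hg
  have hkle : Le k (z2 * g) := by
    show k * (z2 * g) = k
    rw [hk, Finset.sum_mul]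
    refine Finset.sum_congr rfl (fun i _ => ?_)
    rw [hz2.two, hpg i]
  have hqg : q * g = q := by
    rw [hq, Finset.sum_mul]
    exact Finset.sum_congr rfl (fun i _ => hPg i)
  refine ⟨z2, k, L, hz2, hz2z, hz20, hkP, hkle, ?_, ?_⟩
  · rw [hk]
    exact finsum_fin hfs t' _ hP hO (fun i hi => (Finset.mem_filter.1 hi).2)
  · rw [hqk]
    have hqq := PJ.mul_self hqP
    have h1 : q * (a - (L : ℂ) • (1 : A)) * q =
        q * (a - a0) * q + ∑ i ∈ t, ((l i - L : ℝ) : ℂ) • (z2 * p i) := by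
      have h2 : a0 * q = ∑ i ∈ t, (l i : ℂ) • (z2 * p i) := by
        rw [hq, Finset.mul_sum]
        exact Finset.sum_congr rfl (fun i _ => haP i)
      have h3 : q * (a0 * q) = a0 * q := by
        rw [h2, Finset.mul_sum]
        refine Finset.sum_congr rfl (fun i hi => ?_)
        rw [mul_smul_comm, hq, Finset.sum_mul, Finset.sum_eq_single i]
        · rw [PJ.mul_self (hP i)]
        · intro j _ hj; exact hO j i hj
        · intro h; exact absurd hi h
      have h4 : ∑ i ∈ t, ((l i - L : ℝ) : ℂ) • (z2 * p i)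
          = ∑ i ∈ t, (l i : ℂ) • (z2 * p i) - (L : ℂ) • q := by
        rw [hq, Finset.smul_sum, ← Finset.sum_sub_distrib]
        refine Finset.sum_congr rfl (fun i _ => ?_)
        rw [← sub_smul]; congr 1; push_cast; ring
      rw [h4, ← h2, ← h3]
      have h5 : q * (a - (L : ℂ) • (1 : A)) * q = q * a * q - (L : ℂ) • q := by
        rw [mul_sub, sub_mul, mul_smul_comm, mul_one, smul_mul_assoc, hqq]
      rw [h5]
      have h6 : q * (a - a0) * q = q * a * q - q * (a0 * q) := by
        rw [mul_sub, sub_mul, mul_assoc q a0 q]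
      rw [h6]; abel
    rw [h1]
    have h5 : ‖q * (a - a0) * q‖ ≤ 1 / 80 := by
      calc ‖q * (a - a0) * q‖ ≤ ‖q * (a - a0)‖ * ‖q‖ := norm_mul_le _ _
        _ ≤ ‖q * (a - a0)‖ := mul_le_of_le_one_right (norm_nonneg _) (pj_norm_le hqP)
        _ ≤ ‖q‖ * ‖a - a0‖ := norm_mul_le _ _
        _ ≤ ‖a - a0‖ := mul_le_of_le_one_left (norm_nonneg _) (pj_norm_le hqP)
        _ ≤ 1 / 80 := hn
    have h6 : ‖∑ i ∈ t, ((l i - L : ℝ) : ℂ) • (z2 * p i)‖ ≤ 1 / 20 := by
      apply Main3.comb_norm t _ hP hO (fun i => l i - L) (1 / 20) (by norm_num)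
      intro i hi
      exact hL i (Finset.mem_filter.1 hi).2
    refine (norm_add_le _ _).trans ?_
    linarith

end

end Pool.Agent.H43AW
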