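import Pool.Agent.H43AW.B1
import Pool.Agent.H43AW.Fin

/-!
# Orthogonal sums of finite projections are finite
-/

set_option autoImplicit false

namespace Pool.Agent.H43AW

open Pool.Agent.R456.CL

universe u

section

variable {A : Type u} [CStarAlgebra A]

lemma lp_sub {p q : A} (hp : PJ p) (hq : PJ q) (hn : ‖p - p * q * p‖ < 1) :
    ∃ w l t : A, star w * w = p ∧ w * star w = l ∧ PJ l ∧ Le l q ∧ l * (q * p) = q * p ∧
      l = q * p * t := by
  have hpp := PJ.mul_self hp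
  have hI : Iso p p (p + -(p - p * q * p)) := by
    refine iso_neumann hp ?_ ?_ (by rw [norm_neg]; exact hn)
    · rw [mul_neg, mul_sub, hpp, ← mul_assoc, ← mul_assoc, hpp]
    · rw [neg_mul, sub_mul, hpp, mul_assoc (p * q), hpp]
  obtain ⟨-, -, y, -, -, h3, -⟩ := hI
  have e1 : p + -(p - p * q * p) = p * q * p := by abel
  rw [e1] at h3
  obtain ⟨w, l, t, h1, h2, h4, h5, h6, -⟩ := left_inv (e := p) (x := q * p) (y := y * p) hp
    (by rw [mul_assoc, hpp]) (by
      calc y * p * (q * p) = y * (p * q * p) := by simp only [mul_assoc]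
        _ = p := h3)
  refine ⟨w, l, t, h1, h2, h4, ?_, h5, h6⟩
  have h7 : q * l = l := by
    rw [h6]; simp only [← mul_assoc, PJ.mul_self hq]
  have := congrArg star h7
  rwa [star_mul, PJ.star h4, PJ.star hq] at this

lemma hv_infin {g : A} (hg : PJ g) (h : HV g) (h0 : g ≠ 0) : Infin g := by
  obtain ⟨g1, g2, h1, h2, h12, hl1, hl2, ⟨v, hv1, hv2⟩, ⟨w, hw1, hw2⟩⟩ := h
  refine ⟨v, hv1, by rw [hv2]; exact hl1, ?_⟩
  rw [hv2]
  rintro rfl
  have h3 : g2 = 0 := by
    rw [← show g2 * g1 = g2 from hl2]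
    exact orth_comm h1 h2 h12
  apply h0
  have h4 : w = 0 := (CStarRing.mul_star_self_eq_zero_iff _).1 (by rw [hw2, h3])
  rw [← hw1, h4, mul_zero]

/-- two decompositions of a projection are comparable. -/
lemma two_decomp (hc : PCutQ A) (hgc : PGC A) {e f a b : A} (he : PJ e) (hf : PJ f) (ha : PJ a)
    (hb : PJ b) (hef : e * f = 0) (hab : a * b = 0) (hs : a + b = e + f) :
    ∃ z : A, CP z ∧ Sub (z * a) (z * f) ∧ Sub ((1 - z) * b) ((1 - z) * e) := by
  have hee := PJ.mul_self he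
  have hff := PJ.mul_self hf
  have haa := PJ.mul_self ha
  have hbb := PJ.mul_self hb
  have hfe := orth_comm he hf hef
  have hba := orth_comm ha hb hab
  obtain ⟨k, w, c, hk, hke, hw, hwf, hwx, hkc, hcw, hcx, hxc, hn, -⟩ :=
    cut_packQ hc (x := f * a) ha hf (by rw [mul_assoc, haa]) (by rw [← mul_assoc, hff])
      (ε := 1 / 2) (by norm_num)
  have hkk := PJ.mul_self hk
  have hka : k * a = k := hke
  have hak : a * k = k := Le.rev hk ha hke
  obtain ⟨f1, hf1⟩ : ∃ f1, f1 = w * star w := ⟨_, rfl⟩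
  rw [← hf1] at hwf hwx hcw hxc
  have hf1P : PJ f1 := by rw [hf1]; exact pi_final hk hw
  have hf1f : f1 * f = f1 := hwf
  have hff1 : f * f1 = f1 := Le.rev hf1P hf hwf
  have hxk : f * a * k = f * k := by rw [mul_assoc, hak]
  rw [hxk] at hwx hcx hxc
  have hwx' : f1 * a = f * k := by rw [← hwx, ← mul_assoc, hf1f]
  have haf1 : a * f1 = k * f := by
    have := congrArg star hwx'
    rwa [star_mul, star_mul, PJ.star ha, PJ.star hf1P, PJ.star hf, PJ.star hk] at this
  have hkf1 : k * f1 = k * f := by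
    calc k * f1 = k * a * f1 := by rw [hka]
      _ = k * (a * f1) := by rw [mul_assoc]
      _ = k * f := by rw [haf1, ← mul_assoc, hkk]
  -- the pieces
  obtain ⟨a2, ha2⟩ : ∃ a2, a2 = a - k := ⟨_, rfl⟩
  obtain ⟨f2, hf2⟩ : ∃ f2, f2 = f - f1 := ⟨_, rfl⟩
  have ha2P : PJ a2 := by rw [ha2]; exact pj_sub hk ha hke
  have hf2P : PJ f2 := by rw [hf2]; exact pj_sub hf1P hf hwf
  have ha22 := PJ.mul_self ha2P
  have hf22 := PJ.mul_self hf2P
  have ha2a : a2 * a = a2 := by rw [ha2, sub_mul, haa, hka]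
  have haa2 : a * a2 = a2 := by rw [ha2, mul_sub, haa, hak]
  have hf2f : f2 * f = f2 := by rw [hf2, sub_mul, hff, hf1f]
  have hff2 : f * f2 = f2 := by rw [hf2, mul_sub, hff, hff1]
  have hka2 : k * a2 = 0 := by rw [ha2, mul_sub, hka, hkk, sub_self]
  have hf1f2 : f1 * f2 = 0 := by rw [hf2, mul_sub, hf1f, PJ.mul_self hf1P, sub_self]
  have ha2f1 : a2 * f1 = 0 := by rw [ha2, sub_mul, haf1, hkf1, sub_self]
  have hkf2 : k * f2 = 0 := by rw [hf2, mul_sub, hkf1, sub_self]
  rw [← ha2] at hn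
  have hna : ‖f * a2‖ ≤ 1 / 2 := by rw [← haa2, ← mul_assoc]; exact hn
  -- `a2 ~ e2 ≤ e`
  have hunit1 : a2 - a2 * e * a2 = a2 * (f * a2) := by
    have h1 : a2 * (a + b) * a2 = a2 := by
      rw [mul_add, ha2a, add_mul, ha22, ← ha2a, mul_assoc a2 a b, hab]; simp
    rw [hs] at h1
    nth_rewrite 1 [← h1]
    rw [mul_add, add_mul]
    simp only [mul_assoc]
    abel
  obtain ⟨w2, e2, t2, hw21, hw22, he2P, he2e, he2x, he2t⟩ := lp_sub ha2P he (by
    rw [hunit1]
    calc ‖a2 * (f * a2)‖ ≤ ‖a2‖ * ‖f * a2‖ := norm_mul_le _ _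
      _ ≤ 1 * (1 / 2) := mul_le_mul (pj_norm_le ha2P) hna (norm_nonneg _) (by norm_num)
      _ < 1 := by norm_num)
  -- `f2 ~ b2 ≤ b`
  have haf2 : a * f2 = a2 * f2 := by rw [ha2, sub_mul, hkf2, sub_zero]
  have hnf : ‖a * f2‖ ≤ 1 / 2 := by
    have h1 : a * f2 = star (f2 * (f * a2)) := by
      rw [star_mul, star_mul, PJ.star hf, PJ.star ha2P, PJ.star hf2P, mul_assoc, hff2, haf2]
    rw [h1, norm_star]
    calc ‖f2 * (f * a2)‖ ≤ ‖f2‖ * ‖f * a2‖ := norm_mul_le _ _
      _ ≤ 1 * (1 / 2) := mul_le_mul (pj_norm_le hf2P) hna (norm_nonneg _) (by norm_num)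
      _ = 1 / 2 := by norm_num
  have hunit2 : f2 - f2 * b * f2 = f2 * (a * f2) := by
    have h1 : f2 * (e + f) * f2 = f2 := by
      rw [mul_add, hf2f, add_mul, hf22, ← hf2f, mul_assoc f2 f e, hfe]; simp
    rw [← hs] at h1
    nth_rewrite 1 [← h1]
    rw [mul_add, add_mul]
    simp only [mul_assoc]
    abel
  obtain ⟨w3, b2, t3, hw31, hw32, hb2P, hb2b, hb2x, hb2t⟩ := lp_sub hf2P hb (by
    rw [hunit2]
    calc ‖f2 * (a * f2)‖ ≤ ‖f2‖ * ‖a * f2‖ := norm_mul_le _ _
      _ ≤ 1 * (1 / 2) := mul_le_mul (pj_norm_le hf2P) hnf (norm_nonneg _) (by norm_num)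
      _ < 1 := by norm_num)
  -- `b - b2 ≲ e - e2`
  obtain ⟨r, hr⟩ : ∃ r, r = b - b2 := ⟨_, rfl⟩
  have hrP : PJ r := by rw [hr]; exact pj_sub hb2P hb hb2b
  have hrr := PJ.mul_self hrP
  have hbb2 : b * b2 = b2 := Le.rev hb2P hb hb2b
  have hrb : r * b = r := by rw [hr, sub_mul, hbb, show b2 * b = b2 from hb2b]
  have hbr : b * r = r := by rw [hr, mul_sub, hbb, hbb2]
  have hrf2 : r * f2 = 0 := by
    have h1 : r * (b * f2) = 0 := by
      rw [hr, sub_mul, ← mul_assoc b b, hbb, hb2x, sub_self]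
    rwa [← mul_assoc, hrb] at h1
  have har : a * r = 0 := by rw [← hbr, ← mul_assoc, hab, zero_mul]
  have hra : r * a = 0 := orth_comm ha hrP har
  have hrk : r * k = 0 := by rw [← hak, ← mul_assoc, hra, zero_mul]
  have hrf : r * f = r * f1 := by
    have : f = f1 + f2 := by rw [hf2]; abel
    nth_rewrite 1 [this]
    rw [mul_add, hrf2, add_zero]
  have hrunit : r * e + r * f = r := by
    rw [← mul_add, ← hs, mul_add, hra, hrb, zero_add]
  have hrf1 : r * f1 = -(r * e * c) := by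
    have h1 : r * f1 = r * f * k * c := by
      rw [mul_assoc r f k, mul_assoc r, hxc]
    have h2 : r * f = r - r * e := eq_sub_of_add_eq (by rw [add_comm]; exact hrunit)
    rw [h1, h2, sub_mul, hrk, zero_sub, neg_mul, mul_assoc (r * e) k c, hkc]
  have hf1r : f1 * r = -(star c * (e * r)) := by
    have := congrArg star hrf1
    rwa [star_mul, star_neg, star_mul, star_mul, PJ.star hf1P, PJ.star hrP, PJ.star he] at this
  have hleft : r * e * (1 + c * star c) * (e * r) = r := by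
    have h1 : r * f1 * (f1 * r) = r * e * (c * star c) * (e * r) := by
      rw [hrf1, hf1r, neg_mul_neg]; simp only [mul_assoc]
    have h2 : r * f1 * (f1 * r) = r * f * r := by
      rw [hrf, ← mul_assoc, mul_assoc r f1 f1, PJ.mul_self hf1P]
    have h3 : r * e * r + r * f * r = r := by rw [← add_mul, hrunit, hrr]
    calc r * e * (1 + c * star c) * (e * r)
        = r * (e * e) * r + r * e * (c * star c) * (e * r) := by
          rw [mul_add, mul_one, add_mul]; simp only [mul_assoc]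
      _ = r := by rw [hee, ← h1, h2, h3]
  obtain ⟨w4, e4, t4, hw41, hw42, he4P, he4x, he4t, -⟩ := left_inv (e := r) (x := e * r) hrP
    (by rw [mul_assoc, hrr]) hleft
  have hee4 : e * e4 = e4 := by rw [he4t]; simp only [← mul_assoc, hee]
  have he4e : e4 * e = e4 := by
    have := congrArg star hee4
    rwa [star_mul, PJ.star he4P, PJ.star he] at this
  have he24 : e2 * e4 = 0 := by
    have h1 : e2 = star t2 * (a2 * e) := by
      have := congrArg star he2t
      rwa [star_mul, star_mul, PJ.star he2P, PJ.star ha2P, PJ.star he] at this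
    have hfr : f * r = f1 * r := by
      have := congrArg star hrf
      rwa [star_mul, star_mul, PJ.star hf, PJ.star hf1P, PJ.star hrP] at this
    have h2 : a2 * e * r = 0 := by
      have h3 : e * r + f * r = r := by
        have := congrArg star hrunit
        rwa [star_add, star_mul, star_mul, PJ.star hrP, PJ.star he, PJ.star hf] at this
      have h4 : a2 * r = 0 := by rw [← ha2a, mul_assoc, har, mul_zero]
      have h5 : a2 * (e * r) + a2 * (f * r) = 0 := by rw [← mul_add, h3, h4]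
      rw [hfr, ← mul_assoc a2 f1, ha2f1, zero_mul, add_zero] at h5
      rw [mul_assoc]; exact h5
    rw [h1, he4t]
    calc star t2 * (a2 * e) * (e * r * t4) = star t2 * (a2 * (e * e) * r) * t4 := by
          simp only [mul_assoc]
      _ = 0 := by rw [hee, h2]; simp
  have he2e' : e2 * e = e2 := he2e
  have hE : PJ (e - e2) := pj_sub he2P he he2e
  have hle4 : Le e4 (e - e2) := by
    show e4 * (e - e2) = e4
    rw [mul_sub, he4e, orth_comm he2P he4P he24, sub_zero]
  have hsub4 : Sub r (e - e2) := ⟨w4, hw41, by rw [hw42]; exact hle4⟩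
  -- comparison
  obtain ⟨z, hz, hz1, hz2⟩ := hgc a2 f2 ha2P hf2P
  have hz' := hz.compl
  refine ⟨z, hz, ?_, ?_⟩
  · have h1 : a = k + a2 := by rw [ha2]; abel
    have h2 : f = f1 + f2 := by rw [hf2]; abel
    rw [h1, h2, mul_add, mul_add]
    exact Dich.sub_add (pj_cmul hz hk) (pj_cmul hz ha2P) (pj_cmul hz hf1P) (pj_cmul hz hf2P)
      (by rw [hz.two, hka2, mul_zero]) (by rw [hz.two, hf1f2, mul_zero])
      (sub_cmul hz ⟨w, hw, by rw [← hf1, PJ.mul_self hf1P]⟩) hz1
  · have h1 : b = b2 + r := by rw [hr]; abel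
    have h2 : e = e2 + (e - e2) := by abel
    rw [h1, h2, mul_add, mul_add]
    have hb2r : b2 * r = 0 := by
      rw [hr, mul_sub, show b2 * b = b2 from hb2b, PJ.mul_self hb2P, sub_self]
    have he2' : e2 * (e - e2) = 0 := by rw [mul_sub, he2e', PJ.mul_self he2P, sub_self]
    have hs1 : Sub ((1 - z) * b2) ((1 - z) * f2) :=
      sub_cmul hz' (sub_of_eqv hf2P (eqv_symm ⟨w3, hw31, hw32⟩))
    have hs2 : Sub ((1 - z) * a2) ((1 - z) * e2) :=
      sub_cmul hz' (sub_of_eqv he2P ⟨w2, hw21, hw22⟩)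
    exact Dich.sub_add (pj_cmul hz' hb2P) (pj_cmul hz' hrP) (pj_cmul hz' he2P) (pj_cmul hz' hE)
      (by rw [hz'.two, hb2r, mul_zero]) (by rw [hz'.two, he2', mul_zero])
      (sub_trans' (pj_cmul hz' hb2P) (pj_cmul hz' hf2P) (pj_cmul hz' he2P) hs1
        (sub_trans' (pj_cmul hz' hf2P) (pj_cmul hz' ha2P) (pj_cmul hz' he2P) hz2 hs2))
      (sub_cmul hz' hsub4)

end

theorem finsum_ok : St_FinSum.{u} := by
  intro A _ hc hgc hhalf e f he hf hef hef1 hff1 hinf
  have hP : PJ (e + f) := pj_add he hf hef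
  obtain ⟨c, hcP, hc0, hhv⟩ := hhalf (e + f) hP hinf
  have hG : PJ (c * (e + f)) := pj_cmul hcP hP
  have hhv' := hhv
  obtain ⟨g1, g2, h1, h2, h12, hl1, hl2, he1, he2⟩ := hhv'
  obtain ⟨G, hGd⟩ : ∃ G, G = c * (e + f) := ⟨_, rfl⟩
  rw [← hGd] at hG hc0 hhv hl1 hl2 he1 he2
  have hb : PJ (G - g1) := pj_sub h1 hG hl1
  have hg1G : g1 * G = g1 := hl1
  obtain ⟨z, hz, hz1, hz2⟩ := two_decomp hc hgc (e := c * e) (f := c * f) (a := g1) (b := G - g1)
    (pj_cmul hcP he) (pj_cmul hcP hf) h1 hb (by rw [hcP.two, hef, mul_zero])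
    (by rw [mul_sub, hg1G, PJ.mul_self h1, sub_self]) (by rw [hGd, mul_add]; abel)
  have hz' := hz.compl
  have key : ∀ (d x : A), CP d → PJ x → ¬ Infin x → Sub (d * G) (d * (c * x)) → d * G = 0 := by
    intro d x hd hx hxf hS
    by_contra hne
    obtain ⟨r, hr, hr1, hr2⟩ := sub_pj_final (pj_cmul hd hG) (pj_cmul hd (pj_cmul hcP hx)) hS
    have hi : Infin r := infin_eqv (pj_cmul hd hG) hr hr2
      (hv_infin (pj_cmul hd hG) (hv_cmul hd hhv) hne)
    refine not_infin_sub hx hr ?_ hxf hi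
    show r * x = r
    rw [← show r * (d * (c * x)) = r from hr1]
    simp only [mul_assoc, PJ.mul_self hx]
  have k1 : z * G = 0 := by
    refine key z f hz hf hff1 ?_
    exact sub_trans' (pj_cmul hz hG) (pj_cmul hz h1) (pj_cmul hz (pj_cmul hcP hf))
      (sub_cmul hz (sub_of_eqv h1 he1)) hz1
  have k2 : (1 - z) * G = 0 := by
    refine key (1 - z) e hz' he hef1 ?_
    have hg2 : Le g2 (G - g1) := by
      show g2 * (G - g1) = g2
      rw [mul_sub, show g2 * G = g2 from hl2, orth_comm h1 h2 h12, sub_zero]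
    exact sub_trans' (pj_cmul hz' hG) (pj_cmul hz' hb) (pj_cmul hz' (pj_cmul hcP he))
      (sub_cmul hz' (sub_mono (sub_of_eqv h2 he2) hg2)) hz2
  apply hc0
  have : G = z * G + (1 - z) * G := by rw [sub_mul, one_mul]; abel
  rw [this, k1, k2, add_zero]

end Pool.Agent.H43AW
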