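import Pool.Agent.H43AW.CutQ
import Pool.Agent.R456.CL.Main3

/-!
# Gluing of bounded families in orthogonal corners
-/

set_option autoImplicit false

namespace Pool.Agent.H43AW

open Pool.Agent.R456.CL

universe u

section

variable {A : Type u} [CStarAlgebra A]

/-- one step of the expansion. -/
lemma glue_step (hsa : PSa A) {p a : A} (hp : PJ p) (ha : star a = a) (hap : a * p = a) {r : ℝ}
    (hr : 0 < r) (hn : ‖a‖ ≤ r) :
    ∃ e : A, PJ e ∧ Le e p ∧ ‖a - ((r / 2 : ℝ) : ℂ) • ((2 : ℂ) • e - p)‖ ≤ r * (2 / 3) := by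
  classical
  obtain ⟨ι, _, q, l, hq, ho, hsum, hcomm, hd⟩ := hsa p a hp ha hap (r / 12) (by positivity)
  obtain ⟨b, hb⟩ : ∃ b : A, b = ∑ i, (l i : ℂ) • q i := ⟨_, rfl⟩
  rw [← hb] at hd
  have hbn : ‖b‖ ≤ r + r / 12 := by
    have : b = a - (a - b) := by abel
    rw [this]
    exact (norm_sub_le _ _).trans (add_le_add hn hd)
  have hbq : ∀ i, b * q i = (l i : ℂ) • q i := by
    intro i
    rw [hb, Finset.sum_mul, Finset.sum_eq_single i]
    · rw [smul_mul_assoc, PJ.mul_self (hq i)]
    · intro j _ hj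
      rw [smul_mul_assoc, ho j i hj, smul_zero]
    · intro h; exact absurd (Finset.mem_univ i) h
  have hl : ∀ i, q i ≠ 0 → |l i| ≤ r + r / 12 := by
    intro i hi
    have h1 : ‖q i‖ = 1 := by
      have h := CStarRing.norm_star_mul_self (x := q i)
      rw [PJ.star (hq i), PJ.mul_self (hq i)] at h
      have h0 : ‖q i‖ ≠ 0 := norm_ne_zero_iff.2 hi
      have h2 : ‖q i‖ * (‖q i‖ - 1) = 0 := by linarith
      rcases mul_eq_zero.1 h2 with h3 | h3
      · exact absurd h3 h0
      · linarith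
    have h2 : ‖b * q i‖ ≤ (r + r / 12) * 1 :=
      (norm_mul_le _ _).trans (mul_le_mul hbn h1.le (norm_nonneg _) (by positivity))
    rw [hbq, norm_smul, h1, mul_one, mul_one, Complex.norm_real, Real.norm_eq_abs] at h2
    exact h2
  obtain ⟨e, he⟩ : ∃ e : A, e = ∑ i ∈ Finset.univ.filter (fun i => 0 ≤ l i), q i := ⟨_, rfl⟩
  have heP : PJ e := by rw [he]; exact Main3.sum_pj _ q hq ho
  have hqp : ∀ i, q i * p = q i := by
    intro i
    rw [← hsum, Finset.mul_sum, Finset.sum_eq_single i]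
    · exact PJ.mul_self (hq i)
    · intro j _ hj; exact ho i j (Ne.symm hj)
    · intro h; exact absurd (Finset.mem_univ i) h
  refine ⟨e, heP, ?_, ?_⟩
  · show e * p = e
    rw [he, Finset.sum_mul]
    exact Finset.sum_congr rfl (fun i _ => hqp i)
  · obtain ⟨s, hs⟩ : ∃ s : ι → ℝ, s = fun i => if 0 ≤ l i then 1 else -1 := ⟨_, rfl⟩
    have h2e : (2 : ℂ) • e - p = ∑ i, ((s i : ℝ) : ℂ) • q i := by
      rw [he, ← hsum, Finset.smul_sum, Finset.sum_filter, ← Finset.sum_sub_distrib]
      refine Finset.sum_congr rfl (fun i _ => ?_)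
      rw [hs]
      by_cases h : 0 ≤ l i
      · simp only [h, if_true]
        push_cast
        module
      · simp only [h, if_false]
        push_cast
        module
    have hdec : a - ((r / 2 : ℝ) : ℂ) • ((2 : ℂ) • e - p) =
        (a - b) + ∑ i ∈ Finset.univ.filter (fun i => q i ≠ 0),
          ((l i - r / 2 * s i : ℝ) : ℂ) • q i := by
      rw [h2e, Finset.smul_sum]
      have h3 : ∑ i ∈ Finset.univ.filter (fun i => q i ≠ 0),
          ((l i - r / 2 * s i : ℝ) : ℂ) • q i = ∑ i, ((l i - r / 2 * s i : ℝ) : ℂ) • q i := by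
        refine Finset.sum_subset (Finset.subset_univ _) ?_
        intro i _ hi
        have : q i = 0 := by
          by_contra h
          exact hi (Finset.mem_filter.2 ⟨Finset.mem_univ i, h⟩)
        rw [this, smul_zero]
      rw [h3, hb]
      have h4 : ∑ i, ((l i - r / 2 * s i : ℝ) : ℂ) • q i = ∑ i, (l i : ℂ) • q i -
          ∑ i, ((r / 2 : ℝ) : ℂ) • ((s i : ℝ) : ℂ) • q i := by
        rw [← Finset.sum_sub_distrib]
        refine Finset.sum_congr rfl (fun i _ => ?_)
        push_cast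
        module
      rw [h4]
      abel
    rw [hdec]
    have h5 := Main3.comb_norm (Finset.univ.filter (fun i => q i ≠ 0)) q hq ho
      (fun i => l i - r / 2 * s i) (r * (7 / 12)) (by positivity) (by
        intro i hi
        have h6 := hl i (Finset.mem_filter.1 hi).2
        rw [abs_le] at h6
        show |l i - r / 2 * s i| ≤ r * (7 / 12)
        rw [hs]
        by_cases h : 0 ≤ l i
        · simp only [h, if_true]
          rw [abs_le]; constructor <;> linarith [h6.1, h6.2]
        · simp only [h, if_false]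
          push Not at h
          rw [abs_le]; constructor <;> linarith [h6.1, h6.2])
    refine (norm_add_le _ _).trans ?_
    linarith

/-- the expansion of a self-adjoint element along symmetries. -/
lemma glue_expand (hsa : PSa A) {p a : A} (hp : PJ p) (ha : star a = a) (hap : a * p = a) {K : ℝ}
    (hK : 0 < K) (hn : ‖a‖ ≤ K) :
    ∃ e : ℕ → A, (∀ n, PJ (e n)) ∧ (∀ n, Le (e n) p) ∧ ∀ n,
      ‖a - ∑ m ∈ Finset.range n, ((K * (2 / 3) ^ m / 2 : ℝ) : ℂ) • ((2 : ℂ) • e m - p)‖
        ≤ K * (2 / 3) ^ n := by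
  classical
  have hpos : ∀ n : ℕ, 0 < K * (2 / 3) ^ n := fun n => by positivity
  obtain ⟨C, hC⟩ : ∃ C : ℕ → A → Prop, C = fun n b => star b = b ∧ b * p = b ∧
    ‖b‖ ≤ K * (2 / 3) ^ n := ⟨_, rfl⟩
  have hst : ∀ n b, C n b → ∃ e : A, PJ e ∧ Le e p ∧
      C (n + 1) (b - ((K * (2 / 3) ^ n / 2 : ℝ) : ℂ) • ((2 : ℂ) • e - p)) := by
    intro n b hb
    rw [hC] at hb ⊢
    obtain ⟨h1, h2, h3⟩ := hb
    obtain ⟨e, he1, he2, he3⟩ := glue_step hsa hp h1 h2 (hpos n) h3
    refine ⟨e, he1, he2, ?_, ?_, ?_⟩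
    · rw [star_sub, star_smul, star_sub, star_smul, PJ.star he1, PJ.star hp, h1]
      rw [Complex.star_def, Complex.conj_ofReal, Complex.conj_ofNat]
    · rw [sub_mul, smul_mul_assoc, sub_mul, smul_mul_assoc, PJ.mul_self hp, h2,
        show e * p = e from he2]
    · rw [pow_succ, ← mul_assoc]
      exact he3
  choose! E hE1 hE2 hE3 using hst
  obtain ⟨s, hs⟩ : ∃ s : ℕ → A, s = fun n => Nat.rec a (fun n b =>
    b - ((K * (2 / 3) ^ n / 2 : ℝ) : ℂ) • ((2 : ℂ) • E n b - p)) n := ⟨_, rfl⟩
  have hs0 : s 0 = a := by subst hs; rfl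
  have hss : ∀ n, s (n + 1) = s n - ((K * (2 / 3) ^ n / 2 : ℝ) : ℂ) •
      ((2 : ℂ) • E n (s n) - p) := by intro n; subst hs; rfl
  have hsC : ∀ n, C n (s n) := by
    intro n
    induction n with
    | zero => rw [hs0, hC]; exact ⟨ha, hap, by simpa using hn⟩
    | succ n ih => rw [hss]; exact hE3 n (s n) ih
  refine ⟨fun n => E n (s n), fun n => hE1 n _ (hsC n), fun n => hE2 n _ (hsC n), ?_⟩
  intro n
  have hsn : s n = a - ∑ m ∈ Finset.range n, ((K * (2 / 3) ^ m / 2 : ℝ) : ℂ) •
      ((2 : ℂ) • E m (s m) - p) := by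
    induction n with
    | zero => rw [hs0]; simp
    | succ n ih => rw [hss, Finset.sum_range_succ, ← sub_sub, ← ih]
  rw [← hsn]
  have := hsC n
  rw [hC] at this
  exact this.2.2

/-- the sup of a family of subprojections of an orthogonal family. -/
lemma sup_below {ι : Type*} {p e : ι → A} {E Q : A} (hp : ∀ i, PJ (p i))
    (ho : ∀ i j, i ≠ j → p i * p j = 0) (hE : IsSup p E) (he : ∀ i, PJ (e i))
    (hle : ∀ i, Le (e i) (p i)) (hQ : IsSup e Q) :
    (∀ i, p i * Q = e i) ∧ (∀ i, Q * p i = e i) ∧ E * Q = Q ∧ Q * E = Q := by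
  have h1 : ∀ i, p i * Q = e i := by
    intro i
    have h2 : (p i - e i) * Q = 0 := by
      refine hQ.2.2 _ (fun j => ?_)
      by_cases hij : i = j
      · subst hij
        rw [sub_mul, Le.rev (he i) (hp i) (hle i), PJ.mul_self (he i), sub_self]
      · have h3 : p i * e j = 0 := by
          rw [← Le.rev (he j) (hp j) (hle j), ← mul_assoc, ho i j hij, zero_mul]
        have h4 : e i * e j = 0 := by
          rw [← show e i * p i = e i from hle i, mul_assoc, h3, mul_zero]
        rw [sub_mul, h3, h4, sub_self]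
    rw [sub_mul, sub_eq_zero] at h2
    rw [h2]
    exact hQ.2.1 i
  have h1' : ∀ i, Q * p i = e i := by
    intro i
    have := congrArg star (h1 i)
    rwa [star_mul, PJ.star (hp i), PJ.star hQ.1, PJ.star (he i)] at this
  have h2 : E * Q = Q := by
    have h3 : (1 - E) * Q = 0 := by
      refine hQ.2.2 _ (fun j => ?_)
      have h4 : E * e j = e j := by
        rw [← Le.rev (he j) (hp j) (hle j), ← mul_assoc, Le.rev (hp j) hE.1 (hE.2.1 j)]
      rw [sub_mul, one_mul, h4, sub_self]
    rw [sub_mul, one_mul, sub_eq_zero] at h3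
    exact h3.symm
  refine ⟨h1, h1', h2, ?_⟩
  have := congrArg star h2
  rwa [star_mul, PJ.star hE.1, PJ.star hQ.1] at this

/-- gluing of self-adjoint families. -/
lemma glue_sa (hsa : PSa A) (hsup : PSupO A) {ι : Type u} {p x : ι → A} {E : A} {K : ℝ}
    (hK : 0 < K) (hp : ∀ i, PJ (p i)) (ho : ∀ i j, i ≠ j → p i * p j = 0) (hE : IsSup p E)
    (hsx : ∀ i, star (x i) = x i) (hxp : ∀ i, x i * p i = x i) (hn : ∀ i, ‖x i‖ ≤ K) :
    ∃ X : A, E * X = X ∧ X * E = X ∧ (∀ i, p i * X = x i) ∧ ∀ i, X * p i = x i := by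
  classical
  choose e he1 he2 he3 using fun i => glue_expand hsa (hp i) (hsx i) (hxp i) hK (hn i)
  have hsupn : ∀ n, ∃ Q : A, IsSup (fun i => e i n) Q := by
    intro n
    refine hsup ι (fun i => e i n) (fun i => he1 i n) ?_
    intro i j hij
    show e i n * e j n = 0
    rw [← Le.rev (he1 j n) (hp j) (he2 j n), ← show e i n * p i = e i n from he2 i n]
    calc e i n * p i * (p j * e j n) = e i n * (p i * p j) * e j n := by simp only [mul_assoc]
      _ = 0 := by rw [ho i j hij, mul_zero, zero_mul]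
  choose Q hQ using hsupn
  have hQs := fun n => sup_below hp ho hE (fun i => he1 i n) (fun i => he2 i n) (hQ n)
  obtain ⟨c, hc⟩ : ∃ c : ℕ → ℝ, c = fun n => K * (2 / 3) ^ n / 2 := ⟨_, rfl⟩
  obtain ⟨f, hf⟩ : ∃ f : ℕ → A, f = fun n => ((c n : ℝ) : ℂ) • ((2 : ℂ) • Q n - E) := ⟨_, rfl⟩
  have hfn : ∀ n, ‖f n‖ ≤ K * 3 / 2 * (2 / 3) ^ n := by
    intro n
    have h1 : ‖(2 : ℂ) • Q n - E‖ ≤ 3 := by
      refine (norm_sub_le _ _).trans ?_
      rw [norm_smul, Complex.norm_ofNat]
      have := pj_norm_le (hQ n).1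
      have := pj_norm_le hE.1
      linarith
    have h2 : 0 ≤ c n := by rw [hc]; positivity
    rw [hf]
    show ‖((c n : ℝ) : ℂ) • ((2 : ℂ) • Q n - E)‖ ≤ _
    rw [norm_smul, Complex.norm_real, Real.norm_of_nonneg h2]
    calc c n * ‖(2 : ℂ) • Q n - E‖ ≤ c n * 3 := mul_le_mul_of_nonneg_left h1 h2
      _ = K * 3 / 2 * (2 / 3) ^ n := by rw [hc]; ring
  have hsumm : Summable f := by
    refine Summable.of_norm_bounded (g := fun n => K * 3 / 2 * (2 / 3 : ℝ) ^ n) ?_ hfn
    exact (summable_geometric_of_lt_one (by norm_num) (by norm_num)).mul_left _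
  obtain ⟨X, hX⟩ := hsumm
  have hlim := hX.tendsto_sum_nat
  have hpX : ∀ i, p i * X = x i := by
    intro i
    have h1 : Filter.Tendsto (fun n => p i * ∑ m ∈ Finset.range n, f m) Filter.atTop
        (nhds (p i * X)) := hlim.const_mul (p i)
    have h2 : Filter.Tendsto (fun n => p i * ∑ m ∈ Finset.range n, f m) Filter.atTop
        (nhds (x i)) := by
      rw [tendsto_iff_norm_sub_tendsto_zero]
      have h3 : Filter.Tendsto (fun n : ℕ => K * (2 / 3 : ℝ) ^ n) Filter.atTop (nhds 0) := by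
        have := (tendsto_pow_atTop_nhds_zero_of_lt_one (r := (2 / 3 : ℝ)) (by norm_num)
          (by norm_num)).const_mul K
        rwa [mul_zero] at this
      refine squeeze_zero (fun n => norm_nonneg _) (fun n => ?_) h3
      have h4 : p i * ∑ m ∈ Finset.range n, f m =
          ∑ m ∈ Finset.range n, ((K * (2 / 3) ^ m / 2 : ℝ) : ℂ) • ((2 : ℂ) • e i m - p i) := by
        rw [Finset.mul_sum]
        refine Finset.sum_congr rfl (fun m _ => ?_)
        rw [hf, hc]
        show p i * (((K * (2 / 3) ^ m / 2 : ℝ) : ℂ) • ((2 : ℂ) • Q m - E)) = _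
        rw [mul_smul_comm, mul_sub, mul_smul_comm, (hQs m).1 i, hE.2.1 i]
      rw [h4, norm_sub_rev]
      exact he3 i n
    exact tendsto_nhds_unique h1 h2
  have hEX : E * X = X := by
    have h1 : Filter.Tendsto (fun n => E * ∑ m ∈ Finset.range n, f m) Filter.atTop
        (nhds (E * X)) := hlim.const_mul E
    have h2 : (fun n => E * ∑ m ∈ Finset.range n, f m) = fun n => ∑ m ∈ Finset.range n, f m := by
      funext n
      rw [Finset.mul_sum]
      refine Finset.sum_congr rfl (fun m _ => ?_)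
      rw [hf]
      show E * (((c m : ℝ) : ℂ) • ((2 : ℂ) • Q m - E)) = _
      rw [mul_smul_comm, mul_sub, mul_smul_comm, (hQs m).2.2.1, PJ.mul_self hE.1]
    rw [h2] at h1
    exact tendsto_nhds_unique h1 hlim
  have hXs : star X = X := by
    have h1 : Filter.Tendsto (fun n => star (∑ m ∈ Finset.range n, f m)) Filter.atTop
        (nhds (star X)) := hlim.star
    have h2 : (fun n => star (∑ m ∈ Finset.range n, f m)) =
        fun n => ∑ m ∈ Finset.range n, f m := by
      funext n
      rw [star_sum]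
      refine Finset.sum_congr rfl (fun m _ => ?_)
      rw [hf]
      show star (((c m : ℝ) : ℂ) • ((2 : ℂ) • Q m - E)) = _
      rw [star_smul, star_sub, star_smul, PJ.star (hQ m).1, PJ.star hE.1]
      congr 1
      · rw [Complex.star_def, Complex.conj_ofReal]
      · rw [Complex.star_def, Complex.conj_ofNat]
    rw [h2] at h1
    exact tendsto_nhds_unique h1 hlim
  refine ⟨X, hEX, ?_, hpX, fun i => ?_⟩
  · have := congrArg star hEX
    rwa [star_mul, hXs, PJ.star hE.1] at this
  · have := congrArg star (hpX i)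
    rwa [star_mul, hXs, PJ.star (hp i), hsx] at this

theorem glue_ok' (hsa : PSa A) (hsup : PSupO A) : PGlue A := by
  intro ι p x E K hp ho hE h1 h2 hn
  obtain ⟨K', hK', hKK'⟩ : ∃ K' : ℝ, 0 < K' ∧ K ≤ K' := ⟨|K| + 1, by positivity, by
    linarith [le_abs_self K]⟩
  have h2' : ∀ i, star (x i) * p i = star (x i) := by
    intro i
    have := congrArg star (h1 i)
    rwa [star_mul, PJ.star (hp i)] at this
  obtain ⟨X, hX1, hX2, hX3, hX4⟩ := glue_sa hsa hsup (x := fun i => (1 / 2 : ℂ) •
    (x i + star (x i))) hK' hp ho hE (fun i => by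
      rw [star_smul, star_add, star_star, add_comm (star (x i))]
      congr 1
      simp) (fun i => by rw [smul_mul_assoc, add_mul, h2, h2']) (fun i => by
      rw [norm_smul]
      have e1 : ‖(1 / 2 : ℂ)‖ = 1 / 2 := by norm_num
      rw [e1]
      have := norm_add_le (x i) (star (x i))
      rw [norm_star] at this
      have := hn i
      linarith)
  obtain ⟨Y, hY1, hY2, hY3, hY4⟩ := glue_sa hsa hsup (x := fun i => (-(Complex.I / 2) : ℂ) •
    (x i - star (x i))) hK' hp ho hE (fun i => by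
      rw [star_smul, star_sub, star_star, ← neg_sub (x i), smul_neg, ← neg_smul]
      congr 1
      simp
      ring) (fun i => by rw [smul_mul_assoc, sub_mul, h2, h2']) (fun i => by
      rw [norm_smul]
      have e1 : ‖(-(Complex.I / 2) : ℂ)‖ = 1 / 2 := by norm_num
      rw [e1]
      have := norm_sub_le (x i) (star (x i))
      rw [norm_star] at this
      have := hn i
      linarith)
  have hcomb : ∀ i, (1 / 2 : ℂ) • (x i + star (x i)) +
      Complex.I • ((-(Complex.I / 2) : ℂ) • (x i - star (x i))) = x i := by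
    intro i
    rw [smul_smul]
    have : Complex.I * -(Complex.I / 2) = (1 / 2 : ℂ) := by
      have := Complex.I_mul_I
      linear_combination (-(1 / 2 : ℂ)) * this
    rw [this]
    module
  refine ⟨X + Complex.I • Y, ?_, ?_, fun i => ?_, fun i => ?_⟩
  · rw [mul_add, mul_smul_comm, hX1, hY1]
  · rw [add_mul, smul_mul_assoc, hX2, hY2]
  · rw [mul_add, mul_smul_comm, hX3, hY3]; exact hcomb i
  · rw [add_mul, smul_mul_assoc, hX4, hY4]; exact hcomb i

end

theorem glue_ok : St_Glue.{u} := fun _ _ hsa _ hsup => glue_ok' hsa hsup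

end Pool.Agent.H43AW
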