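import Pool.Agent.H43AW.Stm
import Pool.Agent.R456.CL.Inf1
import Pool.Agent.R456.CL.Inf2

/-!
# Local halving of infinite projections
-/

set_option autoImplicit false

namespace Pool.Agent.H43AW

open Pool.Agent.R456.CL

universe u

section

variable {A : Type u} [CStarAlgebra A]

open Inf2 hiding pj_add in
theorem inf2_data (hP : PSup A) (hA : PAddO A) {g : A} (hg : PJ g) {ι : Type u} {q : ι → A}
    {E : A} (hι : Infinite ι) (hq : ∀ i, PJ (q i)) (ho : ∀ i j, i ≠ j → q i * q j = 0)
    (hle : ∀ i, Le (q i) g) (heqv : ∀ i j, Eqv (q i) (q j)) (hE : IsSup q E)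
    (hsub : ∀ i, Sub (g - E) (q i)) : HV g := by
  obtain ⟨e⟩ : Nonempty (ι ⊕ ι ≃ ι) := by
    rw [← Cardinal.eq, Cardinal.mk_sum, Cardinal.lift_id]
    exact Cardinal.add_eq_self (Cardinal.aleph0_le_mk ι)
  obtain ⟨e1⟩ : Nonempty (PUnit.{u + 1} ⊕ ι ≃ ι) := by
    rw [← Cardinal.eq, Cardinal.mk_sum, Cardinal.lift_id, Cardinal.lift_id, Cardinal.mk_punit]
    exact Cardinal.add_eq_right (Cardinal.aleph0_le_mk ι)
      (Cardinal.one_lt_aleph0.le.trans (Cardinal.aleph0_le_mk ι))
  have hEg : E * g = E := sup_le hq hE hg hle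
  have hgE := le_symm hE.1 hg hEg
  have hr : PJ (g - E) := by
    refine mk ?_ (by rw [star_sub, sa hg, sa hE.1])
    rw [sub_mul, mul_sub, mul_sub, idem hg, idem hE.1, hEg, hgE]
    abel
  have hrE : (g - E) * E = 0 := by rw [sub_mul, hgE, idem hE.1, sub_self]
  -- the four injections
  let f4 : Fin 4 → ι → ι := ![fun i => e (Sum.inl (e (Sum.inl i))),
    fun i => e (Sum.inl (e (Sum.inr i))), fun i => e (Sum.inr (e (Sum.inl i))),
    fun i => e (Sum.inr (e (Sum.inr i)))]
  have hinj : ∀ c, Function.Injective (f4 c) := by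
    intro c i j h
    fin_cases c <;> simpa [f4] using h
  have hdisj : ∀ c d i j, c ≠ d → f4 c i ≠ f4 d j := by
    intro c d i j hcd h
    fin_cases c <;> fin_cases d <;> simp [f4] at h hcd
  let Q : Fin 4 → ι → A := fun c i => q (f4 c i)
  have hQ : ∀ c i, PJ (Q c i) := fun c i => hq _
  choose G hG using fun c => hP ι (Q c) (hQ c)
  have hQo : ∀ c i j, i ≠ j → Q c i * Q c j = 0 := fun c i j hij =>
    ho _ _ (fun h => hij (hinj c h))
  have hQo2 : ∀ c d i j, c ≠ d → Q c i * Q d j = 0 := fun c d i j hcd =>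
    ho _ _ (hdisj c d i j hcd)
  have hrq : ∀ i, (g - E) * q i = 0 := by
    intro i
    rw [← le_symm (hq i) hE.1 (hE.2.1 i), ← mul_assoc, hrE, zero_mul]
  have heq' : ∀ i j, Sub (q i) (q j) := by
    intro i j
    obtain ⟨v, hv1, hv2⟩ := heqv i j
    exact ⟨v, hv1, by rw [hv2, idem (hq j)]⟩
  have hGo : ∀ x y, x ≠ y → G x * G y = 0 := fun x y hxy =>
    sup_orth (hQ x) (hQ y) (hG x) (hG y) (fun i j => hQo2 x y i j hxy)
  -- total sup
  have hsum : G 0 + G 1 + (G 2 + G 3) = E := by
    have h1 := sup_sum (sup_sum (hG 0) (hG 1) (hGo 0 1 (by decide)))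
      (sup_sum (hG 2) (hG 3) (hGo 2 3 (by decide))) (by
        rw [add_mul, mul_add, mul_add, hGo 0 2 (by decide), hGo 0 3 (by decide),
          hGo 1 2 (by decide), hGo 1 3 (by decide)]
        simp)
    have h2 := sup_comp (((Equiv.sumCongr e e).trans e)) hE
    refine sup_unique (e := fun k => q (((Equiv.sumCongr e e).trans e) k)) (fun k => hq _) ?_ h2
    convert h1 using 1
    funext k
    rcases k with (k | k) | (k | k) <;> rfl
  have hg4 : g = (g - E) + (G 2 + G 3) + (G 0 + G 1) := by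
    rw [← hsum]; abel
  have hg4' : g = (g - E) + (G 0 + G 1) + (G 2 + G 3) := by
    rw [← hsum]; abel
  have k1 := key hP hA e e1 Q G (g - E) hr hQ hQo hQo2 (fun c i => hrq _) hG
    (fun c d i j => heq' _ _) (fun c i => hsub _) 0 1 2 3 (by decide) (by decide) (by decide)
    (by decide) (by decide) (by decide)
  have k2 := key hP hA e e1 Q G (g - E) hr hQ hQo hQo2 (fun c i => hrq _) hG
    (fun c d i j => heq' _ _) (fun c i => hsub _) 2 3 0 1 (by decide) (by decide) (by decide)
    (by decide) (by decide) (by decide)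
  rw [← hg4] at k1
  rw [← hg4'] at k2
  obtain ⟨v, hv1, hv2⟩ := k1
  obtain ⟨w, hw1, hw2⟩ := k2
  have hP01 := pj_add (hG 0).1 (hG 1).1 (hGo 0 1 (by decide))
  have hP23 := pj_add (hG 2).1 (hG 3).1 (hGo 2 3 (by decide))
  have hGg : ∀ c, G c * g = G c := fun c => sup_le (hQ c) (hG c) hg (fun i => hle _)
  have h01g : (G 0 + G 1) * g = G 0 + G 1 := by rw [add_mul, hGg, hGg]
  have h23g : (G 2 + G 3) * g = G 2 + G 3 := by rw [add_mul, hGg, hGg]
  have h0123 : (G 0 + G 1) * (G 2 + G 3) = 0 := by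
    rw [add_mul, mul_add, mul_add, hGo 0 2 (by decide), hGo 0 3 (by decide),
      hGo 1 2 (by decide), hGo 1 3 (by decide)]
    simp
  have hpv := final_pj hg hv1
  have hpw := final_pj hg hw1
  refine ⟨v * star v, w * star w, hpv, hpw, ?_, ?_, ?_, ⟨v, hv1, rfl⟩, ⟨w, hw1, rfl⟩⟩
  · calc v * star v * (w * star w)
        = (v * star v * (G 0 + G 1)) * ((G 2 + G 3) * (w * star w)) := by
          rw [hv2, le_symm hpw hP23 hw2]
      _ = v * star v * ((G 0 + G 1) * (G 2 + G 3)) * (w * star w) := by noncomm_ring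
      _ = 0 := by rw [h0123]; simp
  · change v * star v * g = v * star v
    rw [← hv2, mul_assoc, h01g]
  · change w * star w * g = w * star w
    rw [← hw2, mul_assoc, h23g]

end

open Inf1 hiding pj_mk eqv_trans eqv_symm in
theorem half_ok : St_Half.{u} := by
  classical
  intro A _ _ hSup _ hAddO hgc g hg hinf
  obtain ⟨v, hv1, hv2, hv3⟩ := hinf
  have hvg : v * g = v := init hg hv1
  have hgv : g * v = v := fin_le hg hv2
  have hgv' : star v * g = star v := by
    have := congrArg star hgv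
    rwa [star_mul, pj_star hg] at this
  have hvg' : g * star v = star v := by
    have := congrArg star hvg
    rwa [star_mul, pj_star hg] at this
  have hvv : PJ (v * star v) := final hg hv1
  have hvvv : v * star v * v = v := final_mul hg hv1
  set s : ℕ → A := seq g v with hs
  have s0 : s 0 = g - v * star v := rfl
  have ss : ∀ n, s (n + 1) = v * s n * star v := fun n => rfl
  -- projections below g
  have hle : ∀ n, s n * g = s n := by
    intro n
    cases n with
    | zero =>
      rw [s0, sub_mul, pj_idem hg, hv2]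
    | succ n =>
      rw [ss, mul_assoc, hgv']
  have hpj : ∀ n, PJ (s n) := by
    intro n
    induction n with
    | zero =>
      apply pj_mk
      · rw [s0]
        have e1 : (g - v * star v) * (g - v * star v) =
            g * g - (g * v) * star v - v * star v * g + v * star v * (v * star v) := by
          noncomm_ring
        rw [e1, pj_idem hg, hgv, hv2, pj_idem hvv]
        abel
      · rw [s0, star_sub, pj_star hg, pj_star hvv]
    | succ n ih =>
      apply pj_mk
      · rw [ss]
        have e1 : v * s n * star v * (v * s n * star v) = v * (s n * (star v * v)) * s n * star v := by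
          noncomm_ring
        rw [e1, hv1, hle, mul_assoc v (s n) (s n), pj_idem ih]
      · rw [ss, star_mul, star_mul, star_star, pj_star ih, mul_assoc]
  have h0v : s 0 * v = 0 := by
    rw [s0, sub_mul, hgv, hvvv, sub_self]
  have horth : ∀ m n, m < n → s m * s n = 0 := by
    intro m
    induction m with
    | zero =>
      intro n hn
      obtain ⟨k, rfl⟩ : ∃ k, n = k + 1 := ⟨n - 1, by omega⟩
      rw [ss]
      have e1 : s 0 * (v * s k * star v) = (s 0 * v) * s k * star v := by noncomm_ring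
      rw [e1, h0v, zero_mul, zero_mul]
    | succ m ih =>
      intro n hn
      obtain ⟨k, rfl⟩ : ∃ k, n = k + 1 := ⟨n - 1, by omega⟩
      rw [ss, ss]
      have e1 : v * s m * star v * (v * s k * star v) = v * (s m * (star v * v)) * s k * star v := by
        noncomm_ring
      rw [e1, hv1, hle, mul_assoc v (s m) (s k), ih k (by omega), mul_zero, zero_mul]
  have horth' : ∀ m n, m ≠ n → s m * s n = 0 := by
    intro m n hmn
    rcases lt_or_gt_of_ne hmn with h | h
    · exact horth m n h
    · have h1 := congrArg star (horth n m h)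
      rwa [star_mul, star_zero, pj_star (hpj m), pj_star (hpj n)] at h1
  have hp0 : s 0 ≠ 0 := by
    rw [s0]
    intro h
    exact hv3 (sub_eq_zero.1 h).symm
  have heqv : ∀ n, Eqv (s 0) (s n) := by
    intro n
    induction n with
    | zero =>
      refine ⟨s 0, ?_, ?_⟩
      · rw [pj_star (hpj 0), pj_idem (hpj 0)]
      · rw [pj_star (hpj 0), pj_idem (hpj 0)]
    | succ n ih =>
      apply eqv_trans (hpj 0) (hpj n) ih
      refine ⟨v * s n, ?_, ?_⟩
      · have e1 : star (v * s n) * (v * s n) = s n * (star v * v) * s n := by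
          rw [star_mul, pj_star (hpj n)]; noncomm_ring
        rw [e1, hv1, hle, pj_idem (hpj n)]
      · have e1 : v * s n * star (v * s n) = v * (s n * s n) * star v := by
          rw [star_mul, pj_star (hpj n)]; noncomm_ring
        rw [e1, pj_idem (hpj n), ss]
  set p : A := s 0 with hp
  have hpP : PJ p := hpj 0
  -- Zorn
  set Sset : Set (Set A) := {F : Set A | (∀ q ∈ F, PJ q ∧ Le q g ∧ Eqv p q) ∧
    ∀ q ∈ F, ∀ q' ∈ F, q ≠ q' → q * q' = 0} with hSset
  have hF0 : Set.range s ∈ Sset := by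
    refine ⟨?_, ?_⟩
    · rintro q ⟨n, rfl⟩
      exact ⟨hpj n, hle n, heqv n⟩
    · rintro q ⟨n, rfl⟩ q' ⟨n', rfl⟩ hne
      apply horth'
      rintro rfl
      exact hne rfl
  obtain ⟨F, hsub, hFmax⟩ := zorn_subset_nonempty Sset (by
    intro c hc hchain _
    refine ⟨⋃₀ c, ⟨?_, ?_⟩, fun t ht => Set.subset_sUnion_of_mem ht⟩
    · rintro q ⟨t, ht, hq⟩
      exact (hc ht).1 q hq
    · rintro q ⟨t, ht, hq⟩ q' ⟨t', ht', hq'⟩ hne
      rcases hchain.total ht ht' with h | h
      · exact (hc ht').2 q (h hq) q' hq' hne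
      · exact (hc ht).2 q hq q' (h hq') hne) (Set.range s) hF0
  have hFS : F ∈ Sset := hFmax.prop
  obtain ⟨hF1, hF2⟩ := hFS
  have hpF : p ∈ F := hsub ⟨0, rfl⟩
  obtain ⟨E, hE⟩ := hSup (↥F) (fun i => i.1) (fun i => (hF1 i.1 i.2).1)
  obtain ⟨hEP, hE1, hE2⟩ := hE
  have hqE : ∀ q ∈ F, q * E = q := fun q hq => hE1 ⟨q, hq⟩
  have hEq : ∀ q ∈ F, E * q = q := fun q hq => le_left (hF1 q hq).1 hEP (hqE q hq)
  have hgE : g * E = E := by
    have h1 := hE2 (1 - g) (fun i => by
      rw [sub_mul, one_mul, le_left (hF1 i.1 i.2).1 hg (hF1 i.1 i.2).2.1, sub_self])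
    rw [sub_mul, one_mul, sub_eq_zero] at h1
    exact h1.symm
  have hEg : E * g = E := by
    have := congrArg star hgE
    rwa [star_mul, pj_star hg, pj_star hEP] at this
  set r : A := g - E with hr
  have hrP : PJ r := by
    apply pj_mk
    · rw [hr]
      have e1 : (g - E) * (g - E) = g * g - g * E - E * g + E * E := by noncomm_ring
      rw [e1, pj_idem hg, hgE, hEg, pj_idem hEP]
      abel
    · rw [hr, star_sub, pj_star hg, pj_star hEP]
  have hrg : r * g = r := by
    rw [hr, sub_mul, pj_idem hg, hEg]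
  have hrq : ∀ q ∈ F, r * q = 0 := by
    intro q hq
    rw [hr, sub_mul, le_left (hF1 q hq).1 hg (hF1 q hq).2.1, hEq q hq, sub_self]
  have hnosub : ¬ Sub p r := by
    intro h
    obtain ⟨w, hw1, hw2⟩ := h
    set p' : A := w * star w with hp'
    have hp'P : PJ p' := final hpP hw1
    have hp'q : ∀ q ∈ F, p' * q = 0 := by
      intro q hq
      rw [← hw2, mul_assoc, hrq q hq, mul_zero]
    have hqp' : ∀ q ∈ F, q * p' = 0 := by
      intro q hq
      have := congrArg star (hp'q q hq)
      rwa [star_mul, star_zero, pj_star hp'P, pj_star (hF1 q hq).1] at this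
    have hpp' : Eqv p p' := ⟨w, hw1, rfl⟩
    have hp'0 : p' ≠ 0 := eqv_ne_zero hpp' hp0
    have hnot : p' ∉ F := by
      intro h
      have := hp'q p' h
      rw [pj_idem hp'P] at this
      exact hp'0 this
    have hins : insert p' F ∈ Sset := by
      refine ⟨?_, ?_⟩
      · rintro q (rfl | hq)
        · refine ⟨hp'P, ?_, hpp'⟩
          show p' * g = p'
          rw [← hw2, mul_assoc, hrg]
        · exact hF1 q hq
      · rintro q (rfl | hq) q' (rfl | hq') hne
        · exact absurd rfl hne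
        · exact hp'q q' hq'
        · exact hqp' q hq
        · exact hF2 q hq q' hq' hne
    exact hnot (hFmax.le_of_ge hins (Set.subset_insert _ _) (Set.mem_insert _ _))
  obtain ⟨c, hc, hc1, hc2⟩ := hgc r p hrP hpP
  have hcp0 : c * p ≠ 0 := by
    intro h
    apply hnosub
    have h1 : (1 - c) * p = p := by rw [sub_mul, one_mul, h, sub_zero]
    rw [h1] at hc2
    refine sub_mono hc2 ?_
    show (1 - c) * r * r = (1 - c) * r
    rw [mul_assoc, pj_idem hrP]
  have hcg0 : c * g ≠ 0 := by
    intro h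
    apply hcp0
    have h1 : p * g = p := hle 0
    rw [← h1, ← hc.mid, h, mul_zero]
  have hEle : E * g = E := hEg
  refine ⟨c, hc, hcg0, inf2_data hSup hAddO (ι := ↥F) (q := fun i => c * i.1) (E := c * E)
    (pj_cmul hc hg) ?_ (fun i => pj_cmul hc (hF1 i.1 i.2).1) ?_
    (fun i => le_cmul hc (hF1 i.1 i.2).2.1) ?_ (isSup_cmul hc ⟨hEP, hE1, hE2⟩) ?_⟩
  · -- infinite
    apply Infinite.of_injective (fun n : ℕ => (⟨s n, hsub ⟨n, rfl⟩⟩ : ↥F))
    intro m n hmn
    by_contra hne
    have h1 : s m = s n := congrArg Subtype.val hmn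
    have h2 := horth' m n hne
    rw [← h1, pj_idem (hpj m)] at h2
    exact eqv_ne_zero (heqv m) hp0 h2
  · intro i j hij
    show c * i.1 * (c * j.1) = 0
    rw [hc.two, hF2 i.1 i.2 j.1 j.2 (fun h => hij (Subtype.ext h)), mul_zero]
  · intro i j
    exact eqv_cmul hc (Inf1.eqv_trans (hF1 i.1 i.2).1 hpP (Inf1.eqv_symm (hF1 i.1 i.2).2.2)
      (hF1 j.1 j.2).2.2)
  · intro i
    show Sub (c * g - c * E) (c * i.1)
    rw [← mul_sub]
    exact sub_trans' (pj_cmul hc hrP) (pj_cmul hc hpP) (pj_cmul hc (hF1 i.1 i.2).1) hc1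
      (sub_cmul hc (sub_of_eqv (hF1 i.1 i.2).1 (hF1 i.1 i.2).2.2))


end Pool.Agent.H43AW
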