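import Pool.Agent.H43AW.AddR
import Pool.Agent.R456.CL.Dich

/-!
# The reducing hull of a projection with a halving
-/

set_option autoImplicit false

namespace Pool.Agent.H43AW

open Pool.Agent.R456.CL

universe u

section

variable {A : Type u} [CStarAlgebra A]

/-- a sequence of partial isometries `k → k` with orthogonal ranges. -/
lemma hv_seq {k : A} (hk : PJ k) (h : HV k) : ∃ c : ℕ → A, (∀ n, star (c n) * c n = k) ∧
    (∀ m n, m ≠ n → star (c m) * c n = 0) ∧ ∀ n, k * c n = c n := by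
  obtain ⟨v₁, v₂, h1, h2, h12, hk1, hk2⟩ := hv_isom hk h
  obtain ⟨c, hc⟩ : ∃ c : ℕ → A, c = fun n => Nat.rec v₂ (fun _ b => v₁ * b) n := ⟨_, rfl⟩
  have c0 : c 0 = v₂ := by subst hc; rfl
  have cs : ∀ n, c (n + 1) = v₁ * c n := by intro n; subst hc; rfl
  have hkc : ∀ n, k * c n = c n := by
    intro n
    cases n with
    | zero => rw [c0, hk2]
    | succ n => rw [cs, ← mul_assoc, hk1]
  have hcc : ∀ n, star (c n) * c n = k := by
    intro n
    induction n with
    | zero => rw [c0, h2]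
    | succ n ih =>
      rw [cs, star_mul]
      calc star (c n) * star v₁ * (v₁ * c n) = star (c n) * ((star v₁ * v₁) * c n) := by
            simp only [mul_assoc]
        _ = k := by rw [h1, hkc, ih]
  have hlt : ∀ m n, m < n → star (c m) * c n = 0 := by
    intro m
    induction m with
    | zero =>
      intro n hn
      obtain ⟨j, rfl⟩ : ∃ j, n = j + 1 := ⟨n - 1, by omega⟩
      have h21 : star v₂ * v₁ = 0 := by
        have := congrArg star h12
        rwa [star_mul, star_star, star_zero] at this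
      rw [c0, cs, ← mul_assoc, h21, zero_mul]
    | succ m ih =>
      intro n hn
      obtain ⟨j, rfl⟩ : ∃ j, n = j + 1 := ⟨n - 1, by omega⟩
      rw [cs, cs, star_mul]
      calc star (c m) * star v₁ * (v₁ * c j) = star (c m) * ((star v₁ * v₁) * c j) := by
            simp only [mul_assoc]
        _ = 0 := by rw [h1, hkc, ih j (by omega)]
  refine ⟨c, hcc, ?_, hkc⟩
  intro m n hmn
  rcases lt_or_gt_of_ne hmn with h3 | h3
  · exact hlt m n h3
  · have := congrArg star (hlt n m h3)
    rwa [star_mul, star_star, star_zero] at this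

/-- countable orthogonal sums of projections `≲ k` are `≲ k`. -/
lemma sub_countable (hsup : PSup A) (haddR : PAddR A) {P k : A} (hP : PJ P) (hPhv : HV P)
    (hk : PJ k) (hkhv : HV k) (hkP : Le k P) {e : ULift.{u} ℕ → A} (he : ∀ i, PJ (e i))
    (ho : ∀ i j, i ≠ j → e i * e j = 0) (heP : ∀ i, Le (e i) P) (hs : ∀ i, Sub (e i) k)
    {E : A} (hE : IsSup e E) : Sub E k := by
  obtain ⟨c, hc1, hc2, hc3⟩ := hv_seq hk hkhv
  choose v hv1 hv2 using fun i => (Dich.sub_iff (he i) hk).1 (hs i)
  obtain ⟨w, hw⟩ : ∃ w : ULift.{u} ℕ → A, w = fun i => c i.down * v i := ⟨_, rfl⟩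
  have hwi : ∀ i, w i = c i.down * v i := fun i => by rw [hw]
  have hww : ∀ i, star (w i) * w i = e i := by
    intro i
    rw [hwi, star_mul]
    calc star (v i) * star (c i.down) * (c i.down * v i)
        = star (v i) * ((star (c i.down) * c i.down) * v i) := by simp only [mul_assoc]
      _ = e i := by rw [hc1, hv2, hv1]
  have hwo : ∀ i j, i ≠ j → star (w i) * w j = 0 := by
    intro i j hij
    rw [hwi, hwi, star_mul]
    calc star (v i) * star (c i.down) * (c j.down * v j)
        = star (v i) * ((star (c i.down) * c j.down) * v j) := by simp only [mul_assoc]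
      _ = 0 := by
        rw [hc2 _ _ (fun h => hij (ULift.ext _ _ h)), zero_mul, mul_zero]
  have hkw : ∀ i, k * w i = w i := by
    intro i
    rw [hwi, ← mul_assoc, hc3]
  have hPk : P * k = k := Le.rev hk hP hkP
  have hPw : ∀ i, P * w i = w i := by
    intro i
    rw [← hkw, ← mul_assoc, hPk]
  have hwe : ∀ i, w i * e i = w i := fun i => pi_right (he i) (hww i)
  have hwP : ∀ i, w i * P = w i := by
    intro i
    rw [← hwe, mul_assoc, show e i * P = e i from heP i]
  have hfin : ∀ i, PJ (w i * star (w i)) := fun i => pi_final (he i) (hww i)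
  obtain ⟨F, hF⟩ := hsup (ULift.{u} ℕ) (fun i => w i * star (w i)) hfin
  obtain ⟨u, hu1, hu2, -⟩ := haddR P hP hPhv (ULift.{u} ℕ) w E F hPw hwP
    (fun i => by rw [hww]; exact he i) (fun i j hij => by rw [hww, hww]; exact ho i j hij)
    (fun i j hij => by
      calc w i * star (w i) * (w j * star (w j)) = w i * (star (w i) * w j) * star (w j) := by
            simp only [mul_assoc]
        _ = 0 := by rw [hwo i j hij, mul_zero, zero_mul])
    (by
      have : (fun i => star (w i) * w i) = e := funext hww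
      rw [this]; exact hE) hF
  refine ⟨u, hu1, ?_⟩
  rw [hu2]
  have hkF : k * F = F := sup_leP hF (fun i => by rw [← mul_assoc, hkw])
  exact pj_symm hk hF.1 hkF

lemma sub_add_hv {p l k : A} (hp : PJ p) (hl : PJ l) (hk : PJ k) (hhv : HV k)
    (hpl : p * l = 0) (h1 : Sub p k) (h2 : Sub l k) : Sub (p + l) k := by
  obtain ⟨k1, k2, hk1, hk2, h12, hl1, hl2, he1, he2⟩ := hhv
  have h3 := Dich.sub_add hp hl hk1 hk2 hpl h12
    (sub_trans' hp hk hk1 h1 (sub_of_eqv hk1 he1)) (sub_trans' hl hk hk2 h2 (sub_of_eqv hk2 he2))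
  refine sub_mono h3 ?_
  show (k1 + k2) * k = k1 + k2
  rw [add_mul, hl1, hl2]

/-- enlarge `p` to absorb the range of `x`. -/
lemma hull_step (hlr : PLRR A) {P k p x : A} (hP : PJ P) (hPhv : HV P) (hk : PJ k)
    (hkhv : HV k) (hp : PJ p) (hpP : Le p P) (hpk : Sub p k) (hPx : P * x = x)
    (hxp : x * p = x) : ∃ p' : A, PJ p' ∧ Le p' P ∧ Sub p' k ∧ Le p p' ∧ p' * x = x := by
  have hpp := PJ.mul_self hp
  have hPp : P * p = p := Le.rev hp hP hpP
  obtain ⟨y, hy⟩ : ∃ y, y = x - p * x := ⟨_, rfl⟩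
  have hPy : P * y = y := by rw [hy, mul_sub, hPx, ← mul_assoc, hPp]
  have hyp : y * p = y := by rw [hy, sub_mul, mul_assoc, hxp]
  have hyP : y * P = y := by rw [← hyp, mul_assoc, show p * P = p from hpP]
  have hpy : p * y = 0 := by rw [hy, mul_sub, ← mul_assoc, hpp, sub_self]
  obtain ⟨w, r, l, hr, hl, hw1, hw2, hyr, hly, hr0, hl0⟩ := hlr P hP hPhv y hPy hyP
  have hpl : p * l = 0 := hl0 p hpy
  have hrp : r * p = r := by
    have h1 : r * (1 - p) = 0 := hr0 (1 - p) (by rw [mul_sub, mul_one, hyp, sub_self])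
    rw [mul_sub, mul_one, sub_eq_zero] at h1
    exact h1.symm
  have hPl : P * l = l := by
    have h1 : (1 - P) * l = 0 := hl0 (1 - P) (by rw [sub_mul, one_mul, hPy, sub_self])
    rw [sub_mul, one_mul, sub_eq_zero] at h1
    exact h1.symm
  have hlP : l * P = l := pj_symm hP hl hPl
  have hlr' : Sub l r := sub_of_eqv hr (eqv_symm ⟨w, hw1, hw2⟩)
  have hlk : Sub l k := sub_trans' hl hr hk hlr'
    (sub_trans' hr hp hk (sub_of_le hr hrp) hpk)
  refine ⟨p + l, pj_add hp hl hpl, ?_, sub_add_hv hp hl hk hkhv hpl hpk hlk, ?_, ?_⟩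
  · show (p + l) * P = p + l
    rw [add_mul, show p * P = p from hpP, hlP]
  · show p * (p + l) = p
    rw [mul_add, hpp, hpl, add_zero]
  · have hxy : x = p * x + y := by rw [hy]; abel
    have hlx : l * x = y := by
      nth_rewrite 1 [hxy]
      rw [mul_add, ← mul_assoc, orth_comm hp hl hpl, zero_mul, zero_add, hly]
    rw [add_mul, hlx, ← hxy]

end

theorem hull_ok : St_Hull.{u} := by
  classical
  intro A _ _ hsup _ haddR hlr P k T hP hPhv hk hkhv hkP hPT hTP
  have hPsT : P * star T = star T := star_absorb_right hP hTP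
  obtain ⟨C, hC⟩ : ∃ C : A → Prop, C = fun p => PJ p ∧ Le p P ∧ Sub p k := ⟨_, rfl⟩
  have hst : ∀ p : A, C p → ∃ q : A, C q ∧ Le p q ∧ q * (T * p) = T * p ∧
      q * (star T * p) = star T * p := by
    intro p hp
    rw [hC] at hp
    obtain ⟨hp1, hp2, hp3⟩ := hp
    obtain ⟨q, hq1, hq2, hq3, hq4, hq5⟩ := hull_step hlr (x := T * p) hP hPhv hk hkhv hp1 hp2 hp3
      (by rw [← mul_assoc, hPT]) (by rw [mul_assoc, PJ.mul_self hp1])
    obtain ⟨q', hr1, hr2, hr3, hr4, hr5⟩ := hull_step hlr (x := star T * p) hP hPhv hk hkhv hq1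
      hq2 hq3 (by rw [← mul_assoc, hPsT]) (by rw [mul_assoc, show p * q = p from hq4])
    refine ⟨q', ?_, ?_, ?_, hr5⟩
    · rw [hC]; exact ⟨hr1, hr2, hr3⟩
    · show p * q' = p
      rw [← show p * q = p from hq4, mul_assoc, show q * q' = q from hr4]
    · have h1 : q' * q = q := Le.rev hq1 hr1 hr4
      rw [← hq5, ← mul_assoc, h1]
  choose! N hN1 hN2 hN3 hN4 using hst
  obtain ⟨s, hs⟩ : ∃ s : ℕ → A, s = fun n => Nat.rec k (fun _ b => N b) n := ⟨_, rfl⟩
  have hs0 : s 0 = k := by subst hs; rfl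
  have hss : ∀ n, s (n + 1) = N (s n) := by intro n; subst hs; rfl
  have hsC : ∀ n, C (s n) := by
    intro n
    induction n with
    | zero => rw [hs0, hC]; exact ⟨hk, hkP, sub_refl hk⟩
    | succ n ih => rw [hss]; exact hN1 _ ih
  have hsP : ∀ n, PJ (s n) := fun n => by have := hsC n; rw [hC] at this; exact this.1
  have hsle : ∀ n, Le (s n) P := fun n => by have := hsC n; rw [hC] at this; exact this.2.1
  have hssub : ∀ n, Sub (s n) k := fun n => by have := hsC n; rw [hC] at this; exact this.2.2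
  have hmono1 : ∀ n, Le (s n) (s (n + 1)) := fun n => by rw [hss]; exact hN2 _ (hsC n)
  have hmono : ∀ n m, n ≤ m → Le (s n) (s m) := by
    intro n m hnm
    induction m, hnm using Nat.le_induction with
    | base => exact PJ.mul_self (hsP n)
    | succ m _ ih =>
      show s n * s (m + 1) = s n
      rw [← show s n * s m = s n from ih, mul_assoc, show s m * s (m + 1) = s m from hmono1 m]
  -- differences
  obtain ⟨d, hd⟩ : ∃ d : ULift.{u} ℕ → A, d = fun i => match i.down with
    | 0 => s 0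
    | n + 1 => s (n + 1) - s n := ⟨_, rfl⟩
  have hd0 : d ⟨0⟩ = s 0 := by subst hd; rfl
  have hds : ∀ n, d ⟨n + 1⟩ = s (n + 1) - s n := by intro n; subst hd; rfl
  have hdP : ∀ i, PJ (d i) := by
    rintro ⟨n⟩
    cases n with
    | zero => rw [hd0]; exact hsP 0
    | succ n => rw [hds]; exact pj_sub (hsP n) (hsP (n + 1)) (hmono1 n)
  have hdle : ∀ n, Le (d ⟨n⟩) (s n) := by
    intro n
    cases n with
    | zero => rw [hd0]; exact PJ.mul_self (hsP 0)
    | succ n =>
      rw [hds]
      show (s (n + 1) - s n) * s (n + 1) = s (n + 1) - s n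
      rw [sub_mul, PJ.mul_self (hsP _), show s n * s (n + 1) = s n from hmono1 n]
  have hlt : ∀ m n, m < n → d ⟨m⟩ * d ⟨n⟩ = 0 := by
    intro m n hmn
    obtain ⟨j, rfl⟩ : ∃ j, n = j + 1 := ⟨n - 1, by omega⟩
    have h1 : s m * d ⟨j + 1⟩ = 0 := by
      rw [hds, mul_sub, show s m * s (j + 1) = s m from hmono m (j + 1) (by omega),
        show s m * s j = s m from hmono m j (by omega), sub_self]
    rw [← show d ⟨m⟩ * s m = d ⟨m⟩ from hdle m, mul_assoc, h1, mul_zero]
  have hdo : ∀ i j, i ≠ j → d i * d j = 0 := by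
    rintro ⟨m⟩ ⟨n⟩ hij
    have hne : m ≠ n := fun h => hij (by rw [h])
    rcases lt_or_gt_of_ne hne with h | h
    · exact hlt m n h
    · exact orth_comm (hdP _) (hdP _) (hlt n m h)
  have hdleP : ∀ i, Le (d i) P := by
    rintro ⟨n⟩
    show d ⟨n⟩ * P = d ⟨n⟩
    rw [← show d ⟨n⟩ * s n = d ⟨n⟩ from hdle n, mul_assoc, show s n * P = s n from hsle n]
  have hdsub : ∀ i, Sub (d i) k := by
    rintro ⟨n⟩
    exact sub_trans' (hdP _) (hsP n) hk (sub_of_le (hdP _) (hdle n)) (hssub n)
  obtain ⟨h, hh⟩ := hsup (ULift.{u} ℕ) d hdP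
  have hhP := hh.1
  -- `s n ≤ h`
  have hsh : ∀ n, Le (s n) h := by
    intro n
    induction n with
    | zero => rw [← hd0]; exact hh.2.1 ⟨0⟩
    | succ n ih =>
      have h1 : s (n + 1) = d ⟨n + 1⟩ + s n := by rw [hds]; abel
      show s (n + 1) * h = s (n + 1)
      rw [h1, add_mul, hh.2.1 ⟨n + 1⟩, show s n * h = s n from ih]
  -- annihilation along the sequence gives annihilation of `h`
  have hann : ∀ x : A, (∀ n, x * s n = 0) → x * h = 0 := by
    intro x hx
    refine hh.2.2 x ?_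
    rintro ⟨n⟩
    have h1 : s n * d ⟨n⟩ = d ⟨n⟩ := Le.rev (hdP _) (hsP n) (hdle n)
    rw [← h1, ← mul_assoc, hx, zero_mul]
  have hkey : ∀ S : A, (∀ n, s (n + 1) * (S * s n) = S * s n) → S * h = h * S * h := by
    intro S hS
    have h1 : (1 - h) * S * h = 0 := by
      refine hann _ (fun n => ?_)
      have h2 : h * s (n + 1) = s (n + 1) := Le.rev (hsP _) hhP (hsh _)
      have h3 : h * (S * s n) = S * s n := by rw [← hS n, ← mul_assoc, h2]
      rw [mul_assoc, sub_mul, one_mul, h3, sub_self]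
    rw [sub_mul, sub_mul, one_mul, sub_eq_zero] at h1
    exact h1
  have k1 := hkey T (fun n => by rw [hss]; exact hN3 _ (hsC n))
  have k2 := hkey (star T) (fun n => by rw [hss]; exact hN4 _ (hsC n))
  have k3 := congrArg star k2
  rw [star_mul, star_mul, star_mul, star_star, PJ.star hhP] at k3
  refine ⟨h, hhP, by rw [← hs0]; exact hsh 0, ?_, ?_, sub_countable hsup haddR hP hPhv hk hkhv hkP
    hdP hdo hdleP hdsub hh⟩
  · exact pj_symm hP hhP (sup_leP hh (fun i => Le.rev (hdP i) hP (hdleP i)))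
  · exact k3.trans (by rw [← mul_assoc]; exact k1.symm)

end Pool.Agent.H43AW
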