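import Pool.Agent.R456.CL.CaseA
import Pool.Agent.R456.CL.Sup

/-!
# Central projections in C*-algebras with enough projections
-/

set_option autoImplicit false

namespace Pool.Agent.H43AW

open Pool.Agent.R456.CL

universe u

variable {A : Type u} [CStarAlgebra A]

/-- `z` is a central projection. -/
def CP (z : A) : Prop := PJ z ∧ ∀ x : A, z * x = x * z

/-- `g` has a halving: it contains two orthogonal copies of itself. -/
def HV (g : A) : Prop := ∃ g1 g2 : A, PJ g1 ∧ PJ g2 ∧ g1 * g2 = 0 ∧ Le g1 g ∧ Le g2 g ∧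
  Eqv g g1 ∧ Eqv g g2

/-- `k` is small with respect to `g` below the central projection `z`. -/
def Small (z g k : A) : Prop := ∀ c : A, CP c → c * z = c → c ≠ 0 → ¬ Sub (c * g) (c * k)

lemma pj_mk {p : A} (h1 : p * p = p) (h2 : star p = p) : PJ p := ⟨h1, h2⟩

lemma pj_one : PJ (1 : A) := ⟨mul_one 1, star_one A⟩

lemma cp_one : CP (1 : A) := ⟨pj_one, fun x => by rw [one_mul, mul_one]⟩

lemma CP.pj {z : A} (h : CP z) : PJ z := h.1

lemma CP.comm {z : A} (h : CP z) (x : A) : z * x = x * z := h.2 x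

lemma CP.idem {z : A} (h : CP z) : z * z = z := PJ.mul_self h.1

lemma CP.st {z : A} (h : CP z) : star z = z := PJ.star h.1

/-- absorb repeated central projections. -/
lemma CP.two {z : A} (h : CP z) (x y : A) : z * x * (z * y) = z * (x * y) := by
  rw [mul_assoc, ← mul_assoc x z, ← h.comm x, mul_assoc z x, ← mul_assoc z z, h.idem]

lemma CP.mid {z : A} (h : CP z) (x y : A) : x * (z * y) = z * (x * y) := by
  rw [← mul_assoc, ← h.comm, mul_assoc]

lemma CP.mul {z w : A} (hz : CP z) (hw : CP w) : CP (z * w) := by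
  refine ⟨pj_mk ?_ ?_, fun x => ?_⟩
  · rw [hz.two, hw.idem]
  · rw [star_mul, hz.st, hw.st, hw.comm]
  · rw [mul_assoc, hw.comm, ← mul_assoc, hz.comm, mul_assoc]

lemma CP.compl {z : A} (hz : CP z) : CP (1 - z) := by
  refine ⟨pj_mk ?_ ?_, fun x => ?_⟩
  · rw [sub_mul, one_mul, mul_sub, mul_one, hz.idem, sub_self, sub_zero]
  · rw [star_sub, star_one, hz.st]
  · rw [sub_mul, mul_sub, one_mul, mul_one, hz.comm]

lemma CP.sub {z w : A} (hz : CP z) (hw : CP w) (h : w * z = w) : CP (z - w) := by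
  have : z - w = (1 - w) * z := by rw [sub_mul, one_mul, h]
  rw [this]
  exact (hw.compl).mul hz

lemma pj_cmul {z p : A} (hz : CP z) (hp : PJ p) : PJ (z * p) := by
  refine pj_mk ?_ ?_
  · rw [hz.two, PJ.mul_self hp]
  · rw [star_mul, hz.st, PJ.star hp, hz.comm]

lemma star_cmul {z : A} (hz : CP z) (x : A) : star (z * x) = z * star x := by
  rw [star_mul, hz.st, hz.comm]

lemma sub_cmul {z p q : A} (hz : CP z) (h : Sub p q) : Sub (z * p) (z * q) := by
  obtain ⟨v, h1, h2⟩ := h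
  refine ⟨z * v, ?_, ?_⟩
  · rw [star_cmul hz, hz.two, h1]
  · rw [star_cmul hz, hz.two, hz.two, h2]

lemma eqv_cmul {z p q : A} (hz : CP z) (h : Eqv p q) : Eqv (z * p) (z * q) := by
  obtain ⟨v, h1, h2⟩ := h
  refine ⟨z * v, ?_, ?_⟩
  · rw [star_cmul hz, hz.two, h1]
  · rw [star_cmul hz, hz.two, h2]

lemma le_cmul {z p q : A} (hz : CP z) (h : Le p q) : Le (z * p) (z * q) := by
  show z * p * (z * q) = z * p
  rw [hz.two, show p * q = p from h]

lemma le_cmul_left {z p q : A} (h : Le p q) : Le (z * p) q := by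
  show z * p * q = z * p
  rw [mul_assoc, show p * q = p from h]

lemma le_cmul_z {z : A} (hz : CP z) (p : A) : Le (z * p) z := by
  show z * p * z = z * p
  rw [mul_assoc, ← hz.comm p, ← mul_assoc, hz.idem]

lemma hv_cmul {z g : A} (hz : CP z) (h : HV g) : HV (z * g) := by
  obtain ⟨g1, g2, h1, h2, h12, hl1, hl2, he1, he2⟩ := h
  refine ⟨z * g1, z * g2, pj_cmul hz h1, pj_cmul hz h2, ?_, le_cmul hz hl1, le_cmul hz hl2,
    eqv_cmul hz he1, eqv_cmul hz he2⟩
  rw [hz.two, h12, mul_zero]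

lemma isSup_cmul {ι : Type*} {z : A} (hz : CP z) {e : ι → A} {E : A} (h : IsSup e E) :
    IsSup (fun i => z * e i) (z * E) := by
  obtain ⟨h1, h2, h3⟩ := h
  refine ⟨pj_cmul hz h1, fun i => ?_, fun x hx => ?_⟩
  · show z * e i * (z * E) = z * e i
    rw [hz.two, h2]
  · rw [← mul_assoc]
    apply h3
    intro i
    rw [mul_assoc]
    exact hx i

lemma Small.mono {z z' g k : A} (h : Small z g k) (hz : z' * z = z') : Small z' g k := by
  intro c hc hcz hc0
  exact h c hc (by rw [← hcz, mul_assoc, hz]) hc0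

lemma sub_mono {p q r : A} (h : Sub p q) (h' : Le q r) :
    Sub p r := by
  obtain ⟨v, h1, h2⟩ := h
  refine ⟨v, h1, ?_⟩
  rw [← h2, mul_assoc, show q * r = q from h']

/-- restricting smallness to a smaller projection. -/
lemma Small.left {z g k l : A} (hg : PJ g) (hk : PJ k) (hl : PJ l) (h : Small z g k)
    (hlk : Sub l k) : Small z g l := by
  intro c hc hcz hc0 hs
  exact h c hc hcz hc0 (sub_trans' (pj_cmul hc hg) (pj_cmul hc hl) (pj_cmul hc hk) hs
    (sub_cmul hc hlk))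

lemma sub_refl {p : A} (hp : PJ p) : Sub p p :=
  ⟨p, by rw [PJ.star hp, PJ.mul_self hp], by rw [PJ.star hp, PJ.mul_self hp, PJ.mul_self hp]⟩

lemma sub_of_le {p q : A} (hp : PJ p) (h : Le p q) : Sub p q :=
  ⟨p, by rw [PJ.star hp, PJ.mul_self hp], by
    rw [PJ.star hp, PJ.mul_self hp, show p * q = p from h]⟩

lemma sub_zero_left (q : A) : Sub 0 q := ⟨0, by simp, by simp⟩

/-- the kernel projection of `x`. -/
lemma ker_pj (hsup : PSup A) (hcut : PCut A) (x : A) :
    ∃ N : A, PJ N ∧ x * N = 0 ∧ ∀ y : A, x * y = 0 → N * y = y := by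
  obtain ⟨N, hN⟩ := hsup {q : A // PJ q ∧ x * q = 0} (fun q => (q : A)) (fun q => q.2.1)
  have hxN : x * N = 0 := hN.2.2 x (fun q => q.2.2)
  refine ⟨N, hN.1, hxN, fun y hy => ?_⟩
  by_contra hne
  obtain ⟨y', hy'⟩ : ∃ y', y' = (1 - N) * y := ⟨_, rfl⟩
  have hy0 : y' ≠ 0 := by
    rw [hy', sub_mul, one_mul]
    intro h
    exact hne (sub_eq_zero.1 h).symm
  have hxy' : x * y' = 0 := by
    rw [hy', sub_mul, one_mul, mul_sub, hy, ← mul_assoc, hxN, zero_mul, sub_self]
  have hNy' : N * y' = 0 := by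
    rw [hy', ← mul_assoc, mul_sub, mul_one, PJ.mul_self hN.1, sub_self, zero_mul]
  obtain ⟨k, s, hk0, hk, -, -, h2⟩ := Sup.cut_ne hcut (y := star y') (by simpa using hy0)
  rw [star_star] at h2
  have hxk : x * k = 0 := by rw [← h2]; simp only [← mul_assoc]; rw [hxy']; simp
  have hNk : N * k = 0 := by rw [← h2]; simp only [← mul_assoc]; rw [hNy']; simp
  have hkN : k * N = k := hN.2.1 ⟨k, hk, hxk⟩
  have h3 : N * k = k := Le.rev hk hN.1 hkN
  exact hk0 (h3.symm.trans hNk)

/-- the projections `e` with `e A f = 0` lie below a central projection orthogonal to `f`. -/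
lemma ann_cp (hS : PSup A) (hC : PCut A) {f : A} (hf : PJ f) :
    ∃ c : A, CP c ∧ f * c = 0 ∧ ∀ e : A, PJ e → (∀ x : A, e * x * f = 0) → e * c = e := by
  obtain ⟨c, hc⟩ := hS {p : A // PJ p ∧ ∀ x : A, p * x * f = 0} (fun p => (p : A))
    (fun p => p.2.1)
  have hfc : f * c = 0 := hc.2.2 f fun p => by
    have h1 := p.2.2 1
    rw [mul_one] at h1
    exact orth_comm p.2.1 hf h1
  have hcp : ∀ p : {p : A // PJ p ∧ ∀ x : A, p * x * f = 0}, c * (p : A) = p := fun p =>
    Le.rev p.2.1 hc.1 (hc.2.1 p)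
  have h1c : PJ (1 - c) := pj_sub hc.1 pj_one (mul_one c)
  have hcen : ∀ x : A, (1 - c) * x * c = 0 := by
    intro x
    refine hc.2.2 _ fun p => ?_
    by_contra hne
    have hne' : star ((1 - c) * x * (p : A)) ≠ 0 := fun h => hne (star_eq_zero.1 h)
    obtain ⟨k, s, hk0, hk, hs, h1, h2⟩ := Sup.cut_ne hC hne'
    rw [star_star] at h1 h2
    have h3 : c * k = 0 := by
      rw [← h2]
      simp only [← mul_assoc, mul_sub, mul_one, PJ.mul_self hc.1, sub_self, zero_mul]
    have h4 : ∀ z : A, k * z * f = 0 := by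
      intro z
      have h5 := p.2.2 (star x * (1 - c) * z)
      rw [← h1, star_mul, star_mul, PJ.star p.2.1, PJ.star h1c]
      have h6 : s * s * ((1 - c) * x * (p : A) * ((p : A) * (star x * (1 - c)))) * z * f =
          s * s * ((1 - c) * x * (p : A)) * ((p : A) * (star x * (1 - c) * z) * f) := by
        simp only [mul_assoc]
      rw [h6, h5, mul_zero]
    have h5 := hcp ⟨k, hk, h4⟩
    exact hk0 (h5.symm.trans h3)
  have hcen' : ∀ x : A, c * x * (1 - c) = 0 := by
    intro x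
    have h1 := congrArg star (hcen (star x))
    rw [star_mul, star_mul, star_star, PJ.star hc.1, PJ.star h1c, star_zero,
      ← mul_assoc] at h1
    exact h1
  refine ⟨c, ⟨hc.1, fun x => ?_⟩, hfc, fun e he hef => hc.2.1 ⟨e, he, hef⟩⟩
  have h1 := hcen x
  have h2 := hcen' x
  rw [sub_mul, sub_mul, one_mul, sub_eq_zero] at h1
  rw [mul_sub, mul_one, sub_eq_zero] at h2
  rw [h2, ← h1]

end Pool.Agent.H43AW
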