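import Pool.Agent.H43AW.K0
import Pool.Agent.R456.CL.CmpO
import Pool.Agent.R456.CL.Dich

/-!
# Generalized comparability
-/

set_option autoImplicit false

namespace Pool.Agent.H43AW

open Pool.Agent.R456.CL

universe u

variable {A : Type u} [CStarAlgebra A]

/-- maximal partial matching of two orthogonal projections. -/
lemma max_pair (hCut : PCut A) (hSup : PSupO A) (hAdd : PAddO A) {e f : A} (he : PJ e) (hf : PJ f)
    (hef : e * f = 0) : ∃ E F v : A, PJ E ∧ PJ F ∧ Le E e ∧ Le F f ∧ star v * v = E ∧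
      v * star v = F ∧ ∀ x : A, (f - F) * x * (e - E) = 0 := by
  have hfe : f * e = 0 := orth_comm he hf hef
  obtain ⟨W, hW⟩ := CmpO.exists_max e f
  have hG := hW.1
  have hinj : ∀ i j : W, i ≠ j → (i : A) ≠ (j : A) := fun i j h h' => h (Subtype.ext h')
  have hPi : ∀ i : W, IsStarProjection (star (i : A) * (i : A)) := fun i => (hG.1 i i.2).2.1
  have hPf : ∀ i : W, IsStarProjection ((i : A) * star (i : A)) := fun i =>
    CmpO.final_proj (hPi i)
  obtain ⟨E, hE⟩ := hSup W (fun i => star (i : A) * (i : A)) hPi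
    (fun i j h => (hG.2 i i.2 j j.2 (hinj i j h)).1)
  obtain ⟨F, hF⟩ := hSup W (fun i => (i : A) * star (i : A)) hPf
    (fun i j h => (hG.2 i i.2 j j.2 (hinj i j h)).2)
  have hEP : IsStarProjection E := hE.1
  have hFP : IsStarProjection F := hF.1
  have heE : e * E = E := by
    have h1 : (1 - e) * E = 0 := by
      apply hE.2.2
      intro i
      have h2 : e * (star (i : A) * (i : A)) = star (i : A) * (i : A) :=
        Le.rev (hPi i) he (hG.1 i i.2).2.2.1
      rw [sub_mul, one_mul, h2, sub_self]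
    rw [sub_mul, one_mul, sub_eq_zero] at h1
    exact h1.symm
  have hfF : f * F = F := by
    have h1 : (1 - f) * F = 0 := by
      apply hF.2.2
      intro i
      have h2 : f * ((i : A) * star (i : A)) = (i : A) * star (i : A) :=
        Le.rev (hPf i) hf (hG.1 i i.2).2.2.2
      rw [sub_mul, one_mul, h2, sub_self]
    rw [sub_mul, one_mul, sub_eq_zero] at h1
    exact h1.symm
  have hEe : E * e = E := by
    have := congrArg star heE
    rwa [star_mul, PJ.star he, PJ.star hEP] at this
  have hFf : F * f = F := by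
    have := congrArg star hfF
    rwa [star_mul, PJ.star hf, PJ.star hFP] at this
  have hEF : E * F = 0 := by
    rw [← hEe, ← hfF, mul_assoc, ← mul_assoc e f F, hef, zero_mul, mul_zero]
  obtain ⟨v, hv1, hv2, -⟩ := hAdd W (fun i => (i : A)) E F hPi
    (fun i j h => (hG.2 i i.2 j j.2 (hinj i j h)).1)
    (fun i j h => (hG.2 i i.2 j j.2 (hinj i j h)).2) hE hF hEF
  have hPfF : IsStarProjection (f - F) := pj_sub hFP hf hFf
  have hPeE : IsStarProjection (e - E) := pj_sub hEP he hEe
  refine ⟨E, F, v, hEP, hFP, hEe, hFf, hv1, hv2, ?_⟩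
  by_contra hx
  push Not at hx
  obtain ⟨x, hx⟩ := hx
  set y := (f - F) * x * (e - E) with hy
  have hye : y * (e - E) = y := by
    rw [hy, mul_assoc, hPeE.isIdempotentElem]
  have hfy : (f - F) * y = y := by
    rw [hy, ← mul_assoc, ← mul_assoc, hPfF.isIdempotentElem]
  have hypos : 0 < ‖y‖ := norm_pos_iff.2 hx
  obtain ⟨k, s, hk, hks, hsk, hss, hcomm, hssy, hyss, hsys, hnorm⟩ :=
    hCut y (‖y‖ / 2) (by linarith)
  have hk0 : k ≠ 0 := by
    intro h
    rw [h, sub_zero, mul_one] at hnorm
    linarith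
  have hkeE : k * (e - E) = k := by
    calc k * (e - E) = s * s * (star y * (y * (e - E))) := by rw [← hssy]; noncomm_ring
      _ = k := by rw [hye, hssy]
  have hke : k * e = k := by
    have h1 : (e - E) * e = e - E := by
      rw [sub_mul, hEe, show e * e = e from he.isIdempotentElem]
    rw [← hkeE, mul_assoc, h1]
  have hkE : k * E = 0 := by
    have h1 : (e - E) * E = 0 := by
      rw [sub_mul, heE, show E * E = E from hEP.isIdempotentElem, sub_self]
    rw [← hkeE, mul_assoc, h1, mul_zero]
  set w := y * s with hw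
  have hww : star w * w = k := by
    rw [hw, star_mul, hss, ← hsys]
    noncomm_ring
  have hwP : IsStarProjection (star w * w) := by rw [hww]; exact hk
  have hwF : (f - F) * w = w := by rw [hw, ← mul_assoc, hfy]
  have hwwf : (w * star w) * (f - F) = w * star w := by
    have h1 : star w * (f - F) = star w := by
      have := congrArg star hwF
      rwa [star_mul, hPfF.isSelfAdjoint.star_eq] at this
    rw [mul_assoc, h1]
  have hwf : (w * star w) * f = w * star w := by
    have h1 : (f - F) * f = f - F := by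
      rw [sub_mul, hFf, show f * f = f from hf.isIdempotentElem]
    rw [← hwwf, mul_assoc, h1]
  have hwF0 : (w * star w) * F = 0 := by
    have h1 : (f - F) * F = 0 := by
      rw [sub_mul, hfF, show F * F = F from hFP.isIdempotentElem, sub_self]
    rw [← hwwf, mul_assoc, h1, mul_zero]
  have hw0 : w ≠ 0 := by
    intro h
    apply hk0
    rw [← hww, h, mul_zero]
  have ho1 : ∀ i ∈ W, (star w * w) * (star i * i) = 0 := by
    intro i hi
    have h1 : E * (star i * i) = star i * i :=
      Le.rev (hPi ⟨i, hi⟩) hEP (hE.2.1 ⟨i, hi⟩)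
    rw [hww, ← h1, ← mul_assoc, hkE, zero_mul]
  have ho2 : ∀ i ∈ W, (w * star w) * (i * star i) = 0 := by
    intro i hi
    have h1 : F * (i * star i) = i * star i :=
      Le.rev (hPf ⟨i, hi⟩) hFP (hF.2.1 ⟨i, hi⟩)
    rw [← h1, ← mul_assoc, hwF0, zero_mul]
  have ho1' : ∀ i ∈ W, (star i * i) * (star w * w) = 0 := by
    intro i hi
    have := congrArg star (ho1 i hi)
    simpa [mul_assoc] using this
  have ho2' : ∀ i ∈ W, (i * star i) * (w * star w) = 0 := by
    intro i hi
    have := congrArg star (ho2 i hi)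
    simpa [mul_assoc] using this
  have hwW : w ∉ W := by
    intro h
    have h1 := ho1 w h
    rw [hww, show k * k = k from hk.isIdempotentElem] at h1
    exact hk0 h1
  have hgood : CmpO.Good e f (insert w W) := by
    refine ⟨?_, ?_⟩
    · rintro a (rfl | ha)
      · exact ⟨hw0, hwP, by rw [hww, hke], hwf⟩
      · exact hG.1 a ha
    · rintro a ha b hb hne
      rcases ha with rfl | ha <;> rcases hb with rfl | hb
      · exact absurd rfl hne
      · exact ⟨ho1 b hb, ho2 b hb⟩
      · exact ⟨ho1' a ha, ho2' a ha⟩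
      · exact hG.2 a ha b hb hne
  have := hW.2 hgood (Set.subset_insert w W)
  exact hwW (this (Set.mem_insert w W))

/-- generalized comparability of orthogonal projections. -/
lemma gcO (hCut : PCut A) (hSup : PSup A) (hSupO : PSupO A) (hAdd : PAddO A) {e f : A}
    (he : PJ e) (hf : PJ f) (hef : e * f = 0) :
    ∃ c : A, CP c ∧ Sub (c * e) (c * f) ∧ Sub ((1 - c) * f) ((1 - c) * e) := by
  obtain ⟨E, F, v, hE, hF, hEe, hFf, hv1, hv2, hx⟩ := max_pair hCut hSupO hAdd he hf hef
  obtain ⟨c, hc, h1, h2⟩ := ann_cp hSup hCut (pj_sub hE he hEe)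
  have h3 : (f - F) * c = f - F := h2 _ (pj_sub hF hf hFf) hx
  have h4 : c * e = c * E := by
    rw [← hc.comm, mul_sub, sub_eq_zero] at h1
    exact h1
  have h5 : (1 - c) * f = (1 - c) * F := by
    rw [← hc.comm] at h3
    have : (1 - c) * (f - F) = 0 := by rw [sub_mul, one_mul, h3, sub_self]
    rw [mul_sub, sub_eq_zero] at this
    exact this
  refine ⟨c, hc, ?_, ?_⟩
  · rw [h4]
    exact sub_cmul hc ⟨v, hv1, by rw [hv2]; exact hFf⟩
  · rw [h5]
    exact sub_cmul hc.compl ⟨star v, by rw [star_star, hv2], by rw [star_star, hv1]; exact hEe⟩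

/-- generalized comparability. -/
def PGC (A : Type u) [CStarAlgebra A] : Prop := ∀ e f : A, PJ e → PJ f →
  ∃ c : A, CP c ∧ Sub (c * e) (c * f) ∧ Sub ((1 - c) * f) ((1 - c) * e)

/-- two projections: the part in general position is exchanged by a symmetry, the rest is
orthogonal. -/
lemma two_proj (hCut : PCut A) (hSup : PSup A) {e f : A} (he : PJ e) (hf : PJ f) :
    ∃ r : A, PJ r ∧ r * e = e * r ∧ r * f = f * r ∧ Eqv (e * r) (f * r) ∧
      e * (1 - r) * (f * (1 - r)) = 0 := by
  let _ : PartialOrder A := CStarAlgebra.spectralOrder A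
  let _ : StarOrderedRing A := CStarAlgebra.spectralOrderedRing A
  have hee := PJ.mul_self he
  have hff := PJ.mul_self hf
  have hes := PJ.star he
  have hfs := PJ.star hf
  obtain ⟨a, ha⟩ : ∃ a, a = e + f - 1 := ⟨_, rfl⟩
  have hsa : star a = a := by rw [ha, star_sub, star_add, hes, hfs, star_one]
  have hae : a * e = f * e := by rw [ha, sub_mul, add_mul, hee, one_mul]; abel
  have hfa : f * a = f * e := by rw [ha, mul_sub, mul_add, hff, mul_one]; abel
  have haf : a * f = e * f := by rw [ha, sub_mul, add_mul, hff, one_mul]; abel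
  have hea : e * a = e * f := by rw [ha, mul_sub, mul_add, hee, mul_one]; abel
  have hbe : (a * a) * e = e * (a * a) := by
    calc (a * a) * e = a * (f * e) := by rw [mul_assoc, hae]
      _ = (e * f) * e := by rw [← mul_assoc, haf]
      _ = e * (f * e) := by rw [mul_assoc]
      _ = e * (f * a) := by rw [hfa]
      _ = (e * a) * a := by rw [← mul_assoc, hea]
      _ = e * (a * a) := by rw [mul_assoc]
  have hbf : (a * a) * f = f * (a * a) := by
    calc (a * a) * f = a * (e * f) := by rw [mul_assoc, haf]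
      _ = (f * e) * f := by rw [← mul_assoc, hae]
      _ = f * (e * f) := by rw [mul_assoc]
      _ = f * (e * a) := by rw [hea]
      _ = (f * a) * a := by rw [← mul_assoc, hfa]
      _ = f * (a * a) := by rw [mul_assoc]
  have hbpos : 0 ≤ a * a := by
    have := star_mul_self_nonneg a
    rwa [hsa] at this
  obtain ⟨m, hm⟩ : ∃ m : A, m = CFC.sqrt (a * a) := ⟨_, rfl⟩
  have hmm : m * m = a * a := by rw [hm]; exact CFC.sqrt_mul_sqrt_self _ hbpos
  have hms : star m = m := by
    rw [hm]; exact (IsSelfAdjoint.of_nonneg (CFC.sqrt_nonneg _)).star_eq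
  have hme : m * e = e * m := by
    rw [hm]; exact ((show Commute (a * a) e from hbe).cfcₙ_nnreal NNReal.sqrt)
  have hmf : m * f = f * m := by
    rw [hm]; exact ((show Commute (a * a) f from hbf).cfcₙ_nnreal NNReal.sqrt)
  have hma : m * a = a * m := by
    rw [hm]
    exact ((show Commute (a * a) a from by
      show a * a * a = a * (a * a)
      rw [mul_assoc]).cfcₙ_nnreal NNReal.sqrt)
  -- positive and negative parts (doubled)
  obtain ⟨P, hP⟩ : ∃ P, P = m + a := ⟨_, rfl⟩
  obtain ⟨Q, hQ⟩ : ∃ Q, Q = m - a := ⟨_, rfl⟩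
  have hPs : star P = P := by rw [hP, star_add, hms, hsa]
  have hQs : star Q = Q := by rw [hQ, star_sub, hms, hsa]
  have hPQ : P * Q = 0 := by
    rw [hP, hQ, add_mul, mul_sub, mul_sub, hmm, hma]; abel
  have hQP : Q * P = 0 := by
    have := congrArg star hPQ
    rwa [star_mul, hPs, hQs, star_zero] at this
  obtain ⟨N1, hN1, hPN1, hk1⟩ := ker_pj hSup hCut P
  obtain ⟨N2, hN2, hQN2, hk2⟩ := ker_pj hSup hCut Q
  obtain ⟨p, hp⟩ : ∃ p, p = 1 - N1 := ⟨_, rfl⟩
  obtain ⟨q, hq⟩ : ∃ q, q = 1 - N2 := ⟨_, rfl⟩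
  have hpp : PJ p := by rw [hp]; exact pj_sub hN1 pj_one (mul_one _)
  have hqq : PJ q := by rw [hq]; exact pj_sub hN2 pj_one (mul_one _)
  have hPp : P * p = P := by rw [hp, mul_sub, mul_one, hPN1, sub_zero]
  have hQq : Q * q = Q := by rw [hq, mul_sub, mul_one, hQN2, sub_zero]
  have hpP : p * P = P := by
    have := congrArg star hPp
    rwa [star_mul, hPs, PJ.star hpp] at this
  have hqQ : q * Q = Q := by
    have := congrArg star hQq
    rwa [star_mul, hQs, PJ.star hqq] at this
  have hpQ : p * Q = 0 := by rw [hp, sub_mul, one_mul, hk1 Q hPQ, sub_self]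
  have hqP : q * P = 0 := by rw [hq, sub_mul, one_mul, hk2 P hQP, sub_self]
  have hQp : Q * p = 0 := by
    have := congrArg star hpQ
    rwa [star_mul, hQs, PJ.star hpp, star_zero] at this
  have hPq : P * q = 0 := by
    have := congrArg star hqP
    rwa [star_mul, hPs, PJ.star hqq, star_zero] at this
  have hqp : q * p = 0 := by rw [hq, sub_mul, one_mul, hk2 p hQp, sub_self]
  have hpq : p * q = 0 := orth_comm hqq hpp hqp
  have pp := PJ.mul_self hpp
  have qq := PJ.mul_self hqq
  -- the symmetry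
  obtain ⟨u, hu⟩ : ∃ u, u = p - q := ⟨_, rfl⟩
  have hus : star u = u := by rw [hu, star_sub, PJ.star hpp, PJ.star hqq]
  obtain ⟨r, hr⟩ : ∃ r, r = p + q := ⟨_, rfl⟩
  have hrP : PJ r := by rw [hr]; exact pj_add hpp hqq hpq
  have huu : u * u = r := by
    rw [hu, hr, sub_mul, mul_sub, mul_sub, pp, qq, hpq, hqp]; abel
  have h2m : (2 : ℂ) • m = P + Q := by rw [hP, hQ, two_smul]; abel
  have h2a : (2 : ℂ) • a = P - Q := by rw [hP, hQ, two_smul]; abel
  have htwo : Function.Injective (fun x : A => (2 : ℂ) • x) :=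
    smul_right_injective A (by norm_num)
  have hum : u * m = a := by
    apply htwo
    show (2 : ℂ) • (u * m) = (2 : ℂ) • a
    rw [← mul_smul_comm, h2m, h2a, hu, sub_mul, mul_add, mul_add, hpP, hqQ, hpQ, hqP]
    abel
  have hmu : m * u = a := by
    have := congrArg star hum
    rwa [star_mul, hus, hms, hsa] at this
  have key : ∀ y : A, m * y = 0 → r * y = 0 := by
    intro y hy
    have h1 : a * y = 0 := by rw [← hum, mul_assoc, hy, mul_zero]
    have h2 : P * y = 0 := by rw [hP, add_mul, hy, h1, add_zero]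
    have h3 : Q * y = 0 := by rw [hQ, sub_mul, hy, h1, sub_zero]
    have h4 := hk1 y h2
    have h5 := hk2 y h3
    rw [hr, hp, hq, add_mul, sub_mul, sub_mul, one_mul, h4, h5, sub_self, add_zero]
  have hru : r * u = u := by
    rw [hr, hu, add_mul, mul_sub, mul_sub, pp, qq, hpq, hqp]; abel
  have hur : u * r = u := by
    have := congrArg star hru
    rwa [star_mul, hus, PJ.star hrP] at this
  have hra : r * a = a := by rw [← hum, ← mul_assoc, hru]
  have har : a * r = a := by rw [← hmu, mul_assoc, hur]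
  -- r commutes with e and f
  have k1 : r * (u * e - f * u) = 0 := by
    apply key
    rw [mul_sub, ← mul_assoc, hmu, ← mul_assoc, hmf, mul_assoc f, hmu, hae, hfa, sub_self]
  have k2 : r * (u * f - e * u) = 0 := by
    apply key
    rw [mul_sub, ← mul_assoc, hmu, ← mul_assoc, hme, mul_assoc e, hmu, haf, hea, sub_self]
  have k1' : u * e = r * (f * u) := by
    rw [mul_sub, sub_eq_zero, ← mul_assoc, hru] at k1
    exact k1
  have k2' : u * f = r * (e * u) := by
    rw [mul_sub, sub_eq_zero, ← mul_assoc, hru] at k2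
    exact k2
  have hre : r * e = u * f * u := by
    rw [← huu, mul_assoc, k1', ← mul_assoc, hur, ← mul_assoc]
  have hrf : r * f = u * e * u := by
    rw [← huu, mul_assoc, k2', ← mul_assoc, hur, ← mul_assoc]
  have hre' : r * e = e * r := by
    have := congrArg star hre
    rw [star_mul, star_mul, star_mul, hes, hfs, hus, PJ.star hrP, ← mul_assoc] at this
    rw [hre, this]
  have hrf' : r * f = f * r := by
    have := congrArg star hrf
    rw [star_mul, star_mul, star_mul, hes, hfs, hus, PJ.star hrP, ← mul_assoc] at this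
    rw [hrf, this]
  refine ⟨r, hrP, hre', hrf', ⟨u * e, ?_, ?_⟩, ?_⟩
  · rw [star_mul, hes, hus]
    calc e * u * (u * e) = e * (u * u) * e := by simp only [mul_assoc]
      _ = e * r := by rw [huu, mul_assoc, hre', ← mul_assoc, hee]
  · rw [star_mul, hes, hus]
    calc u * e * (e * u) = u * (e * e) * u := by simp only [mul_assoc]
      _ = f * r := by rw [hee, ← hrf, hrf']
  · have h1 : e * (1 - r) = (1 - r) * e := by rw [mul_sub, sub_mul, mul_one, one_mul, hre']
    have h2 : f * (1 - r) = (1 - r) * f := by rw [mul_sub, sub_mul, mul_one, one_mul, hrf']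
    have h3 : e * f * (1 - r) = 0 := by
      rw [← hea, mul_assoc, mul_sub, mul_one, har, sub_self, mul_zero]
    calc e * (1 - r) * (f * (1 - r)) = e * ((1 - r) * f) * (1 - r) := by simp only [mul_assoc]
      _ = (e * f * (1 - r)) * (1 - r) := by rw [← h2]; simp only [mul_assoc]
      _ = 0 := by rw [h3, zero_mul]

theorem gc_ok (hCut : PCut A) (hSup : PSup A) (hSupO : PSupO A) (hAdd : PAddO A) : PGC A := by
  intro e f he hf
  obtain ⟨r, hr, hre, hrf, heq, h0⟩ := two_proj hCut hSup he hf
  have h1r : PJ (1 - r) := pj_sub hr pj_one (mul_one _)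
  have hrr : r * (1 - r) = 0 := by rw [mul_sub, mul_one, PJ.mul_self hr, sub_self]
  have hmk : ∀ {a b : A}, PJ a → PJ b → b * a = a * b → PJ (a * b) := by
    intro a b ha hb hab
    refine pj_mk ?_ ?_
    · calc a * b * (a * b) = a * (b * a) * b := by simp only [mul_assoc]
        _ = (a * a) * (b * b) := by rw [hab]; simp only [mul_assoc]
        _ = a * b := by rw [PJ.mul_self ha, PJ.mul_self hb]
    · rw [star_mul, PJ.star ha, PJ.star hb, hab]
  have hre1 : (1 - r) * e = e * (1 - r) := by rw [mul_sub, sub_mul, mul_one, one_mul, hre]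
  have hrf1 : (1 - r) * f = f * (1 - r) := by rw [mul_sub, sub_mul, mul_one, one_mul, hrf]
  have p1 : PJ (e * r) := hmk he hr hre
  have p2 : PJ (f * r) := hmk hf hr hrf
  have p3 : PJ (e * (1 - r)) := hmk he h1r hre1
  have p4 : PJ (f * (1 - r)) := hmk hf h1r hrf1
  have es : e * r + e * (1 - r) = e := by rw [mul_sub, mul_one]; abel
  have fs : f * r + f * (1 - r) = f := by rw [mul_sub, mul_one]; abel
  have oe : e * r * (e * (1 - r)) = 0 := by
    rw [mul_assoc, ← mul_assoc r, hre, mul_assoc e r, hrr, mul_zero, mul_zero]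
  have of : f * r * (f * (1 - r)) = 0 := by
    rw [mul_assoc, ← mul_assoc r, hrf, mul_assoc f r, hrr, mul_zero, mul_zero]
  obtain ⟨c, hc, h1, h2⟩ := gcO hCut hSup hSupO hAdd p3 p4 h0
  refine ⟨c, hc, ?_, ?_⟩
  · rw [← es, ← fs, mul_add, mul_add]
    exact Dich.sub_add (pj_cmul hc p1) (pj_cmul hc p3) (pj_cmul hc p2) (pj_cmul hc p4)
      (by rw [hc.two, oe, mul_zero]) (by rw [hc.two, of, mul_zero])
      (sub_cmul hc (sub_of_eqv p2 heq)) h1
  · rw [← es, ← fs, mul_add, mul_add]
    exact Dich.sub_add (pj_cmul hc.compl p2) (pj_cmul hc.compl p4) (pj_cmul hc.compl p1)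
      (pj_cmul hc.compl p3) (by rw [hc.compl.two, of, mul_zero])
      (by rw [hc.compl.two, oe, mul_zero])
      (sub_cmul hc.compl (sub_of_eqv p1 (eqv_symm heq))) h2

end Pool.Agent.H43AW
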