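import Pool.Agent.H43AW.Glue

/-!
# Maximal projections of type (A)
-/

set_option autoImplicit false

namespace Pool.Agent.H43AW

open Pool.Agent.R456.CL

universe u

section gl

variable {A : Type u} [CStarAlgebra A] {ι : Type*}

/-- `X` is glued from the `x i`. -/
def Glu (p x : ι → A) (X : A) : Prop := (∀ i, p i * X = x i) ∧ ∀ i, X * p i = x i

lemma Glu.mul {p x y : ι → A} {X Y : A} (hp : ∀ i, PJ (p i)) (hX : Glu p x X) (hY : Glu p y Y) :
    Glu p (fun i => x i * y i) (X * Y) := by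
  constructor
  · intro i
    have h1 : p i * y i = y i := by rw [← hY.1 i, ← mul_assoc, PJ.mul_self (hp i)]
    calc p i * (X * Y) = x i * Y := by rw [← mul_assoc, hX.1]
      _ = X * (p i * Y) := by rw [← hX.2 i, mul_assoc]
      _ = X * (p i * y i) := by rw [hY.1, h1]
      _ = x i * y i := by rw [← mul_assoc, hX.2]
  · intro i
    have h1 : x i * p i = x i := by rw [← hX.2 i, mul_assoc, PJ.mul_self (hp i)]
    calc X * Y * p i = X * y i := by rw [mul_assoc, hY.2]
      _ = X * p i * Y := by rw [← hY.1 i, mul_assoc]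
      _ = x i * p i * Y := by rw [hX.2, h1]
      _ = x i * y i := by rw [mul_assoc, hY.1]

lemma Glu.star {p x : ι → A} {X : A} (hp : ∀ i, PJ (p i)) (hX : Glu p x X) :
    Glu p (fun i => star (x i)) (star X) := by
  constructor
  · intro i
    have := congrArg Star.star (hX.2 i)
    rwa [star_mul, PJ.star (hp i)] at this
  · intro i
    have := congrArg Star.star (hX.1 i)
    rwa [star_mul, PJ.star (hp i)] at this

lemma Glu.add {p x y : ι → A} {X Y : A} (hX : Glu p x X) (hY : Glu p y Y) :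
    Glu p (fun i => x i + y i) (X + Y) :=
  ⟨fun i => by rw [mul_add, hX.1, hY.1], fun i => by rw [add_mul, hX.2, hY.2]⟩

lemma Glu.sub {p x y : ι → A} {X Y : A} (hX : Glu p x X) (hY : Glu p y Y) :
    Glu p (fun i => x i - y i) (X - Y) :=
  ⟨fun i => by rw [mul_sub, hX.1, hY.1], fun i => by rw [sub_mul, hX.2, hY.2]⟩

lemma Glu.sup {p : ι → A} {E : A} (hp : ∀ i, PJ (p i)) (hE : IsSup p E) : Glu p p E :=
  ⟨hE.2.1, fun i => Le.rev (hp i) hE.1 (hE.2.1 i)⟩

/-- left annihilator form of suprema. -/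
lemma IsSup.left {p : ι → A} {E : A} (hp : ∀ i, PJ (p i)) (hE : IsSup p E) {x : A}
    (h : ∀ i, p i * x = 0) : E * x = 0 := by
  have h1 := hE.2.2 (Star.star x) (fun i => by
    have := congrArg Star.star (h i)
    rwa [star_mul, PJ.star (hp i), star_zero] at this)
  have := congrArg Star.star h1
  rwa [star_mul, star_star, PJ.star hE.1, star_zero] at this

lemma Glu.eq {p x : ι → A} {E X Y : A} (hp : ∀ i, PJ (p i)) (hE : IsSup p E) (hX : Glu p x X)
    (hY : Glu p x Y) (h1 : E * X = X) (h2 : E * Y = Y) : X = Y := by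
  have h3 : E * (X - Y) = 0 := IsSup.left hp hE (fun i => by
    rw [mul_sub, hX.1, hY.1, sub_self])
  rw [mul_sub, h1, h2, sub_eq_zero] at h3
  exact h3

lemma Glu.congr {p x y : ι → A} {X : A} (hX : Glu p x X) (h : ∀ i, x i = y i) : Glu p y X := by
  have : x = y := funext h
  rwa [← this]

/-- an element commuting with all `p i` commutes with the supremum. -/
lemma sup_comm {p : ι → A} {E T : A} (hp : ∀ i, PJ (p i)) (hE : IsSup p E)
    (hT : ∀ i, p i * T = T * p i) : E * T = T * E := by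
  have hT' : ∀ i, p i * Star.star T = Star.star T * p i := by
    intro i
    have := congrArg Star.star (hT i)
    rw [star_mul, star_mul, PJ.star (hp i)] at this
    exact this.symm
  have key : ∀ S : A, (∀ i, p i * S = S * p i) → S * E = E * S * E := by
    intro S hS
    have h1 : (1 - E) * S * E = 0 := by
      refine hE.2.2 _ (fun i => ?_)
      rw [mul_assoc, ← hS, ← mul_assoc, sub_mul, one_mul, Le.rev (hp i) hE.1 (hE.2.1 i), sub_self,
        zero_mul]
    rw [sub_mul, sub_mul, one_mul, sub_eq_zero] at h1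
    exact h1
  have h1 := key T hT
  have h2 := congrArg Star.star (key _ hT')
  rw [star_mul, star_mul, star_mul, star_star, PJ.star hE.1] at h2
  exact h2.trans (by rw [← mul_assoc]; exact h1.symm)

end gl

lemma typeA_zero {A : Type u} [CStarAlgebra A] (K : ℝ) (hK : 0 ≤ K) (T : A) :
    TypeA K T 0 := by
  have hz : PJ (0 : A) := ⟨by simp [IsIdempotentElem], by simp [IsSelfAdjoint]⟩
  refine ⟨hz, by simp, 0, 0, 0, hz, hz, ?_, ?_, by simp, ⟨0, by simp, by simp⟩,
    ⟨0, by simp, by simp⟩, by simp, by simp, by simp, by simp, by simpa using hK⟩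
  · show (0 : A) * 0 = 0
    simp
  · show (0 : A) * 0 = 0
    simp

theorem maxA_ok : St_MaxA.{u} := by
  classical
  intro A _ hSup hGl K T hK
  -- Zorn
  obtain ⟨F, hFmax⟩ := zorn_subset {F : Set A | (∀ q ∈ F, TypeA K T q) ∧
      ∀ q ∈ F, ∀ q' ∈ F, q ≠ q' → q * q' = 0} (by
    intro c hc hchain
    refine ⟨⋃₀ c, ⟨?_, ?_⟩, fun t ht => Set.subset_sUnion_of_mem ht⟩
    · rintro q ⟨t, ht, hq⟩
      exact (hc ht).1 q hq
    · rintro q ⟨t, ht, hq⟩ q' ⟨t', ht', hq'⟩ hne
      rcases hchain.total ht ht' with h | h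
      · exact (hc ht').2 q (h hq) q' hq' hne
      · exact (hc ht).2 q hq q' (h hq') hne)
  obtain ⟨hF1, hF2⟩ := hFmax.prop
  obtain ⟨p, hpdef⟩ : ∃ p : ↥F → A, p = fun i => i.1 := ⟨_, rfl⟩
  have hA : ∀ i, TypeA K T (p i) := fun i => by rw [hpdef]; exact hF1 i.1 i.2
  have hp : ∀ i, PJ (p i) := fun i => (hA i).1
  have ho : ∀ i j, i ≠ j → p i * p j = 0 := by
    intro i j hij
    rw [hpdef]
    exact hF2 i.1 i.2 j.1 j.2 (fun h => hij (Subtype.ext h))
  obtain ⟨E, hE⟩ := hSup ↥F p hp ho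
  have hTc : ∀ i, p i * T = T * p i := fun i => (hA i).2.1
  choose e f y he hf hep hfp hef hpe hpf h1 h2 h3 h4 h5 using fun i => (hA i).2.2
  choose a ha1 ha2 using hpe
  choose b hb1 hb2 using hpf
  have hae : ∀ i, e i * a i = a i := fun i => pi_left (hp i) (ha1 i) (ha2 i)
  have hbf : ∀ i, f i * b i = b i := fun i => pi_left (hp i) (hb1 i) (hb2 i)
  have hpe' : ∀ i, p i * e i = e i := fun i => Le.rev (he i) (hp i) (hep i)
  have hpf' : ∀ i, p i * f i = f i := fun i => Le.rev (hf i) (hp i) (hfp i)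
  obtain ⟨U, hU1, hU2, hU3, hU4⟩ := hGl ↥F p a E 1 hp ho hE
    (fun i => by rw [← hae, ← mul_assoc, hpe']) (fun i => pi_right (hp i) (ha1 i))
    (fun i => pi_norm_le (hp i) (ha1 i))
  obtain ⟨W, hW1, hW2, hW3, hW4⟩ := hGl ↥F p b E 1 hp ho hE
    (fun i => by rw [← hbf, ← mul_assoc, hpf']) (fun i => pi_right (hp i) (hb1 i))
    (fun i => pi_norm_le (hp i) (hb1 i))
  obtain ⟨Y, hY1, hY2, hY3, hY4⟩ := hGl ↥F p y E K hp ho hE
    (fun i => by rw [← h1, ← mul_assoc, hpe'])
    (fun i => by rw [← h2, mul_assoc, show f i * p i = f i from hfp i]) (fun i => h5 i)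
  have gU : Glu p a U := ⟨hU3, hU4⟩
  have gW : Glu p b W := ⟨hW3, hW4⟩
  have gY : Glu p y Y := ⟨hY3, hY4⟩
  have gT : Glu p (fun i => T * p i) T := ⟨hTc, fun i => rfl⟩
  have gE : Glu p p E := Glu.sup hp hE
  obtain ⟨e', he'⟩ : ∃ e' : A, e' = U * star U := ⟨_, rfl⟩
  obtain ⟨f', hf'⟩ : ∃ f' : A, f' = W * star W := ⟨_, rfl⟩
  have ge : Glu p e e' := by
    rw [he']
    exact (gU.mul hp (gU.star hp)).congr ha2
  have gf : Glu p f f' := by
    rw [hf']
    exact (gW.mul hp (gW.star hp)).congr hb2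
  have hEsU : E * star U = star U := star_absorb_right hE.1 hU2
  have hEsW : E * star W = star W := star_absorb_right hE.1 hW2
  have hUU : star U * U = E := Glu.eq hp hE (((gU.star hp).mul hp gU).congr ha1) gE
    (by rw [← mul_assoc, hEsU]) (PJ.mul_self hE.1)
  have hWW : star W * W = E := Glu.eq hp hE (((gW.star hp).mul hp gW).congr hb1) gE
    (by rw [← mul_assoc, hEsW]) (PJ.mul_self hE.1)
  have hEe : E * e' = e' := by rw [he', ← mul_assoc, hU1]
  have hEf : E * f' = f' := by rw [hf', ← mul_assoc, hW1]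
  have hePJ : PJ e' := by rw [he']; exact pi_final hE.1 hUU
  have hfPJ : PJ f' := by rw [hf']; exact pi_final hE.1 hWW
  have heE : e' * E = e' := by
    have := congrArg star hEe
    rwa [star_mul, PJ.star hE.1, PJ.star hePJ] at this
  have hfE : f' * E = f' := by
    have := congrArg star hEf
    rwa [star_mul, PJ.star hE.1, PJ.star hfPJ] at this
  have gfTe : Glu p (fun i => f i * T * e i) (f' * T * e') :=
    ((gf.mul hp gT).mul hp ge).congr (fun i => by
      show f i * (T * p i) * e i = f i * T * e i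
      rw [mul_assoc, mul_assoc, hpe', ← mul_assoc])
  refine ⟨E, ‖Y‖, ⟨hE.1, sup_comm hp hE hTc, e', f', Y, hePJ, hfPJ, heE, hfE, ?_,
    ⟨U, hUU, he'.symm⟩, ⟨W, hWW, hf'.symm⟩, ?_, ?_, ?_, ?_, le_refl _⟩, ?_⟩
  · have gz : Glu p (fun _ => (0 : A)) 0 := ⟨fun i => mul_zero _, fun i => zero_mul _⟩
    exact Glu.eq hp hE ((ge.mul hp gf).congr hef) gz (by rw [← mul_assoc, hEe]) (mul_zero _)
  · exact Glu.eq hp hE ((ge.mul hp gY).congr h1) gY (by rw [← mul_assoc, hEe]) hY1
  · exact Glu.eq hp hE ((gY.mul hp gf).congr h2) gY (by rw [← mul_assoc, hY1]) hY1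
  · exact Glu.eq hp hE ((gY.mul hp gfTe).congr h3) ge (by rw [← mul_assoc, hY1]) hEe
  · exact Glu.eq hp hE ((gfTe.mul hp gY).congr h4) gf (by
      simp only [← mul_assoc]; rw [hEf]) hEf
  · intro q hq hqE
    have hqp : ∀ q' ∈ F, q * q' = 0 := by
      intro q' hq'
      have h6 := gE.2 ⟨q', hq'⟩
      have h7 : p ⟨q', hq'⟩ = q' := by rw [hpdef]
      rw [h7] at h6
      rw [← h6, ← mul_assoc, hqE, zero_mul]
    have hins : insert q F ∈ {F : Set A | (∀ q ∈ F, TypeA K T q) ∧
        ∀ q ∈ F, ∀ q' ∈ F, q ≠ q' → q * q' = 0} := by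
      refine ⟨?_, ?_⟩
      · rintro r (rfl | hr)
        · exact hq
        · exact hF1 r hr
      · rintro r (rfl | hr) r' (rfl | hr') hne
        · exact absurd rfl hne
        · exact hqp r' hr'
        · exact orth_comm hq.1 (hF1 r hr).1 (hqp r hr)
        · exact hF2 r hr r' hr' hne
    have hqF : q ∈ F := hFmax.le_of_ge hins (Set.subset_insert _ _) (Set.mem_insert _ _)
    have := hqp q hqF
    rwa [PJ.mul_self hq.1] at this

end Pool.Agent.H43AW
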