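import Pool.Agent.H43AW.K1

/-!
# Every AW*-algebra is clean (MP_3fc7b1_an, Q2): the module statements
-/

set_option autoImplicit false

namespace Pool.Agent.H43AW

open Pool.Agent.R456.CL

universe u

section

variable (A : Type u) [CStarAlgebra A]

/-- spectral cut with a bound of the inverse. -/
def PCutQ : Prop := ∀ x : A, ∀ ε : ℝ, 0 < ε → ∃ k s : A, PJ k ∧ k * s = s ∧ s * k = s ∧
  star s = s ∧ k * (star x * x) = (star x * x) * k ∧ s * s * (star x * x) = k ∧
  (star x * x) * (s * s) = k ∧ s * (star x * x) * s = k ∧ ‖x * (1 - k)‖ ≤ ε ∧ ‖s‖ * ε ≤ 2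

/-- gluing of bounded families in orthogonal corners. -/
def PGlue : Prop := ∀ (ι : Type u) (p x : ι → A) (E : A) (K : ℝ), (∀ i, PJ (p i)) →
  (∀ i j, i ≠ j → p i * p j = 0) → IsSup p E → (∀ i, p i * x i = x i) →
  (∀ i, x i * p i = x i) → (∀ i, ‖x i‖ ≤ K) →
  ∃ X : A, E * X = X ∧ X * E = X ∧ (∀ i, p i * X = x i) ∧ ∀ i, X * p i = x i

/-- infinite projections have a central piece with a halving. -/
def PHalf : Prop := ∀ g : A, PJ g → Infin g → ∃ c : A, CP c ∧ c * g ≠ 0 ∧ HV (c * g)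

/-- orthogonal sums of finite projections are finite. -/
def PFinSum : Prop := ∀ e f : A, PJ e → PJ f → e * f = 0 → ¬ Infin e → ¬ Infin f →
  ¬ Infin (e + f)

/-- additivity below a projection with a halving. -/
def PAddR : Prop := ∀ P : A, PJ P → HV P → ∀ (ι : Type u) (w : ι → A) (E F : A),
  (∀ i, P * w i = w i) → (∀ i, w i * P = w i) →
  (∀ i, PJ (star (w i) * w i)) →
  (∀ i j, i ≠ j → (star (w i) * w i) * (star (w j) * w j) = 0) →
  (∀ i j, i ≠ j → (w i * star (w i)) * (w j * star (w j)) = 0) →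
  IsSup (fun i => star (w i) * w i) E → IsSup (fun i => w i * star (w i)) F →
  ∃ v : A, star v * v = E ∧ v * star v = F ∧ ∀ i, v * (star (w i) * w i) = w i

/-- polar decomposition below a projection with a halving. -/
def PLRR : Prop := ∀ P : A, PJ P → HV P → ∀ x : A, P * x = x → x * P = x →
  ∃ w r l : A, PJ r ∧ PJ l ∧ star w * w = r ∧ w * star w = l ∧
  x * r = x ∧ l * x = x ∧ (∀ y : A, x * y = 0 → r * y = 0) ∧ (∀ y : A, y * x = 0 → y * l = 0)

/-- the reducing hull of a projection with a halving is not bigger. -/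
def PHull : Prop := ∀ P k T : A, PJ P → HV P → PJ k → HV k → Le k P → P * T = T → T * P = T →
  ∃ h : A, PJ h ∧ Le k h ∧ Le h P ∧ h * T = T * h ∧ Sub h k

end

section

variable {A : Type u} [CStarAlgebra A]

/-- `p` reduces `T`, and `p A p` contains orthogonal copies `e`, `f` of `p` such that the corner
`f T e` is invertible, with a bound for the inverse. -/
def TypeA (K : ℝ) (T p : A) : Prop := PJ p ∧ p * T = T * p ∧ ∃ e f y : A, PJ e ∧ PJ f ∧
  Le e p ∧ Le f p ∧ e * f = 0 ∧ Eqv p e ∧ Eqv p f ∧ e * y = y ∧ y * f = y ∧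
  y * (f * T * e) = e ∧ (f * T * e) * y = f ∧ ‖y‖ ≤ K

/-- up to a finite projection, `T - s` is invertible below `z * g`. -/
def TypeB (T g : A) (s : ℂ) (z : A) : Prop := CP z ∧ ∃ k y : A, PJ k ∧ Le k (z * g) ∧
  ¬ Infin k ∧ (z * g - k) * y = y ∧ y * (z * g - k) = y ∧
  y * ((z * g - k) * (T - s • (1 : A)) * (z * g - k)) = z * g - k ∧
  ((z * g - k) * (T - s • (1 : A)) * (z * g - k)) * y = z * g - k ∧ ‖y‖ ≤ 4

end

section

variable (A : Type u) [CStarAlgebra A]

/-- a maximal projection of type (A). -/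
def PMaxA : Prop := ∀ (K : ℝ) (T : A), 0 ≤ K → ∃ (p : A) (K' : ℝ), TypeA K' T p ∧
  ∀ q : A, TypeA K T q → q * p = 0 → q = 0

/-- without projections of type (A), everything is locally of type (B). -/
def PB : Prop := ∀ g T : A, PJ g → g * T = T → T * g = T →
  (∀ q : A, Le q g → TypeA 160 T q → q = 0) → ∀ z0 : A, CP z0 → z0 ≠ 0 →
  ∃ z : A, CP z ∧ z * z0 = z ∧ z ≠ 0 ∧ (TypeB T g 0 z ∨ TypeB T g 1 z)

/-- type (A) projections give clean corners. -/
def PCleanA : Prop := ∀ (K : ℝ) (T p : A), TypeA K T p → CleanIn p (p * T)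

end

/-! ### who proves what

* helper65: `half_ok`, `finsum_ok`, `addR_ok`, `lrR_ok`, `hull_ok`
* helper43: `cutQ_ok`, `glue_ok`, `fin_ok'`, `maxA_ok`, `b_ok`, `cleanA_ok`, final assembly
-/

def St_CutQ : Prop := ∀ (A : Type u) [CStarAlgebra A], PSa A → PCutQ A
def St_Glue : Prop := ∀ (A : Type u) [CStarAlgebra A], PSa A → PCutQ A → PSupO A → PGlue A
def St_Half : Prop := ∀ (A : Type u) [CStarAlgebra A], PCut A → PSup A → PSupO A → PAddO A →
  PGC A → PHalf A
def St_FinSum : Prop := ∀ (A : Type u) [CStarAlgebra A], PCutQ A → PGC A → PHalf A → PFinSum A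
def St_AddR : Prop := ∀ (A : Type u) [CStarAlgebra A], PAddO A → PAddR A
def St_LRR : Prop := ∀ (A : Type u) [CStarAlgebra A], PCut A → PSup A → PAddR A → PLRR A
def St_Hull : Prop := ∀ (A : Type u) [CStarAlgebra A], PCut A → PSup A → PSupO A → PAddR A →
  PLRR A → PHull A
def St_Fin' : Prop := ∀ (A : Type u) [CStarAlgebra A], PCut A → PGC A → PFin A
def St_MaxA : Prop := ∀ (A : Type u) [CStarAlgebra A], PSupO A → PGlue A → PMaxA A
def St_B : Prop := ∀ (A : Type u) [CStarAlgebra A], PSa A → PCutQ A → PGC A → PHalf A →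
  PFinSum A → PHull A → PSB A → PB A
def St_CleanA : Prop := ∀ (A : Type u) [CStarAlgebra A], PCut A → PSB A → PCleanA A

end Pool.Agent.H43AW
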